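import Pool.Agent.Lib.MP_9599cf_ntA.QDef

/-! # The zeros of `qd a n` on the unit circle -/

set_option autoImplicit false

namespace SalemLen

open Polynomial

private theorem qcirc_ivt {a n : ℕ} (ha : 3 ≤ a) (hn : 1 ≤ n) (j : ℕ) :
    ∃ θ : ℝ, (j : ℝ) * Real.pi / n < θ ∧ θ < ((j + 1 : ℕ) : ℝ) * Real.pi / n ∧
      2 * Real.cos (n * θ) * (2 * Real.cos θ - a) + 1 = 0 := by
  have hn0 : (0 : ℝ) < n := by exact_mod_cast hn
  have ha3 : (3 : ℝ) ≤ a := by exact_mod_cast ha
  set g : ℝ → ℝ := fun θ => 2 * Real.cos (n * θ) * (2 * Real.cos θ - a) + 1 with hg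
  have hcont : Continuous g := by
    rw [hg]
    fun_prop
  have hval : ∀ i : ℕ, g ((i : ℝ) * Real.pi / n) =
      2 * (-1) ^ i * (2 * Real.cos ((i : ℝ) * Real.pi / n) - a) + 1 := by
    intro i
    have e : (n : ℝ) * ((i : ℝ) * Real.pi / n) = i * Real.pi := by
      field_simp
    change 2 * Real.cos (n * ((i : ℝ) * Real.pi / n)) *
      (2 * Real.cos ((i : ℝ) * Real.pi / n) - a) + 1 = _
    rw [e, Real.cos_nat_mul_pi]
  have heven : ∀ i : ℕ, Even i → g ((i : ℝ) * Real.pi / n) < 0 := by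
    intro i hi
    rw [hval, hi.neg_one_pow]
    have := Real.cos_le_one ((i : ℝ) * Real.pi / n)
    linarith
  have hodd : ∀ i : ℕ, Odd i → 0 < g ((i : ℝ) * Real.pi / n) := by
    intro i hi
    rw [hval, hi.neg_one_pow]
    have := Real.cos_le_one ((i : ℝ) * Real.pi / n)
    linarith
  have hle : (j : ℝ) * Real.pi / n ≤ ((j + 1 : ℕ) : ℝ) * Real.pi / n := by
    apply div_le_div_of_nonneg_right _ hn0.le
    apply mul_le_mul_of_nonneg_right _ Real.pi_pos.le
    push_cast
    linarith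
  rcases Nat.even_or_odd j with hj | hj
  · obtain ⟨θ, h1, h2⟩ := intermediate_value_Ioo hle hcont.continuousOn
      ⟨heven j hj, hodd (j + 1) hj.add_one⟩
    exact ⟨θ, h1.1, h1.2, h2⟩
  · obtain ⟨θ, h1, h2⟩ := intermediate_value_Ioo' hle hcont.continuousOn
      ⟨heven (j + 1) hj.add_one, hodd j hj⟩
    exact ⟨θ, h1.1, h1.2, h2⟩

private theorem qcirc_eval {a n : ℕ} (θ : ℝ)
    (h : 2 * Real.cos (n * θ) * (2 * Real.cos θ - a) + 1 = 0) :
    (cx (qd a n)).eval (Complex.exp (θ * Complex.I)) = 0 := by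
  rw [qd_eval]
  set z : ℂ := Complex.exp (θ * Complex.I) with hz
  set w : ℂ := Complex.exp (-θ * Complex.I) with hw
  have hzw : z * w = 1 := by
    rw [hz, hw, ← Complex.exp_add]
    have : (θ : ℂ) * Complex.I + -θ * Complex.I = 0 := by ring
    rw [this, Complex.exp_zero]
  have hnw : z ^ n * w ^ n = 1 := by rw [← mul_pow, hzw, one_pow]
  have h1 : z + w = 2 * Complex.cos θ := (Complex.two_cos (θ : ℂ)).symm
  have h2 : z ^ n + w ^ n = 2 * Complex.cos (n * θ) := by
    rw [Complex.two_cos, hz, hw, ← Complex.exp_nat_mul, ← Complex.exp_nat_mul]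
    congr 1 <;> congr 1 <;> ring
  have h3 : (2 * Complex.cos (n * θ)) * (2 * Complex.cos θ - a) + 1 = 0 := by
    exact_mod_cast congrArg (fun x : ℝ => (x : ℂ)) h
  rw [← h1, ← h2] at h3
  linear_combination z ^ (n + 1) * h3 - (z ^ (2 * n) + 1) * hzw - z * (z + w - a) * hnw

/-- PROOF. For `z = exp (I θ)`, `qd z = z ^ (n + 1) * g θ` with the real function
`g θ = 2 cos (n θ) * (2 cos θ - a) + 1`. At `θ = j π / n`, `0 ≤ j ≤ 2 n`, `cos (n θ) = (-1) ^ j` and
`2 * (a - 2 cos θ) ≥ 2`, so `g` has the sign of `(-1) ^ (j + 1)` there (nonzero). By the intermediate value theorem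
`g` has a zero `θ j` in the open interval `(j π / n, (j + 1) π / n)` for `0 ≤ j < 2 n`; these are `2 n` different
numbers in `(0, 2 π)`, and `θ ↦ exp (I θ)` is injective there. `Z` is the set of the `exp (I θ j)`. -/
theorem qd_circle {a n : ℕ} (ha : 3 ≤ a) (hn : 1 ≤ n) :
    ∃ Z : Finset ℂ, Z.card = 2 * n ∧ ∀ z ∈ Z, ‖z‖ = 1 ∧ (cx (qd a n)).eval z = 0 := by
  classical
  have hn0 : (0 : ℝ) < n := by exact_mod_cast hn
  choose θ h1 h2 h3 using qcirc_ivt ha hn
  have hmono : ∀ i j : ℕ, i < j → θ i < θ j := by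
    intro i j hij
    have h4 : ((i + 1 : ℕ) : ℝ) * Real.pi / n ≤ (j : ℝ) * Real.pi / n := by
      apply div_le_div_of_nonneg_right _ hn0.le
      apply mul_le_mul_of_nonneg_right _ Real.pi_pos.le
      exact_mod_cast hij
    exact (h2 i).trans_le (h4.trans (h1 j).le)
  have hpos : ∀ i : ℕ, 0 < θ i := by
    intro i
    refine lt_of_le_of_lt ?_ (h1 i)
    positivity
  have hlt : ∀ i : ℕ, i < 2 * n → θ i < 2 * Real.pi := by
    intro i hi
    refine (h2 i).trans_le ?_
    rw [div_le_iff₀ hn0]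
    have h4 : ((i + 1 : ℕ) : ℝ) ≤ 2 * n := by exact_mod_cast hi
    have := mul_le_mul_of_nonneg_right h4 Real.pi_pos.le
    linarith
  refine ⟨(Finset.range (2 * n)).image (fun j => Complex.exp (θ j * Complex.I)), ?_, ?_⟩
  · rw [Finset.card_image_of_injOn, Finset.card_range]
    intro i hi j hj hij
    have hi' : i < 2 * n := by simpa using hi
    have hj' : j < 2 * n := by simpa using hj
    obtain ⟨m, hm⟩ := Complex.exp_eq_exp_iff_exists_int.1 hij
    have hm' : (θ i : ℂ) = θ j + m * (2 * Real.pi) := by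
      have : (θ i : ℂ) * Complex.I = (θ j + m * (2 * Real.pi)) * Complex.I := by
        rw [hm]
        ring
      exact mul_right_cancel₀ Complex.I_ne_zero this
    have hm2 : θ i = θ j + m * (2 * Real.pi) := by exact_mod_cast hm'
    have ha1 := hpos i
    have ha2 := hpos j
    have ha3 := hlt i hi'
    have ha4 := hlt j hj'
    have hpi := Real.pi_pos
    have hm3 : m = 0 := by
      by_contra hne
      rcases lt_or_gt_of_ne hne with h | h
      · have h5 : (m : ℝ) ≤ -1 := by
          have : m ≤ -1 := by omega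
          exact_mod_cast this
        nlinarith
      · have h5 : (1 : ℝ) ≤ m := by
          have : 1 ≤ m := by omega
          exact_mod_cast this
        nlinarith
    rw [hm3] at hm2
    have hm4 : θ i = θ j := by
      rw [hm2]
      simp
    rcases lt_trichotomy i j with h | h | h
    · exact absurd hm4 (hmono i j h).ne
    · exact h
    · exact absurd hm4 (hmono j i h).ne'
  · intro z hz
    obtain ⟨j, _, rfl⟩ := Finset.mem_image.1 hz
    exact ⟨Complex.norm_exp_ofReal_mul_I _, qcirc_eval _ (h3 j)⟩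

end SalemLen
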