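import Pool.Agent.Lib.MP_9599cf_ntA.QBasic
import Pool.Agent.Lib.MP_9599cf_ntA.QCirc

/-! # At most one zero of `qd a n` outside the unit disc -/

set_option autoImplicit false

namespace SalemLen

open Polynomial

/-- PROOF. `Q` is monic of degree `2 n` (`qd_monic`). The `2 n` zeros in `Z` (`qd_circle`) are on the unit circle,
so they are different from `x`, `y` and are zeros of `Q`. So `Q = ∏ z ∈ Z, (X - C z)` (a monic polynomial of degree
`2 n` with `2 n` different roots), `‖Q.eval 0‖ = 1`, and `1 = ‖(qd a n).coeff 0‖ = ‖x‖ * ‖y‖ > 1`, a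
contradiction. -/
theorem qd_count {a n : ℕ} (ha : 3 ≤ a) (hn : 1 ≤ n) (x y : ℂ) (Q : ℂ[X])
    (h : cx (qd a n) = (X - C x) * ((X - C y) * Q)) (hx : 1 < ‖x‖) (hy : 1 < ‖y‖) : False := by
  obtain ⟨hm, hdeg⟩ := qd_monic a hn
  obtain ⟨Z, hZc, hZ⟩ := qd_circle ha hn
  have hcm : (cx (qd a n)).Monic := hm.map _
  have hcdeg : (cx (qd a n)).natDegree = 2 * n + 2 := by
    rw [cx, hm.natDegree_map, hdeg]
  have hx1 : (X - C x : ℂ[X]).Monic := monic_X_sub_C x
  have hy1 : (X - C y : ℂ[X]).Monic := monic_X_sub_C y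
  have hQ1 : ((X - C y) * Q).Monic := hx1.of_mul_monic_left (by rw [← h]; exact hcm)
  have hQ : Q.Monic := hy1.of_mul_monic_left hQ1
  have hQdeg : Q.natDegree = 2 * n := by
    have h1 := congrArg natDegree h
    rw [hcdeg, hx1.natDegree_mul hQ1, hy1.natDegree_mul hQ, natDegree_X_sub_C,
      natDegree_X_sub_C] at h1
    omega
  have hle : Z.val ≤ Q.roots := by
    rw [Multiset.le_iff_subset Z.nodup]
    intro z hz
    obtain ⟨h1, h2⟩ := hZ z hz
    rw [mem_roots hQ.ne_zero, IsRoot]
    rw [h, eval_mul, eval_mul, eval_sub, eval_sub, eval_X, eval_C, eval_C] at h2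
    have hzx : z - x ≠ 0 := by
      intro h0
      rw [sub_eq_zero.1 h0] at h1
      linarith
    have hzy : z - y ≠ 0 := by
      intro h0
      rw [sub_eq_zero.1 h0] at h1
      linarith
    exact (mul_eq_zero.1 ((mul_eq_zero.1 h2).resolve_left hzx)).resolve_left hzy
  have hroots : Z.val = Q.roots := by
    apply Multiset.eq_of_le_of_card_le hle
    rw [Finset.card_val, hZc, ← hQdeg]
    exact card_roots' Q
  have hcard : Multiset.card Q.roots = Q.natDegree := by
    rw [← hroots, Finset.card_val, hZc, hQdeg]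
  have hprod := prod_multiset_X_sub_C_of_monic_of_roots_card_eq hQ hcard
  have hnorm : ‖Q.eval 0‖ = 1 := by
    rw [← hprod, ← hroots]
    have e : (Z.val.map fun a => (X - C a : ℂ[X])).prod = ∏ z ∈ Z, (X - C z) := rfl
    rw [e, eval_prod, norm_prod]
    apply Finset.prod_eq_one
    intro z hz
    rw [eval_sub, eval_X, eval_C, zero_sub, norm_neg, (hZ z hz).1]
  have h0 : (cx (qd a n)).eval 0 = 1 := by
    rw [← coeff_zero_eq_eval_zero, cx, coeff_map, qd_coeff_zero a hn, map_one]
  rw [h, eval_mul, eval_mul, eval_sub, eval_sub, eval_X, eval_C, eval_C] at h0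
  have h1 := congrArg norm h0
  rw [norm_mul, norm_mul, hnorm, zero_sub, zero_sub, norm_neg, norm_neg, norm_one, mul_one] at h1
  nlinarith

end SalemLen
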