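import Mathlib

/-! # Left neighbours of a reciprocal quadratic unit -/

set_option autoImplicit false

namespace SalemLen

private theorem QLeft_not_int {a : ℤ} {x : ℝ} (h1 : (a : ℝ) - 1 < x) (h2 : x < a) (b : ℤ) :
    x ≠ b := by
  intro h
  rw [h] at h1 h2
  have h3 : a - 1 < b := by exact_mod_cast h1
  have h4 : b < a := by exact_mod_cast h2
  omega

/-- PROOF. `x + x⁻¹` is strictly increasing for `x ≥ 1` and continuous, with the value `a` at `β`: for `t < β`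
near `β`, `a - 1 < t + t⁻¹ < a`, so it is not an integer. `a - 1 < β < a` as `0 < β⁻¹ < 1`, so for `t < β` near
`β`, `a - 1 < t < a`. -/
theorem exists_left' {a : ℕ} {β : ℝ} (hβ : 1 < β) (h : β + β⁻¹ = a) :
    ∃ δ : ℝ, 0 < δ ∧ ∀ t : ℝ, β - δ < t → t < β → (∀ b : ℤ, t ≠ b) ∧ ∀ b : ℤ, t + t⁻¹ ≠ b := by
  have hβ0 : 0 < β := by linarith
  have hi0 : 0 < β⁻¹ := inv_pos.2 hβ0
  have hi1 : β⁻¹ < 1 := inv_lt_one_of_one_lt₀ hβ
  have hmul : β * β⁻¹ = 1 := mul_inv_cancel₀ hβ0.ne'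
  have ha2 : (2 : ℝ) < a := by
    rw [← h]
    nlinarith [mul_pos (sub_pos.2 hβ) (sub_pos.2 hi1)]
  refine ⟨β - ((a : ℝ) - 1), by linarith, ?_⟩
  intro t ht1 ht2
  have ht3 : (a : ℝ) - 1 < t := by linarith
  have ht4 : 1 < t := by linarith
  have ht0 : 0 < t := by linarith
  have hti0 : 0 < t⁻¹ := inv_pos.2 ht0
  have hta : t < a := by linarith
  have htmul : t * t⁻¹ = 1 := mul_inv_cancel₀ ht0.ne'
  have hlt : t + t⁻¹ < a := by
    rw [← h]
    have e : β + β⁻¹ - (t + t⁻¹) = (β - t) * (1 - β⁻¹ * t⁻¹) := by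
      field_simp
      ring
    have hp : 0 < (β - t) * (1 - β⁻¹ * t⁻¹) := by
      apply mul_pos (by linarith)
      have : t⁻¹ < 1 := inv_lt_one_of_one_lt₀ ht4
      nlinarith
    linarith
  refine ⟨fun b => ?_, fun b => ?_⟩
  · exact QLeft_not_int (a := (a : ℤ)) (by push_cast; exact ht3) (by push_cast; exact hta) b
  · exact QLeft_not_int (a := (a : ℤ)) (by push_cast; linarith) (by push_cast; exact hlt) b

end SalemLen
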