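import Pool.Agent.Lib.MP_9599cf_ntL.Sal4

/-! # Salem polynomials without the bound two -/

set_option autoImplicit false

namespace SalemLen

open Polynomial

private theorem Sal5_eval_cx (P : ℤ[X]) (z : ℂ) :
    (cx P).eval z = eval₂ (Int.castRingHom ℂ) z P := by
  rw [cx, eval_map]

private theorem Sal5_rev {h : ℤ[X]} {z : ℂ} (hz : z ≠ 0) :
    (cx h.reverse).eval z⁻¹ * z ^ h.natDegree = (cx h).eval z := by
  let _ : Invertible z := invertibleOfNonzero hz
  have h1 := eval₂_reverse_mul_pow (Int.castRingHom ℂ) z h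
  rw [invOf_eq_inv] at h1
  rw [Sal5_eval_cx, Sal5_eval_cx, h1]

private theorem Sal5_eval_sal (h : ℤ[X]) (m : ℕ) (ε : ℤ) (z : ℂ) :
    (cx (sal h m ε)).eval z = z ^ m * (cx h).eval z + (ε : ℂ) * (cx h.reverse).eval z := by
  rw [cx, sal, Polynomial.map_add, Polynomial.map_mul, Polynomial.map_pow, map_X,
    Polynomial.map_mul, Polynomial.map_C, eval_add, eval_mul, eval_pow, eval_X, eval_mul, eval_C]
  rfl

private theorem Sal5_inv {h : ℤ[X]} {m : ℕ} {ε : ℤ} (hε : |ε| = 1) {z : ℂ} (hz : z ≠ 0)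
    (h0 : (cx (sal h m ε)).eval z = 0) : (cx (sal h m ε)).eval z⁻¹ = 0 := by
  have hz' : z⁻¹ ≠ 0 := inv_ne_zero hz
  have e1 := Sal5_rev (h := h) hz
  have e2 := Sal5_rev (h := h) hz'
  rw [inv_inv] at e2
  have hee : (ε : ℂ) * ε = 1 := by
    have : ε * ε = 1 := by
      rw [← abs_mul_abs_self, hε, mul_one]
    exact_mod_cast this
  rw [Sal5_eval_sal] at h0 ⊢
  rw [← e1] at h0
  rw [← e2]
  have hzd : z ^ h.natDegree * z⁻¹ ^ h.natDegree = 1 := by
    rw [← mul_pow, mul_inv_cancel₀ hz, one_pow]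
  have hzm : z ^ m * z⁻¹ ^ m = 1 := by
    rw [← mul_pow, mul_inv_cancel₀ hz, one_pow]
  set a := (cx h.reverse).eval z⁻¹
  set b := (cx h.reverse).eval z
  -- h0 : z ^ m * (a * z ^ d) + ε * b = 0
  have h3 : z⁻¹ ^ m * (b * z⁻¹ ^ h.natDegree) + (ε : ℂ) * a =
      (z⁻¹ ^ m * z⁻¹ ^ h.natDegree * ε) * (z ^ m * (a * z ^ h.natDegree) + (ε : ℂ) * b) := by
    calc z⁻¹ ^ m * (b * z⁻¹ ^ h.natDegree) + (ε : ℂ) * a
        = z⁻¹ ^ m * (b * z⁻¹ ^ h.natDegree) * (ε * ε)
          + (ε : ℂ) * a * (z ^ h.natDegree * z⁻¹ ^ h.natDegree) * (z ^ m * z⁻¹ ^ m) := by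
            rw [hee, hzd, hzm]; ring
      _ = _ := by ring
  rw [h3, h0, mul_zero]

private theorem Sal5_natDegree_pos {h : ℤ[X]} {c : ℝ} (H : Pis h c) : 0 < h.natDegree := by
  by_contra hn
  have h0 : h.natDegree = 0 := by omega
  obtain ⟨k, hk, -⟩ := H.dom
  have h1 : h = 1 := H.monic.natDegree_eq_zero.mp h0
  have h2 : (cx h).eval (c : ℂ) = 0 := by
    rw [hk, eval_mul, eval_sub, eval_X, eval_C, sub_self, zero_mul]
  rw [h1] at h2
  simp [cx] at h2

private theorem Sal5_monic {h : ℤ[X]} {c : ℝ} (H : Pis h c) {m : ℕ} (hm : 1 ≤ m) (ε : ℤ) :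
    (sal h m ε).Monic := by
  have h1 : (X ^ m * h).Monic := (monic_X_pow m).mul H.monic
  have h2 : (X ^ m * h).natDegree = m + h.natDegree := by
    rw [(monic_X_pow m).natDegree_mul H.monic, natDegree_X_pow]
  have h3 : (C ε * h.reverse).natDegree ≤ h.natDegree :=
    (natDegree_C_mul_le _ _).trans (reverse_natDegree_le h)
  refine h1.add_of_left ?_
  refine degree_lt_degree ?_
  rw [h2]
  omega

private theorem Sal5_zero {h : ℤ[X]} {c : ℝ} (H : Pis h c) {m : ℕ} (hm : 1 ≤ m) {ε : ℤ}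
    (hε : |ε| = 1) : (cx (sal h m ε)).eval 0 ≠ 0 := by
  rw [Sal5_eval_sal, zero_pow (by omega), zero_mul, zero_add]
  have h1 : (cx h.reverse).eval 0 = 1 := by
    rw [cx, ← coeff_zero_eq_eval_zero, coeff_map, coeff_zero_reverse, H.monic.leadingCoeff]
    simp
  rw [h1, mul_one]
  intro h2
  have h3 : ε = 0 := by exact_mod_cast h2
  rw [h3] at hε
  simp at hε

/-- PROOF. As `Pis.salem` (`MP_9599cf_ntL/Sal4.lean`; copy its proof and private lemmas): the bound `t < 2` is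
only used to show that `t` and `t + t⁻¹` are not integers (`Sal4_no_int`, `Sal4_no_int'`). -/
theorem Pis.salem' {h : ℤ[X]} {c : ℝ} (H : Pis h c) {m : ℕ} (hm : 1 ≤ m) {ε : ℤ} (hε : |ε| = 1)
    {t : ℝ} (ht : 1 < t) (ht2 : ∀ a : ℤ, t ≠ a) (ht3 : ∀ a : ℤ, t + t⁻¹ ≠ a)
    (hroot : (cx (sal h m ε)).eval (t : ℂ) = 0)
    (hcount : ∀ x y : ℂ, ∀ Q : ℂ[X], cx (sal h m ε) = (X - C x) * ((X - C y) * Q) →
      1 < ‖x‖ → 1 < ‖y‖ → False) :
    IsSalem t ∧ Dom (sal h m ε) t ∧ (sal h m ε).Monic := by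
  have hmon := Sal5_monic H hm ε
  have htn : (1 : ℝ) < ‖(t : ℂ)‖ := by
    rw [Complex.norm_real, Real.norm_of_nonneg (by linarith)]; exact ht
  obtain ⟨Q, hQ⟩ := dvd_iff_isRoot.mpr hroot
  have hQz : ∀ z : ℂ, Q.eval z = 0 → ‖z‖ ≤ 1 := by
    intro z hz
    by_contra hn
    obtain ⟨Q', hQ'⟩ := dvd_iff_isRoot.mpr hz
    exact hcount t z Q' (by rw [hQ, hQ']) htn (not_le.mp hn)
  have hdisc : ∀ z : ℂ, (cx (sal h m ε)).eval z = 0 → z ≠ (t : ℂ) → ‖z‖ ≤ 1 := by
    intro z hz hzt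
    rw [hQ, eval_mul, eval_sub, eval_X, eval_C] at hz
    rcases mul_eq_zero.mp hz with h1 | h1
    · exact absurd (sub_eq_zero.mp h1) hzt
    · exact hQz z h1
  have haevC : aeval (t : ℂ) (sal h m ε) = 0 := by
    rw [aeval_def, ← hroot, Sal5_eval_cx]
    rfl
  have haev : aeval t (sal h m ε) = 0 := by
    have h1 : ((aeval t (sal h m ε) : ℝ) : ℂ) = aeval (t : ℂ) (sal h m ε) := by
      have := aeval_algebraMap_apply ℂ t (sal h m ε)
      simpa using this.symm
    rw [haevC] at h1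
    exact_mod_cast h1
  have hint : IsIntegral ℤ t := ⟨sal h m ε, hmon, by rw [← aeval_def]; exact haev⟩
  have hdvd : minpoly ℤ t ∣ sal h m ε := minpoly.isIntegrallyClosed_dvd hint haev
  have hmq : minpoly ℚ t = (minpoly ℤ t).map (algebraMap ℤ ℚ) :=
    minpoly.isIntegrallyClosed_eq_field_fractions' ℚ hint
  have haq : ∀ z : ℂ, aeval z (minpoly ℚ t) = (cx (minpoly ℤ t)).eval z := by
    intro z
    rw [hmq, aeval_map_algebraMap, Sal5_eval_cx, aeval_def]
    rfl
  have hP : ∀ z : ℂ, aeval z (minpoly ℚ t) = 0 → (cx (sal h m ε)).eval z = 0 := by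
    intro z hz
    rw [haq] at hz
    obtain ⟨R, hR⟩ := hdvd
    rw [hR, cx, Polynomial.map_mul, eval_mul]
    rw [cx] at hz
    rw [hz, zero_mul]
  refine ⟨⟨hint, ht, fun z hz hzt => hdisc z (hP z hz) hzt, ?_⟩, ⟨Q, hQ, hQz⟩, hmon⟩
  by_contra hno
  push Not at hno
  have hset : ∀ z : ℂ, aeval z (minpoly ℚ t) = 0 → z = (t : ℂ) ∨ z = (t : ℂ)⁻¹ := by
    intro z hz
    by_cases hzt : z = (t : ℂ)
    · exact Or.inl hzt
    right
    have hz1 : ‖z‖ ≤ 1 := hdisc z (hP z hz) hzt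
    have hz2 : ‖z‖ < 1 := lt_of_le_of_ne hz1 (hno z hz)
    have hz0 : z ≠ 0 := by
      intro h0
      rw [h0] at hz
      exact Sal5_zero H hm hε (hP 0 hz)
    have hinv : (cx (sal h m ε)).eval z⁻¹ = 0 := Sal5_inv hε hz0 (hP z hz)
    by_contra hne
    have hne' : z⁻¹ ≠ (t : ℂ) := by
      intro h5
      apply hne
      rw [← h5, inv_inv]
    have h6 := hdisc _ hinv hne'
    rw [norm_inv] at h6
    have h7 : 0 < ‖z‖ := norm_pos_iff.mpr hz0
    have h8 : 1 < ‖z‖⁻¹ := (one_lt_inv₀ h7).mpr hz2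
    linarith
  -- the roots of the minimal polynomial
  set M : ℂ[X] := cx (minpoly ℤ t) with hM
  have hMmon : M.Monic := by
    rw [hM, cx]
    exact (minpoly.monic hint).map _
  have hM0 : M ≠ 0 := hMmon.ne_zero
  have hMq : M = (minpoly ℚ t).map (algebraMap ℚ ℂ) := by
    rw [hM, cx, hmq, Polynomial.map_map]
    congr 1
  have hsep : M.Separable := by
    rw [hMq]
    exact (minpoly.irreducible hint.tower_top).separable.map
  have hnd : M.roots.Nodup := nodup_roots hsep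
  have hroots : ∀ z ∈ M.roots, z = (t : ℂ) ∨ z = (t : ℂ)⁻¹ := by
    intro z hz
    apply hset
    rw [haq]
    exact (mem_roots hM0).mp hz
  have htM : (t : ℂ) ∈ M.roots := by
    rw [mem_roots hM0]
    change M.eval _ = 0
    rw [hM, ← haq]
    have h1 : ((aeval t (minpoly ℚ t) : ℝ) : ℂ) = aeval (t : ℂ) (minpoly ℚ t) := by
      have := aeval_algebraMap_apply ℂ t (minpoly ℚ t)
      simpa using this.symm
    rw [← h1, minpoly.aeval]
    simp
  have hsum : M.nextCoeff = - M.roots.sum :=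
    (IsAlgClosed.splits M).nextCoeff_eq_neg_sum_roots_of_monic hMmon
  have hnc : ∃ n : ℤ, (n : ℂ) = M.roots.sum := by
    refine ⟨- (minpoly ℤ t).nextCoeff, ?_⟩
    have h1 : M.nextCoeff = ((minpoly ℤ t).nextCoeff : ℂ) := by
      rw [hM, cx]
      have := nextCoeff_map (f := Int.castRingHom ℂ) (RingHom.injective_int _) (minpoly ℤ t)
      rw [this]
      rfl
    rw [Int.cast_neg, ← h1, hsum, neg_neg]
  obtain ⟨n, hn⟩ := hnc
  have htt : (t : ℂ) ≠ (t : ℂ)⁻¹ := by
    intro h1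
    have h2 : t = t⁻¹ := by exact_mod_cast h1
    have h3 : t⁻¹ < 1 := inv_lt_one_of_one_lt₀ ht
    linarith
  by_cases hti : (t : ℂ)⁻¹ ∈ M.roots
  · have hs : M.roots = {(t : ℂ), (t : ℂ)⁻¹} := by
      rw [Multiset.Nodup.ext hnd (by simp [htt])]
      intro a
      constructor
      · intro ha
        rcases hroots a ha with h1 | h1 <;> simp [h1]
      · intro ha
        simp only [Multiset.insert_eq_cons, Multiset.mem_cons, Multiset.mem_singleton] at ha
        rcases ha with h1 | h1 <;> rw [h1] <;> assumption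
    rw [hs] at hn
    simp only [Multiset.insert_eq_cons, Multiset.sum_cons, Multiset.sum_singleton] at hn
    exact ht3 n (by exact_mod_cast hn.symm)
  · have hs : M.roots = {(t : ℂ)} := by
      rw [Multiset.Nodup.ext hnd (by simp)]
      intro a
      constructor
      · intro ha
        rcases hroots a ha with h1 | h1
        · simp [h1]
        · exact absurd (h1 ▸ ha) hti
      · intro ha
        rw [Multiset.mem_singleton] at ha
        rw [ha]; exact htM
    rw [hs, Multiset.sum_singleton] at hn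
    exact ht2 n (by exact_mod_cast hn.symm)

end SalemLen
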