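import Pool.Agent.Lib.MP_9599cf_ntL.Sal4
import Pool.Agent.Lib.MP_9599cf_ntA.Sal5

/-! # Reciprocal polynomials with one zero outside the unit disc -/

set_option autoImplicit false

namespace SalemLen

open Polynomial

private theorem QRecip_eval_cx (P : ℤ[X]) (z : ℂ) :
    (cx P).eval z = eval₂ (Int.castRingHom ℂ) z P := by
  rw [cx, eval_map]

private theorem QRecip_zero {P : ℤ[X]} (h0 : P.coeff 0 ≠ 0) : (cx P).eval 0 ≠ 0 := by
  rw [cx, ← coeff_zero_eq_eval_zero, coeff_map]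
  intro h
  apply h0
  have h1 : ((P.coeff 0 : ℤ) : ℂ) = 0 := h
  exact_mod_cast h1

/-- PROOF. As `Pis.salem'` (`Sal5.lean`; copy its proof): only these properties of `sal h m ε` are used there. -/
theorem salem_of_recip {P : ℤ[X]} (hP : P.Monic) (h0 : P.coeff 0 ≠ 0)
    (hinv : ∀ z : ℂ, z ≠ 0 → (cx P).eval z = 0 → (cx P).eval z⁻¹ = 0)
    {t : ℝ} (ht : 1 < t) (ht2 : ∀ a : ℤ, t ≠ a) (ht3 : ∀ a : ℤ, t + t⁻¹ ≠ a)
    (hroot : (cx P).eval (t : ℂ) = 0)
    (hcount : ∀ x y : ℂ, ∀ Q : ℂ[X], cx P = (X - C x) * ((X - C y) * Q) →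
      1 < ‖x‖ → 1 < ‖y‖ → False) : IsSalem t ∧ Dom P t := by
  have htn : (1 : ℝ) < ‖(t : ℂ)‖ := by
    rw [Complex.norm_real, Real.norm_of_nonneg (by linarith)]; exact ht
  obtain ⟨Q, hQ⟩ := dvd_iff_isRoot.mpr hroot
  have hQz : ∀ z : ℂ, Q.eval z = 0 → ‖z‖ ≤ 1 := by
    intro z hz
    by_contra hn
    obtain ⟨Q', hQ'⟩ := dvd_iff_isRoot.mpr hz
    exact hcount t z Q' (by rw [hQ, hQ']) htn (not_le.mp hn)
  have hdisc : ∀ z : ℂ, (cx P).eval z = 0 → z ≠ (t : ℂ) → ‖z‖ ≤ 1 := by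
    intro z hz hzt
    rw [hQ, eval_mul, eval_sub, eval_X, eval_C] at hz
    rcases mul_eq_zero.mp hz with h1 | h1
    · exact absurd (sub_eq_zero.mp h1) hzt
    · exact hQz z h1
  have haevC : aeval (t : ℂ) P = 0 := by
    rw [aeval_def, ← hroot, QRecip_eval_cx]
    rfl
  have haev : aeval t P = 0 := by
    have h1 : ((aeval t P : ℝ) : ℂ) = aeval (t : ℂ) P := by
      have := aeval_algebraMap_apply ℂ t (P)
      simpa using this.symm
    rw [haevC] at h1
    exact_mod_cast h1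
  have hint : IsIntegral ℤ t := ⟨P, hP, by rw [← aeval_def]; exact haev⟩
  have hdvd : minpoly ℤ t ∣ P := minpoly.isIntegrallyClosed_dvd hint haev
  have hmq : minpoly ℚ t = (minpoly ℤ t).map (algebraMap ℤ ℚ) :=
    minpoly.isIntegrallyClosed_eq_field_fractions' ℚ hint
  have haq : ∀ z : ℂ, aeval z (minpoly ℚ t) = (cx (minpoly ℤ t)).eval z := by
    intro z
    rw [hmq, aeval_map_algebraMap, QRecip_eval_cx, aeval_def]
    rfl
  have hPz : ∀ z : ℂ, aeval z (minpoly ℚ t) = 0 → (cx P).eval z = 0 := by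
    intro z hz
    rw [haq] at hz
    obtain ⟨R, hR⟩ := hdvd
    rw [hR, cx, Polynomial.map_mul, eval_mul]
    rw [cx] at hz
    rw [hz, zero_mul]
  refine ⟨⟨hint, ht, fun z hz hzt => hdisc z (hPz z hz) hzt, ?_⟩, ⟨Q, hQ, hQz⟩⟩
  by_contra hno
  push Not at hno
  have hset : ∀ z : ℂ, aeval z (minpoly ℚ t) = 0 → z = (t : ℂ) ∨ z = (t : ℂ)⁻¹ := by
    intro z hz
    by_cases hzt : z = (t : ℂ)
    · exact Or.inl hzt
    right
    have hz1 : ‖z‖ ≤ 1 := hdisc z (hPz z hz) hzt
    have hz2 : ‖z‖ < 1 := lt_of_le_of_ne hz1 (hno z hz)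
    have hz0 : z ≠ 0 := by
      intro h00
      rw [h00] at hz
      exact QRecip_zero h0 (hPz 0 hz)
    have hinv1 : (cx P).eval z⁻¹ = 0 := hinv z hz0 (hPz z hz)
    by_contra hne
    have hne' : z⁻¹ ≠ (t : ℂ) := by
      intro h5
      apply hne
      rw [← h5, inv_inv]
    have h6 := hdisc _ hinv1 hne'
    rw [norm_inv] at h6
    have h7 : 0 < ‖z‖ := norm_pos_iff.mpr hz0
    have h8 : 1 < ‖z‖⁻¹ := (one_lt_inv₀ h7).mpr hz2
    linarith
  -- the roots of the minimal polynomial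
  set M : ℂ[X] := cx (minpoly ℤ t) with hM
  have hMmon : M.Monic := by
    rw [hM, cx]
    exact (minpoly.monic hint).map _
  have hM0 : M ≠ 0 := hMmon.ne_zero
  have hMq : M = (minpoly ℚ t).map (algebraMap ℚ ℂ) := by
    rw [hM, cx, hmq, Polynomial.map_map]
    congr 1
  have hsep : M.Separable := by
    rw [hMq]
    exact (minpoly.irreducible hint.tower_top).separable.map
  have hnd : M.roots.Nodup := nodup_roots hsep
  have hroots : ∀ z ∈ M.roots, z = (t : ℂ) ∨ z = (t : ℂ)⁻¹ := by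
    intro z hz
    apply hset
    rw [haq]
    exact (mem_roots hM0).mp hz
  have htM : (t : ℂ) ∈ M.roots := by
    rw [mem_roots hM0]
    change M.eval _ = 0
    rw [hM, ← haq]
    have h1 : ((aeval t (minpoly ℚ t) : ℝ) : ℂ) = aeval (t : ℂ) (minpoly ℚ t) := by
      have := aeval_algebraMap_apply ℂ t (minpoly ℚ t)
      simpa using this.symm
    rw [← h1, minpoly.aeval]
    simp
  have hsum : M.nextCoeff = - M.roots.sum :=
    (IsAlgClosed.splits M).nextCoeff_eq_neg_sum_roots_of_monic hMmon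
  have hnc : ∃ n : ℤ, (n : ℂ) = M.roots.sum := by
    refine ⟨- (minpoly ℤ t).nextCoeff, ?_⟩
    have h1 : M.nextCoeff = ((minpoly ℤ t).nextCoeff : ℂ) := by
      rw [hM, cx]
      have := nextCoeff_map (f := Int.castRingHom ℂ) (RingHom.injective_int _) (minpoly ℤ t)
      rw [this]
      rfl
    rw [Int.cast_neg, ← h1, hsum, neg_neg]
  obtain ⟨n, hn⟩ := hnc
  have htt : (t : ℂ) ≠ (t : ℂ)⁻¹ := by
    intro h1
    have h2 : t = t⁻¹ := by exact_mod_cast h1
    have h3 : t⁻¹ < 1 := inv_lt_one_of_one_lt₀ ht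
    linarith
  by_cases hti : (t : ℂ)⁻¹ ∈ M.roots
  · have hs : M.roots = {(t : ℂ), (t : ℂ)⁻¹} := by
      rw [Multiset.Nodup.ext hnd (by simp [htt])]
      intro a
      constructor
      · intro ha
        rcases hroots a ha with h1 | h1 <;> simp [h1]
      · intro ha
        simp only [Multiset.insert_eq_cons, Multiset.mem_cons, Multiset.mem_singleton] at ha
        rcases ha with h1 | h1 <;> rw [h1] <;> assumption
    rw [hs] at hn
    simp only [Multiset.insert_eq_cons, Multiset.sum_cons, Multiset.sum_singleton] at hn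
    exact ht3 n (by exact_mod_cast hn.symm)
  · have hs : M.roots = {(t : ℂ)} := by
      rw [Multiset.Nodup.ext hnd (by simp)]
      intro a
      constructor
      · intro ha
        rcases hroots a ha with h1 | h1
        · simp [h1]
        · exact absurd (h1 ▸ ha) hti
      · intro ha
        rw [Multiset.mem_singleton] at ha
        rw [ha]; exact htM
    rw [hs, Multiset.sum_singleton] at hn
    exact ht2 n (by exact_mod_cast hn.symm)

end SalemLen
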