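import Pool.Agent.Lib.MP_9599cf_ntA.QDef

/-! # The real zero of `qd a n` near the reciprocal quadratic unit -/

set_option autoImplicit false

namespace SalemLen

open Polynomial

/-- PROOF. Let `β + β⁻¹ = a`, so `β ^ 2 - a β + 1 = 0` and `qd β = β ^ (n + 1) > 0`. Let
`s = max (β - δ) ((1 + β) / 2)`, so `1 < s < β` and `κ = - (s ^ 2 - a s + 1) > 0` (the zeros of `X ^ 2 - a X + 1`
are `β` and `β⁻¹ < 1 < s`). `qd s = - κ (s ^ (2 n) + 1) + s ^ (n + 1) < 0` for large `n`, as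
`s ^ (2 n) / s ^ (n + 1) → ∞`. Intermediate value theorem on `[s, β]` for the real polynomial. -/
theorem qd_root {a : ℕ} {β : ℝ} (hβ : 1 < β) (h : β + β⁻¹ = a) {δ : ℝ} (hδ : 0 < δ) :
    ∀ᶠ n : ℕ in Filter.atTop, ∃ t : ℝ, 1 < t ∧ β - δ < t ∧ t < β ∧
      (cx (qd a n)).eval (t : ℂ) = 0 := by
  have hβ0 : (0 : ℝ) < β := by linarith
  have hinv : β⁻¹ < 1 := inv_lt_one_of_one_lt₀ hβ
  have hfac : ∀ x : ℝ, x ^ 2 - a * x + 1 = (x - β) * (x - β⁻¹) := by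
    intro x
    have h1 : β * β⁻¹ = 1 := mul_inv_cancel₀ hβ0.ne'
    rw [← h]
    linear_combination -h1
  obtain ⟨s, hs1, hsδ, hsβ⟩ : ∃ s : ℝ, 1 < s ∧ β - δ ≤ s ∧ s < β := by
    refine ⟨max (β - δ) ((1 + β) / 2), ?_, le_max_left _ _, ?_⟩
    · exact lt_max_of_lt_right (by linarith)
    · exact max_lt (by linarith) (by linarith)
  have hg : s ^ 2 - a * s + 1 < 0 := by
    rw [hfac]
    exact mul_neg_of_neg_of_pos (by linarith) (by linarith)
  have hlim := tendsto_pow_atTop_atTop_of_one_lt hs1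
  filter_upwards [hlim.eventually_gt_atTop (s / (-(s ^ 2 - a * s + 1)))] with n hn
  have hκ : 0 < -(s ^ 2 - a * s + 1) := by linarith
  have hsn : 0 < s ^ n := by positivity
  rw [div_lt_iff₀ hκ] at hn
  have hfs : s ^ (2 * n) * (s ^ 2 - a * s + 1) + s ^ (n + 1) + (s ^ 2 - a * s + 1) < 0 := by
    have h1 : s ^ (2 * n) = s ^ n * s ^ n := by rw [two_mul, pow_add]
    have h2 : s ^ (n + 1) = s ^ n * s := pow_succ s n
    rw [h1, h2]
    have h3 : s ^ n * s < s ^ n * (s ^ n * (-(s ^ 2 - a * s + 1))) :=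
      mul_lt_mul_of_pos_left hn hsn
    nlinarith
  have hfβ : 0 < β ^ (2 * n) * (β ^ 2 - a * β + 1) + β ^ (n + 1) + (β ^ 2 - a * β + 1) := by
    rw [hfac β, sub_self, zero_mul, mul_zero, zero_add, add_zero]
    positivity
  have hcont : ContinuousOn (fun x : ℝ => x ^ (2 * n) * (x ^ 2 - a * x + 1) + x ^ (n + 1) +
      (x ^ 2 - a * x + 1)) (Set.Icc s β) := by
    fun_prop
  obtain ⟨t, ht, ht0⟩ := intermediate_value_Ioo hsβ.le hcont (Set.mem_Ioo.2 ⟨hfs, hfβ⟩)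
  refine ⟨t, by linarith [ht.1], by linarith [ht.1], ht.2, ?_⟩
  rw [qd_eval]
  have h4 : ((t ^ (2 * n) * (t ^ 2 - a * t + 1) + t ^ (n + 1) + (t ^ 2 - a * t + 1) : ℝ) : ℂ) =
      ((0 : ℝ) : ℂ) := congrArg _ ht0
  push_cast at h4
  exact h4

end SalemLen
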