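import Pool.Agent.Lib.MP_9599cf_ntA.Back
import Pool.Agent.Lib.MP_9599cf_ntA.QCount
import Pool.Agent.Lib.MP_9599cf_ntA.QRoot
import Pool.Agent.Lib.MP_9599cf_ntA.QRecip
import Pool.Agent.Lib.MP_9599cf_ntA.QLeft

/-! # Reciprocal quadratic units as accumulation points -/

set_option autoImplicit false

namespace SalemLen

open Polynomial Filter Topology

/-- Salem numbers near reciprocal quadratic units. -/
theorem exists_quad {a : ℕ} {β : ℝ} (hβ : 1 < β) (h : β + β⁻¹ = a) {δ : ℝ} (hδ : 0 < δ) :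
    ∃ t : ℝ, IsSalem t ∧ β - δ < t ∧ t < β ∧ ∃ P : ℤ[X], P.Monic ∧ len P ≤ 2 * a + 5 ∧
      P.support.card ≤ 7 ∧ Dom P t := by
  have ha : 3 ≤ a := by
    have h1 : 0 < β := by linarith
    have h2 : 2 < β + β⁻¹ := by
      have h3 : 0 < (β - 1) ^ 2 / β := div_pos (pow_pos (by linarith) 2) h1
      have h4 : (β - 1) ^ 2 / β = β + β⁻¹ - 2 := by
        field_simp
        ring
      linarith
    rw [h] at h2
    have h3 : (2 : ℕ) < a := by exact_mod_cast h2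
    omega
  obtain ⟨δ', hδ', hleft⟩ := exists_left' hβ h
  obtain ⟨n, ⟨t, ht1, htδ, htβ, hroot⟩, hn⟩ :=
    ((qd_root hβ h (lt_min hδ hδ')).and (Filter.eventually_ge_atTop 1)).exists
  obtain ⟨l1, l2⟩ := hleft t (by linarith [min_le_right δ δ']) htβ
  have h0 : (qd a n).coeff 0 ≠ 0 := by
    rw [qd_coeff_zero a hn]
    exact one_ne_zero
  obtain ⟨hs, hd⟩ := salem_of_recip (qd_monic a hn).1 h0 (fun z hz hz0 => qd_inv a n hz hz0) ht1 l1 l2
    hroot (fun x y Q hQ hx hy => qd_count ha hn x y Q hQ hx hy)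
  exact ⟨t, hs, by linarith [min_le_left δ δ'], htβ, qd a n, (qd_monic a hn).1, qd_len a n,
    qd_card a n, hd⟩

theorem accPt_of_mem_SS' {B : ℕ∞} {k : ℕ} {β : ℝ} (h : β ∈ SS B k)
    (hβ : ∀ a : ℕ, β + β⁻¹ = a → 7 ≤ k ∧ ((2 * a + 5 : ℕ) : ℕ∞) ≤ B) :
    AccPt β (𝓟 (TT B k)) := by
  have hc : 1 < β := h.1.2.1
  by_cases hint : ∃ a : ℕ, β + β⁻¹ = a
  · obtain ⟨a, ha⟩ := hint
    obtain ⟨hk, hB⟩ := hβ a ha
    rw [accPt_iff_frequently, Metric.nhds_basis_ball.frequently_iff]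
    intro δ hδ
    obtain ⟨t, hs, h1, h2, P, p1, p2, p3, p4⟩ := exists_quad hc ha hδ
    refine ⟨t, ?_, h2.ne, hs, P, p1, (Nat.cast_le.2 p2).trans hB, p3.trans hk, p4⟩
    rw [Metric.mem_ball, Real.dist_eq, abs_lt]
    constructor <;> linarith
  · refine accPt_of_mem_SS h fun a ha => hint ⟨a.toNat, ?_⟩
    have hpos : 0 < β + β⁻¹ := by positivity
    rw [ha] at hpos ⊢
    have h1 : (0 : ℤ) ≤ a := by exact_mod_cast hpos.le
    have h2 : ((a.toNat : ℤ) : ℝ) = a := by rw [Int.toNat_of_nonneg h1]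
    exact_mod_cast h2.symm

end SalemLen
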