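import Pool.Agent.Lib.MP_9599cf_ntA.Fwd
import Pool.Agent.Lib.MP_9599cf_ntA.Back2

/-! # The derived set -/

set_option autoImplicit false

namespace SalemLen

open Filter Topology

/-- The accumulation points of `TT B k`. -/
theorem accPt_TT (B : ℕ∞) (k : ℕ) (β : ℝ) :
    (AccPt β (𝓟 (TT B k)) → β ∈ SS B k) ∧
      (β ∈ SS B k → (∀ a : ℕ, β + β⁻¹ = a → 7 ≤ k ∧ ((2 * a + 5 : ℕ) : ℕ∞) ≤ B) →
        AccPt β (𝓟 (TT B k))) :=
  ⟨mem_SS_of_accPt, accPt_of_mem_SS'⟩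

end SalemLen
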