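import Pool.Agent.Lib.MP_9599cf_ntA.PDef
import Pool.Agent.Lib.MP_9599cf_ntL.MinPoly

/-! # Minimal polynomials -/

set_option autoImplicit false

namespace SalemLen

open Polynomial

private theorem alg_cx {t : ℝ} (h : IsIntegral ℤ t) (z : ℂ) :
    (cx (minpoly ℤ t)).eval z = Polynomial.aeval z (minpoly ℚ t) := by
  have h1 : minpoly ℚ t = (minpoly ℤ t).map (algebraMap ℤ ℚ) :=
    minpoly.isIntegrallyClosed_eq_field_fractions' ℚ h
  rw [h1, aeval_def, eval₂_map, cx, eval_map]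
  congr 1

private theorem alg_aeval (P : ℤ[X]) (z : ℂ) : (cx P).eval z = Polynomial.aeval z P := by
  rw [cx, eval_map, aeval_def]
  congr 1

/-- PROOF. `minpoly ℚ β = (minpoly ℤ β).map _` (`minpoly.isIntegrallyClosed_eq_field_fractions'`) is irreducible and
monic and vanishes at `z`, so it is `minpoly ℚ z` (`minpoly.eq_of_irreducible_of_monic`), and `z` is integral, so
`minpoly ℤ z = minpoly ℤ β`; `minpoly.isIntegrallyClosed_dvd` for `z` (or `minpoly.dvd` over `ℚ` and division of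
monic polynomials). -/
theorem dvd_of_root {β : ℝ} (hβ : IsIntegral ℤ β) {z : ℂ} (hz : (cx (minpoly ℤ β)).eval z = 0)
    {P : ℤ[X]} (hP : (cx P).eval z = 0) : minpoly ℤ β ∣ P := by
  have hz1 : Polynomial.aeval z (minpoly ℤ β) = 0 := by rw [← alg_aeval]; exact hz
  have hzi : IsIntegral ℤ z := ⟨minpoly ℤ β, minpoly.monic hβ, by
    rw [← aeval_def]
    exact hz1⟩
  have hq : minpoly ℚ β = minpoly ℚ z :=
    minpoly.eq_of_irreducible_of_monic (minpoly.irreducible hβ.tower_top)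
      (by rw [← alg_cx hβ]; exact hz) (minpoly.monic hβ.tower_top)
  have h1 : minpoly ℚ β = (minpoly ℤ β).map (algebraMap ℤ ℚ) :=
    minpoly.isIntegrallyClosed_eq_field_fractions' ℚ hβ
  have h2 : minpoly ℚ z = (minpoly ℤ z).map (algebraMap ℤ ℚ) :=
    minpoly.isIntegrallyClosed_eq_field_fractions' ℚ hzi
  have h3 : minpoly ℤ β = minpoly ℤ z := by
    refine Polynomial.map_injective (algebraMap ℤ ℚ) (RingHom.injective_int _) ?_
    rw [← h1, ← h2]
    exact hq
  rw [h3]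
  exact minpoly.isIntegrallyClosed_dvd hzi (by rw [← alg_aeval]; exact hP)

/-- PROOF. `cx P = (X - C t) * Q`; evaluate at `β`: `β = t` or `Q.eval β = 0`, then `‖β‖ ≤ 1`. -/
theorem Dom.eq_of_root {P : ℤ[X]} {t β : ℝ} (h : Dom P t) (hβ : 1 < β)
    (hroot : (cx P).eval (β : ℂ) = 0) : β = t := by
  obtain ⟨Q, hQ, hQ2⟩ := h
  rw [hQ, eval_mul, mul_eq_zero] at hroot
  rcases hroot with h1 | h1
  · rw [eval_sub, eval_X, eval_C, sub_eq_zero] at h1
    exact_mod_cast h1
  · have h2 := hQ2 _ h1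
    rw [Complex.norm_real, Real.norm_eq_abs, abs_of_pos (by linarith)] at h2
    linarith

/-- PROOF. `g` is monic and `g (β) = 0` (from `Dom`), so `β` is integral, `minpoly ℤ β ∣ g`, and
`minpoly ℚ β = (minpoly ℤ β).map _` has the same complex roots as `minpoly ℤ β`; a root `z ≠ β` is a zero of the
cofactor of `Dom`, so `‖z‖ ≤ 1`. If some root `z` has `‖z‖ = 1`, then `β` is a Salem number by definition.
Otherwise the roots `z ≠ β` have `‖z‖ < 1`. -/
theorem pisot_or_salem {g : ℤ[X]} (hg : g.Monic) {β : ℝ} (hβ : 1 < β) (hd : Dom g β) :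
    IsPisot β ∨ IsSalem β := by
  obtain ⟨Q, hQ, hQ2⟩ := hd
  have hroot : (cx g).eval (β : ℂ) = 0 := by
    rw [hQ, eval_mul, eval_sub, eval_X, eval_C, sub_self, zero_mul]
  have hβg : Polynomial.aeval β g = 0 := by
    have h1 : ((Polynomial.aeval β g : ℝ) : ℂ) = 0 := by
      rw [← hroot, alg_aeval]
      have h2 := Polynomial.aeval_algebraMap_apply (R := ℤ) (A := ℝ) ℂ β g
      exact h2.symm
    exact_mod_cast h1
  have hint : IsIntegral ℤ β := ⟨g, hg, by rw [← aeval_def]; exact hβg⟩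
  have hdvd : minpoly ℤ β ∣ g := minpoly.isIntegrallyClosed_dvd hint hβg
  have hall : ∀ z : ℂ, Polynomial.aeval z (minpoly ℚ β) = 0 → z ≠ (β : ℂ) → ‖z‖ ≤ 1 := by
    intro z hz hne
    rw [← alg_cx hint, alg_aeval] at hz
    have h1 : (cx g).eval z = 0 := by
      rw [alg_aeval]
      obtain ⟨q, rfl⟩ := hdvd
      rw [map_mul, hz, zero_mul]
    rw [hQ, eval_mul, mul_eq_zero] at h1
    rcases h1 with h1 | h1
    · rw [eval_sub, eval_X, eval_C, sub_eq_zero] at h1
      exact absurd h1 hne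
    · exact hQ2 z h1
  by_cases hS : ∃ z : ℂ, Polynomial.aeval z (minpoly ℚ β) = 0 ∧ ‖z‖ = 1
  · exact Or.inr ⟨hint, hβ, hall, hS⟩
  · refine Or.inl ⟨hint, hβ, fun z hz hne => ?_⟩
    exact lt_of_le_of_ne (hall z hz hne) fun h1 => hS ⟨z, hz, h1⟩

/-- PROOF. A root `z` with `‖z‖ = 1` is not `β` (`1 < β`), so `‖z‖ < 1`, a contradiction. -/
theorem IsPisot.not_salem {β : ℝ} (h : IsPisot β) : ¬ IsSalem β := by
  rintro ⟨-, h1, -, z, hz, hz1⟩
  have hne : z ≠ (β : ℂ) := by
    rintro rfl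
    rw [Complex.norm_real, Real.norm_eq_abs, abs_of_pos (by linarith)] at hz1
    linarith
  have h2 := h.2.2 z hz hne
  linarith

end SalemLen
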