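import Mathlib

/-! # Left neighbours -/

set_option autoImplicit false

namespace SalemLen

/-- PROOF. For the left neighbours `t < β` of `β` with `β - t` small: `t` is not an integer (`⌈β⌉ - 1 < β`, take
`δ ≤ β - (⌈β⌉ - 1)`), and `t + t⁻¹` is not an integer, since `x + x⁻¹` is continuous at `β` and `β + β⁻¹` has a
positive distance from the integers. -/
theorem exists_left {β : ℝ} (hβ : 1 < β) (h : ∀ a : ℤ, β + β⁻¹ ≠ a) :
    ∃ δ : ℝ, 0 < δ ∧ ∀ t : ℝ, β - δ < t → t < β → (∀ a : ℤ, t ≠ a) ∧ ∀ a : ℤ, t + t⁻¹ ≠ a := by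
  have hc : ContinuousAt (fun x : ℝ => x + x⁻¹) β :=
    continuousAt_id.add (continuousAt_inv₀ (by linarith))
  have hopen : IsOpen (Set.range ((↑) : ℤ → ℝ))ᶜ := Int.isClosedEmbedding_coe_real.isClosed_range.isOpen_compl
  have hmem : β + β⁻¹ ∈ (Set.range ((↑) : ℤ → ℝ))ᶜ := by
    rintro ⟨a, ha⟩
    exact h a ha.symm
  have hev : ∀ᶠ x in nhds β, x + x⁻¹ ∈ (Set.range ((↑) : ℤ → ℝ))ᶜ :=
    hc.eventually_mem (hopen.mem_nhds hmem)
  obtain ⟨δ1, hδ1, h1⟩ := Metric.eventually_nhds_iff.1 hev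
  have hceil : ((⌈β⌉ : ℤ) : ℝ) - 1 < β := by linarith [Int.ceil_lt_add_one β]
  refine ⟨min δ1 (β - ((⌈β⌉ : ℤ) - 1)), lt_min hδ1 (by linarith), fun t ht1 ht2 => ⟨?_, ?_⟩⟩
  · intro a ha
    have h2 : ((⌈β⌉ : ℤ) : ℝ) - 1 < t := by
      linarith [min_le_right δ1 (β - ((⌈β⌉ : ℤ) - 1))]
    have h3 : t < ((⌈β⌉ : ℤ) : ℝ) := lt_of_lt_of_le ht2 (Int.le_ceil β)
    rw [ha] at h2 h3
    have h4 : ⌈β⌉ - 1 < a := by exact_mod_cast h2
    have h5 : a < ⌈β⌉ := by exact_mod_cast h3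
    omega
  · intro a ha
    have h2 : dist t β < δ1 := by
      rw [Real.dist_eq, abs_lt]
      constructor
      · linarith [min_le_left δ1 (β - ((⌈β⌉ : ℤ) - 1))]
      · linarith
    exact h1 h2 ⟨a, ha.symm⟩

end SalemLen
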