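import Pool.Agent.Lib.MP_9599cf_ntL.Pisot
import Pool.Agent.Lib.MP_9599cf_ntL.Sal4

/-! # Pisot polynomials and Salem polynomials without the bound two -/

set_option autoImplicit false

namespace SalemLen

open Polynomial

private theorem pisot2_rev {P : ℤ[X]} {z : ℂ} (hz : z ≠ 0) :
    (cx P.reverse).eval z = 0 ↔ (cx P).eval z⁻¹ = 0 := by
  rw [cx, cx, eval_map, eval_map]
  let _i : Invertible (z⁻¹) := invertibleOfNonzero (inv_ne_zero hz)
  have h := Polynomial.eval₂_reverse_eq_zero_iff (Int.castRingHom ℂ) (z⁻¹) P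
  rwa [invOf_eq_inv, inv_inv] at h

private theorem pisot2_real (P : ℤ[X]) (r : ℝ) :
    (cx P).eval (r : ℂ) = ((aeval r P : ℝ) : ℂ) := by
  have h := Polynomial.hom_eval₂ P (algebraMap ℤ ℝ) Complex.ofRealHom r
  rw [cx, eval_map, aeval_def]
  change _ = Complex.ofRealHom _
  rw [h]
  congr 1

private theorem pisot2_int (P : ℤ[X]) (a : ℤ) : (cx P).eval (a : ℂ) = ((P.eval a : ℤ) : ℂ) := by
  rw [cx, eval_map, Polynomial.eval₂_at_intCast]
  rfl

private theorem pisot2_rat {c : ℝ} (hc : IsIntegral ℤ c) (z : ℂ) :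
    aeval z (minpoly ℚ c) = (cx (minpoly ℤ c)).eval z := by
  rw [minpoly.isIntegrallyClosed_eq_field_fractions' ℚ hc, cx, eval_map, aeval_def, eval₂_map]
  congr 1

/-- If all roots of the monic polynomial `k` are equal to `a`, then `k = (X - a) ^ m`. -/
private theorem pisot2_pow {k : ℂ[X]} (hk : k.Monic) {a : ℂ} (h : ∀ z, k.eval z = 0 → z = a) :
    k = (X - C a) ^ k.natDegree := by
  have h1 : k.Splits := IsAlgClosed.splits k
  have h2 : k.roots = Multiset.replicate k.natDegree a := by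
    rw [Multiset.eq_replicate]
    refine ⟨?_, fun b hb => h b ?_⟩
    · exact (splits_iff_card_roots.1 h1)
    · exact (mem_roots'.1 hb).2
  have h3 := h1.eq_prod_roots_of_monic hk
  rw [h2] at h3
  rw [Multiset.map_replicate, Multiset.prod_replicate] at h3
  exact h3

/-- PROOF. As `exists_pisot` (`MP_9599cf_ntL/Pisot.lean`; copy its proof and private lemmas): the bound `c < 2`
is only used at the end, where the irreducible `h` has the two roots `c`, `c⁻¹` and
`h.eval 1 = (1 - c) * (1 - c⁻¹) = 2 - c - c⁻¹` is an integer, which contradicts `hc2`. -/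
theorem exists_pisot' {g : ℤ[X]} (hg : g.Monic) (h0 : g.coeff 0 ≠ 0) {c : ℝ} (hc : 1 < c)
    (hc2 : ∀ a : ℤ, c + c⁻¹ ≠ a) (hd : Dom g c) (hns : ¬ IsSalem c) :
    ∃ h D : ℤ[X], g = h * D ∧ Pis h c ∧ D.Monic ∧ (D.reverse = D ∨ D.reverse = -D) ∧
      ∀ z : ℂ, (cx D).eval z = 0 → ‖z‖ = 1 := by
  obtain ⟨Q, hQ, hQ1⟩ := id hd
  have hc0 : (c : ℂ) ≠ 0 := by
    rw [Ne, Complex.ofReal_eq_zero]
    linarith
  have hroot : aeval c g = 0 := by
    have h1 : (cx g).eval (c : ℂ) = 0 := by rw [hQ]; simp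
    rw [pisot2_real] at h1
    exact_mod_cast h1
  have hint : IsIntegral ℤ c := ⟨g, hg, by rw [← aeval_def]; exact hroot⟩
  obtain ⟨D, hD1, hD2, hD3, hD4⟩ := exists_factor hint hg h0 hd
  set h := minpoly ℤ c with hh
  have hm : h.Monic := minpoly.monic hint
  have hz0 : h.coeff 0 ≠ 0 := by
    intro h1
    rw [hD1, mul_coeff_zero, h1, zero_mul] at h0
    exact h0 rfl
  have hcr : (cx h).eval (c : ℂ) = 0 := by
    rw [pisot2_real, minpoly.aeval, Complex.ofReal_zero]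
  obtain ⟨k, hk⟩ := dvd_iff_isRoot.2 hcr
  have hcx : (cx h).Monic := hm.map _
  have hkm : k.Monic := by
    have h1 : ((X - C (c : ℂ)) * k).Monic := hk ▸ hcx
    exact (monic_X_sub_C (c : ℂ)).of_mul_monic_left h1
  have hQk : Q = k * cx D := by
    have h1 : (X - C (c : ℂ)) * Q = (X - C (c : ℂ)) * (k * cx D) := by
      rw [← hQ, hD1, cx, Polynomial.map_mul, ← mul_assoc, ← hk]
      rfl
    exact mul_left_cancel₀ (X_sub_C_ne_zero _) h1
  have hk1 : ∀ z : ℂ, k.eval z = 0 → ‖z‖ ≤ 1 := by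
    intro z hz
    refine hQ1 z ?_
    rw [hQk, eval_mul, hz, zero_mul]
  have hk2 : ∀ z : ℂ, k.eval z = 0 → ‖z‖ < 1 := by
    intro z hz
    rcases (hk1 z hz).lt_or_eq with h1 | h1
    · exact h1
    · exfalso
      refine hns ⟨hint, hc, fun w hw hwc => ?_, z, ?_, h1⟩
      · rw [pisot2_rat hint, ← hh, hk, eval_mul] at hw
        rcases mul_eq_zero.1 hw with h2 | h2
        · rw [eval_sub, eval_X, eval_C, sub_eq_zero] at h2
          exact absurd h2 hwc
        · exact hk1 w h2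
      · rw [pisot2_rat hint, ← hh, hk, eval_mul, hz, mul_zero]
  refine ⟨h, D, hD1, ⟨hm, hc, ⟨k, hk, hk2⟩, ?_, hz0⟩, hD2, reverse_eq_of_circle hD2 hD4, hD4⟩
  intro hinv
  -- the reverse polynomial vanishes at `c`
  have hr1 : (cx h.reverse).eval (c : ℂ) = 0 := (pisot2_rev hc0).2 hinv
  have hr2 : aeval c h.reverse = 0 := by
    rw [pisot2_real] at hr1
    exact_mod_cast hr1
  obtain ⟨S, hS⟩ := minpoly.isIntegrallyClosed_dvd hint hr2
  rw [← hh] at hS
  have hev0 : (cx h).eval 0 = (h.coeff 0 : ℂ) := by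
    have h1 := pisot2_int h 0
    rw [Int.cast_zero] at h1
    rw [h1, coeff_zero_eq_eval_zero]
  have hk3 : ∀ z : ℂ, k.eval z = 0 → z = (c : ℂ)⁻¹ := by
    intro z hz
    have h1 : (cx h).eval z = 0 := by rw [hk, eval_mul, hz, mul_zero]
    have h2 : z ≠ 0 := by
      rintro rfl
      rw [hev0] at h1
      exact hz0 (by exact_mod_cast h1)
    have h3 : (cx h.reverse).eval z = 0 := by
      rw [hS, cx, Polynomial.map_mul, eval_mul]
      change (cx h).eval z * _ = 0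
      rw [h1, zero_mul]
    have h4 := (pisot2_rev h2).1 h3
    rw [hk, eval_mul] at h4
    rcases mul_eq_zero.1 h4 with h5 | h5
    · rw [eval_sub, eval_X, eval_C, sub_eq_zero] at h5
      rw [← h5, inv_inv]
    · exfalso
      have h6 := hk2 _ h5
      have h7 := hk2 _ hz
      rw [norm_inv] at h6
      have h8 : 0 < ‖z‖ := norm_pos_iff.2 h2
      have h9 := (one_lt_inv₀ h8).2 h7
      linarith
  have hkp := pisot2_pow hkm hk3
  set m := k.natDegree with hmdef
  have hcinv : (0 : ℝ) < c⁻¹ := inv_pos.2 (by linarith)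
  have hcpos : (0 : ℝ) < c := by linarith
  -- the degree of `k` is one
  have hm0 : m ≠ 0 := by
    intro h1
    rw [h1, pow_zero] at hkp
    have h2 : (cx h).eval (c : ℂ)⁻¹ = 0 := hinv
    rw [hk, hkp, mul_one, eval_sub, eval_X, eval_C, sub_eq_zero] at h2
    have h3 : c⁻¹ = c := by exact_mod_cast h2
    have h4 : c⁻¹ < 1 := inv_lt_one_of_one_lt₀ hc
    linarith
  have hm1 : m ≤ 1 := by
    by_contra hcon
    have h1 : (h.coeff 0 : ℂ) = (-(c : ℂ)) * (-(c : ℂ)⁻¹) ^ m := by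
      rw [← hev0, hk, hkp]
      simp
    have h2 : ‖(h.coeff 0 : ℂ)‖ = c * c⁻¹ ^ m := by
      rw [h1, norm_mul, norm_pow, norm_neg, norm_neg, norm_inv, Complex.norm_real,
        Real.norm_of_nonneg hcpos.le]
    have h3 : (1 : ℝ) ≤ ‖(h.coeff 0 : ℂ)‖ := by
      rw [Complex.norm_intCast]
      exact_mod_cast Int.one_le_abs hz0
    have h4 : c⁻¹ < 1 := inv_lt_one_of_one_lt₀ hc
    have h5 : c⁻¹ ^ m ≤ c⁻¹ ^ 2 := pow_le_pow_of_le_one hcinv.le h4.le (by omega)
    have h6 : c * c⁻¹ ^ m ≤ c * c⁻¹ ^ 2 := mul_le_mul_of_nonneg_left h5 hcpos.le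
    have h7 : c * c⁻¹ ^ 2 = c⁻¹ := by
      field_simp
    rw [h2] at h3
    linarith
  have hm2 : m = 1 := by omega
  rw [hm2, pow_one] at hkp
  have h1 := pisot2_int h 1
  rw [Int.cast_one, hk, hkp] at h1
  have h2 : (((h.eval 1 : ℤ) : ℝ) : ℂ) = (((1 - c) * (1 - c⁻¹) : ℝ) : ℂ) := by
    push_cast
    rw [← h1]
    simp
  have h3 : ((h.eval 1 : ℤ) : ℝ) = (1 - c) * (1 - c⁻¹) := by exact_mod_cast h2
  refine hc2 (2 - h.eval 1) ?_
  push_cast
  rw [h3]
  have h4 : c * c⁻¹ = 1 := mul_inv_cancel₀ hcpos.ne'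
  linear_combination h4

end SalemLen
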