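import Pool.Agent.Lib.MP_9599cf_ntA.PDef
import Pool.Agent.Lib.MP_9599cf_ntA.Alg
import Pool.Agent.Lib.MP_9599cf_ntA.Pisot2
import Pool.Agent.Lib.MP_9599cf_ntA.Sal5
import Pool.Agent.Lib.MP_9599cf_ntA.Left
import Pool.Agent.Lib.MP_9599cf_ntL.StripC
import Pool.Agent.Lib.MP_9599cf_ntL.Sal2
import Pool.Agent.Lib.MP_9599cf_ntL.Sal3
import Pool.Agent.Lib.MP_9599cf_ntL.LenL
import Pool.Agent.Lib.MP_9599cf_ntL.CardSal

/-! # The elements of `SS B k` are accumulation points -/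

set_option autoImplicit false

namespace SalemLen

open Polynomial Filter Topology

/-- For each `δ > 0` there is an element of `TT B k` between `β - δ` and `β`. -/
theorem exists_near {B : ℕ∞} {k : ℕ} {β : ℝ} (h : β ∈ SS B k) (hβ : ∀ a : ℤ, β + β⁻¹ ≠ a)
    {δ : ℝ} (hδ : 0 < δ) : ∃ s ∈ TT B k, β - δ < s ∧ s < β := by
  obtain ⟨hp, P, hP, hlen, hcard, hd⟩ := h
  have hc : 1 < β := hp.2.1
  obtain ⟨g, g1, g2, g3, g4, g5⟩ := exists_coeff_zero_card hP hc hd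
  have hgl : ((2 * len g : ℕ) : ℕ∞) ≤ B := by rw [g2]; exact hlen
  have hgc : 2 * g.support.card ≤ k := by rw [g3]; exact hcard
  obtain ⟨h, D, hgD, hpis, hDm, hDr, hDc⟩ := exists_pisot' g1 g5 hc hβ g4 hp.not_salem
  obtain ⟨δ', hδ', hleft⟩ := exists_left hc hβ
  obtain ⟨ε, hε, hroot⟩ := hpis.exists_root (δ := min δ δ') (lt_min hδ hδ')
  obtain ⟨m, ⟨s, hs1, hsδ, hsc, hs0⟩, hcount, hm⟩ :=
    (hroot.and (hpis.count.and (Filter.eventually_ge_atTop 1))).exists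
  have hs2 : β - δ < s := by linarith [min_le_left δ δ']
  obtain ⟨l1, l2⟩ := hleft s (by linarith [min_le_right δ δ']) hsc
  obtain ⟨hsal, hdom, hmon⟩ := hpis.salem' hm hε hs1 l1 l2 hs0 (hcount ε hε)
  have hrg : g.reverse = h.reverse * D.reverse := by
    rw [hgD, Polynomial.reverse_mul_of_domain]
  have key : ∃ ε' : ℤ, |ε'| = 1 ∧
      D * sal h m ε = X ^ m * g + C ε' * g.reverse := by
    rcases hDr with hD | hD
    · refine ⟨ε, hε, ?_⟩
      rw [hrg, hD, hgD, sal]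
      ring
    · refine ⟨-ε, by rw [abs_neg]; exact hε, ?_⟩
      rw [hrg, hD, hgD, sal, C_neg]
      ring
  obtain ⟨ε', hε', hkey⟩ := key
  refine ⟨s, ⟨hsal, D * sal h m ε, hDm.mul hmon, ?_, ?_, ?_⟩, hs2, hsc⟩
  · rw [hkey]
    exact (Nat.cast_le.2 (len_sal_le _ _ hε')).trans hgl
  · rw [hkey]
    exact (card_sal_le _ _ _).trans hgc
  · obtain ⟨Q, hQ, hQz⟩ := hdom
    refine ⟨cx D * Q, ?_, fun z hz => ?_⟩
    · have h7 : cx (D * sal h m ε) = cx D * cx (sal h m ε) := Polynomial.map_mul _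
      rw [h7, hQ]
      ring
    · rw [Polynomial.eval_mul] at hz
      rcases mul_eq_zero.1 hz with h7 | h7
      · exact (hDc z h7).le
      · exact hQz z h7

theorem accPt_of_mem_SS {B : ℕ∞} {k : ℕ} {β : ℝ} (h : β ∈ SS B k) (hβ : ∀ a : ℤ, β + β⁻¹ ≠ a) :
    AccPt β (𝓟 (TT B k)) := by
  rw [accPt_iff_frequently, Metric.nhds_basis_ball.frequently_iff]
  intro δ hδ
  obtain ⟨s, hs, h1, h2⟩ := exists_near h hβ hδ
  refine ⟨s, ?_, h2.ne, hs⟩
  rw [Metric.mem_ball, Real.dist_eq, abs_lt]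
  constructor <;> linarith

end SalemLen
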