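import Pool.Agent.Lib.MP_9599cf_ntL.Lim1
import Pool.Agent.Lib.MP_9599cf_ntL.LenL

/-! # Block decomposition of a sequence of polynomials of bounded length -/

set_option autoImplicit false

namespace SalemLen

open Polynomial

private theorem Blocks_one_le_len {P : ℤ[X]} (h0 : P.coeff 0 ≠ 0) : 1 ≤ len P := by
  unfold len
  have h1 : (P.coeff 0).natAbs ≤ ∑ i ∈ P.support, (P.coeff i).natAbs :=
    Finset.single_le_sum (f := fun i => (P.coeff i).natAbs) (fun i _ => Nat.zero_le _)
      (mem_support_iff.2 h0)
  omega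

private theorem Blocks_trail_ne {P : ℤ[X]} (hP : P ≠ 0) : P.coeff P.natTrailingDegree ≠ 0 :=
  trailingCoeff_nonzero_iff_nonzero.2 hP

private theorem Blocks_lt_trail {P : ℤ[X]} (hP : P ≠ 0) {D : ℕ}
    (h : ∀ j ∈ Finset.range (D + 1), P.coeff j = 0) : D < P.natTrailingDegree := by
  by_contra hc
  push Not at hc
  exact Blocks_trail_ne hP (h _ (Finset.mem_range.2 (by omega)))

private theorem Blocks_len_add {G T : ℤ[X]} (h : ∀ i ≤ G.natDegree, T.coeff i = 0) :
    len (G + T) = len G + len T := by
  set n : ℕ := max G.natDegree T.natDegree + 1 with hn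
  have hP : G.natDegree < n := by omega
  have hQ : T.natDegree < n := by omega
  have hPQ : (G + T).natDegree < n := by
    have := natDegree_add_le G T
    omega
  rw [len_eq_range _ hPQ, len_eq_range _ hP, len_eq_range _ hQ, ← Finset.sum_add_distrib]
  refine Finset.sum_congr rfl fun i _ => ?_
  rw [coeff_add]
  by_cases hi : i ≤ G.natDegree
  · rw [h i hi, add_zero, Int.natAbs_zero, add_zero]
  · rw [coeff_eq_zero_of_natDegree_lt (lt_of_not_ge hi), zero_add, Int.natAbs_zero, zero_add]

private theorem Blocks_split {B : ℕ} {G Q : ℤ[X]} (hG0 : G.coeff 0 ≠ 0) (hQ : len Q ≤ B + 1)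
    (hne : Q ≠ G) (hag : ∀ j ∈ Finset.range (G.natDegree + 1), Q.coeff j = G.coeff j) :
    ∃ R : ℤ[X], R.coeff 0 ≠ 0 ∧ len R ≤ B ∧
      Q = G + X ^ (Q - G).natTrailingDegree * R := by
  have hD : Q - G ≠ 0 := sub_ne_zero.2 hne
  obtain ⟨R, hR⟩ : X ^ (Q - G).natTrailingDegree ∣ Q - G := by
    rw [X_pow_dvd_iff]
    intro d hd
    exact coeff_eq_zero_of_lt_natTrailingDegree hd
  have hR0 : R.coeff 0 ≠ 0 := by
    have h1 := Blocks_trail_ne hD
    have h2 : (Q - G).coeff (Q - G).natTrailingDegree = R.coeff 0 := by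
      conv_lhs => rw [hR]
      have h3 := coeff_X_pow_mul R (Q - G).natTrailingDegree 0
      rw [zero_add] at h3
      rw [← hR]
      rw [← hR] at h3
      exact h3
    rwa [h2] at h1
  have hQG : Q = G + X ^ (Q - G).natTrailingDegree * R := by
    rw [← hR]
    ring
  refine ⟨R, hR0, ?_, hQG⟩
  have hlen : len Q = len G + len (X ^ (Q - G).natTrailingDegree * R) := by
    conv_lhs => rw [hQG]
    refine Blocks_len_add fun i hi => ?_
    rw [← hR, coeff_sub, hag i (Finset.mem_range.2 (by omega)), sub_self]
  rw [len_X_pow_mul] at hlen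
  have := Blocks_one_le_len hG0
  omega

/-- PROOF. Induction on `B` (for all sequences). `B = 0` is impossible (`U` is not bot, `len (Q n) ≥ 1`).
Step `B + 1`: let `G` be the coefficientwise limit (`exists_limit`), `G.coeff 0 ≠ 0`. If `Q n = G` for almost all
`n` (ultrafilter) take `s = 1`, `A = fun _ => G`, `e = 0`. Otherwise `Q n ≠ G` for almost all `n`
(`Ultrafilter.eventually_not`). Let `a n = (Q n - G).natTrailingDegree`; `a n → ∞` along `U` (for each `D`, the
coefficients with index `≤ D` agree for almost all `n`). Write `Q n - G = X ^ a n * R n`, `(R n).coeff 0 ≠ 0`. For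
almost all `n` the coefficients of `Q n` and of `G` with index `≤ G.natDegree` agree, so `G` and `Q n - G` have
disjoint supports and `len (R n) = len (Q n - G) = len (Q n) - len G ≤ B` (`len G ≥ 1`; `len_X_pow_mul` in
`LenL.lean`). Change `R n` on the exceptional set to `1` (then `B ≥ 1` is needed: if `B = 0` the good `n` give a
contradiction). The induction hypothesis for `R` gives `s'`, `A'`, `e'`; take `s = s' + 1`, `A 0 = G`,
`A (r + 1) = A' r`, `e n 0 = 0`, `e n (r + 1) = a n + e' n r` (`Nat.casesOn`, `Finset.sum_range_succ'`). -/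
theorem exists_blocks {B : ℕ} (U : Ultrafilter ℕ) (Q : ℕ → ℤ[X]) (h : ∀ n, len (Q n) ≤ B)
    (h0 : ∀ n, (Q n).coeff 0 ≠ 0) :
    ∃ (s : ℕ) (A : ℕ → ℤ[X]) (e : ℕ → ℕ → ℕ), 0 < s ∧ (∀ n, e n 0 = 0) ∧
      (∀ r, r < s → (A r).coeff 0 ≠ 0) ∧
      (∀ r, r + 1 < s → Filter.Tendsto (fun n => (e n (r + 1) : ℤ) - e n r) (U : Filter ℕ)
        Filter.atTop) ∧
      ∀ᶠ n in (U : Filter ℕ), Q n = ∑ r ∈ Finset.range s, X ^ e n r * A r := by
  induction B generalizing Q with
  | zero =>
    exfalso
    have h1 := h 0
    have h2 := Blocks_one_le_len (h0 0)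
    omega
  | succ B ih =>
    obtain ⟨G, hG⟩ := exists_limit U Q h
    have hG0 : G.coeff 0 ≠ 0 := by
      obtain ⟨n, hn⟩ := (hG 0).exists
      rw [← hn]
      exact h0 n
    by_cases hE : ∀ᶠ n in (U : Filter ℕ), Q n = G
    · refine ⟨1, fun _ => G, fun _ _ => 0, Nat.one_pos, fun _ => rfl, fun _ _ => hG0, ?_, ?_⟩
      · intro r hr
        omega
      · filter_upwards [hE] with n hn
        rw [hn]
        simp
    · have hne : ∀ᶠ n in (U : Filter ℕ), ¬ Q n = G := Ultrafilter.eventually_not.2 hE
      have hagD : ∀ D : ℕ, ∀ᶠ n in (U : Filter ℕ), ∀ j ∈ Finset.range (D + 1),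
          (Q n).coeff j = G.coeff j := fun D =>
        (Filter.eventually_all_finset _).2 fun j _ => hG j
      have hgood : ∀ᶠ n in (U : Filter ℕ), ∃ R : ℤ[X], R.coeff 0 ≠ 0 ∧ len R ≤ B ∧
          Q n = G + X ^ (Q n - G).natTrailingDegree * R := by
        filter_upwards [hne, hagD G.natDegree] with n h1 h2
        exact Blocks_split hG0 (h n) h1 h2
      have hB : 1 ≤ B := by
        obtain ⟨n, R, hR0, hRl, -⟩ := hgood.exists
        exact (Blocks_one_le_len hR0).trans hRl
      have hR : ∀ n, ∃ R : ℤ[X], R.coeff 0 ≠ 0 ∧ len R ≤ B ∧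
          ((∃ R : ℤ[X], R.coeff 0 ≠ 0 ∧ len R ≤ B ∧
            Q n = G + X ^ (Q n - G).natTrailingDegree * R) →
            Q n = G + X ^ (Q n - G).natTrailingDegree * R) := by
        intro n
        by_cases hn : ∃ R : ℤ[X], R.coeff 0 ≠ 0 ∧ len R ≤ B ∧
            Q n = G + X ^ (Q n - G).natTrailingDegree * R
        · obtain ⟨R, h1, h2, h3⟩ := hn
          exact ⟨R, h1, h2, fun _ => h3⟩
        · refine ⟨1, by simp, ?_, fun h' => absurd h' hn⟩
          have : len (1 : ℤ[X]) = 1 := by
            rw [len_eq_range (1 : ℤ[X]) (n := 1) (by simp)]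
            simp
          omega
      choose R hR0 hRl hRQ using hR
      obtain ⟨s', A', e', hs', he', hA', ht', hQ'⟩ := ih R hRl hR0
      refine ⟨s' + 1, fun r => Nat.casesOn r G A',
        fun n r => Nat.casesOn r 0 fun r' => (Q n - G).natTrailingDegree + e' n r',
        Nat.succ_pos _, fun _ => rfl, ?_, ?_, ?_⟩
      · intro r hr
        cases r with
        | zero => exact hG0
        | succ r => exact hA' r (by omega)
      · intro r hr
        cases r with
        | zero =>
          have hlim : Filter.Tendsto (fun n => ((Q n - G).natTrailingDegree : ℤ)) (U : Filter ℕ)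
              Filter.atTop := by
            refine Filter.tendsto_atTop.2 fun b => ?_
            filter_upwards [hne, hagD b.toNat] with n h1 h2
            have h3 : b.toNat < (Q n - G).natTrailingDegree := by
              refine Blocks_lt_trail (sub_ne_zero.2 h1) fun j hj => ?_
              rw [coeff_sub, h2 j hj, sub_self]
            omega
          refine hlim.congr fun n => ?_
          change ((Q n - G).natTrailingDegree : ℤ) =
            (((Q n - G).natTrailingDegree + e' n 0 : ℕ) : ℤ) - ((0 : ℕ) : ℤ)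
          rw [he' n]
          push_cast
          ring
        | succ r =>
          refine (ht' r (by omega)).congr fun n => ?_
          change (e' n (r + 1) : ℤ) - e' n r =
            (((Q n - G).natTrailingDegree + e' n (r + 1) : ℕ) : ℤ) -
              (((Q n - G).natTrailingDegree + e' n r : ℕ) : ℤ)
          push_cast
          ring
      · filter_upwards [hgood, hQ'] with n h1 h2
        rw [Finset.sum_range_succ']
        change Q n = ∑ r ∈ Finset.range s',
          X ^ ((Q n - G).natTrailingDegree + e' n r) * A' r + X ^ 0 * G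
        have h3 : ∑ r ∈ Finset.range s', X ^ ((Q n - G).natTrailingDegree + e' n r) * A' r =
            X ^ (Q n - G).natTrailingDegree * R n := by
          conv_rhs => rw [h2]
          rw [Finset.mul_sum]
          refine Finset.sum_congr rfl fun r _ => ?_
          rw [pow_add, mul_assoc]
        rw [h3, pow_zero, one_mul, add_comm]
        exact hRQ n h1

end SalemLen
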