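import Mathlib

/-! # Exponential sums without zeros -/

set_option autoImplicit false

namespace SalemLen

open Complex Filter Topology

/-- The exponential sum with the coefficients `a l` and the frequencies `l` in `L`. -/
noncomputable def es (L : Finset ℝ) (a : ℝ → ℂ) (w : ℂ) : ℂ :=
  ∑ l ∈ L, a l * exp (I * l * w)

theorem differentiable_es (L : Finset ℝ) (a : ℝ → ℂ) : Differentiable ℂ (es L a) := by
  unfold es
  fun_prop

private theorem ExpSum_exp (l y : ℝ) :
    exp (I * l * (y * I)) = ((Real.exp (-(l * y)) : ℝ) : ℂ) := by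
  have h : I * l * (y * I) = ((-(l * y) : ℝ) : ℂ) := by
    have : I * l * (y * I) = (I * I) * (l * y) := by ring
    rw [this, I_mul_I]
    push_cast
    ring
  rw [h, ofReal_exp]

/-- PROOF. `exp (I l w)` with `w = y * I`, `y → ∞`, is `exp (- l y) → 0` for `l > 0` and is `1` for `l = 0`. -/
theorem tendsto_es {L : Finset ℝ} (hL : ∀ l ∈ L, 0 ≤ l) (h0 : (0 : ℝ) ∈ L) (a : ℝ → ℂ) :
    Tendsto (fun y : ℝ => es L a (y * I)) atTop (𝓝 (a 0)) := by
  have h1 : Tendsto (fun y : ℝ => es L a (y * I)) atTop
      (𝓝 (∑ l ∈ L, if l = 0 then a l else 0)) := by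
    unfold es
    refine tendsto_finset_sum _ fun l hl => ?_
    by_cases h : l = 0
    · rw [if_pos h]
      subst h
      have : (fun y : ℝ => a 0 * exp (I * ((0 : ℝ) : ℂ) * (y * I))) = fun _ => a 0 := by
        funext y
        simp
      rw [this]
      exact tendsto_const_nhds
    · rw [if_neg h]
      have hpos : 0 < l := lt_of_le_of_ne (hL l hl) (Ne.symm h)
      have h2 : Tendsto (fun y : ℝ => Real.exp (-(l * y))) atTop (𝓝 0) :=
        Real.tendsto_exp_neg_atTop_nhds_zero.comp (tendsto_id.const_mul_atTop hpos)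
      have h3 : Tendsto (fun y : ℝ => ((Real.exp (-(l * y)) : ℝ) : ℂ)) atTop (𝓝 ((0 : ℝ) : ℂ)) :=
        (continuous_ofReal.tendsto 0).comp h2
      have h4 := h3.const_mul (a l)
      rw [ofReal_zero, mul_zero] at h4
      refine h4.congr fun y => ?_
      rw [ExpSum_exp]
  have h2 : (∑ l ∈ L, if l = 0 then a l else 0) = a 0 := by
    rw [Finset.sum_eq_single (0 : ℝ)]
    · simp
    · intro b _ hb
      simp [hb]
    · intro h
      exact absurd h0 h
  rwa [h2] at h1

/-- PROOF. Suppose `a l ≠ 0` for some `l ∈ L`, and take the smallest such `l = l0`. Multiply by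
`exp (- I l0 w)`, put `w = y * I` and let `y → ∞`: the terms with `l > l0` tend to zero, the term `l0` is
`a l0`. So `a l0 = 0`. (One may also use the linear independence of characters.) -/
theorem es_eq_zero {L : Finset ℝ} (a : ℝ → ℂ) (h : ∀ w, es L a w = 0) : ∀ l ∈ L, a l = 0 := by
  classical
  by_contra hcon
  push Not at hcon
  obtain ⟨l1, hl1, hal1⟩ := hcon
  set S := L.filter (fun l => a l ≠ 0) with hS
  have hne : S.Nonempty := ⟨l1, Finset.mem_filter.2 ⟨hl1, hal1⟩⟩
  set l0 := S.min' hne with hl0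
  have hl0S : l0 ∈ S := S.min'_mem hne
  have hal0 : a l0 ≠ 0 := (Finset.mem_filter.1 hl0S).2
  have hSes : ∀ w, ∑ l ∈ S, a l * exp (I * l * w) = 0 := by
    intro w
    rw [← h w]
    unfold es
    rw [hS, Finset.sum_filter]
    refine Finset.sum_congr rfl fun l _ => ?_
    by_cases hl : a l = 0
    · simp [hl]
    · simp [hl]
  set L' := S.image (fun l => l - l0) with hL'
  have hinj : Set.InjOn (fun l : ℝ => l - l0) (S : Set ℝ) := by
    intro x _ y _ hxy
    simpa using hxy
  have hes' : ∀ w, es L' (fun l => a (l + l0)) w = 0 := by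
    intro w
    unfold es
    rw [hL', Finset.sum_image hinj]
    have : ∀ l ∈ S, a (l - l0 + l0) * exp (I * ((l - l0 : ℝ) : ℂ) * w) =
        exp (-(I * l0 * w)) * (a l * exp (I * l * w)) := by
      intro l _
      rw [sub_add_cancel]
      have e : I * ((l - l0 : ℝ) : ℂ) * w = -(I * l0 * w) + I * l * w := by
        push_cast
        ring
      rw [e, exp_add]
      ring
    rw [Finset.sum_congr rfl this, ← Finset.mul_sum, hSes w, mul_zero]
  have hnn : ∀ l ∈ L', 0 ≤ l := by
    intro l hl
    rw [hL', Finset.mem_image] at hl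
    obtain ⟨m, hm, rfl⟩ := hl
    have := S.min'_le m hm
    simp only [sub_nonneg]
    exact this
  have h0 : (0 : ℝ) ∈ L' := by
    rw [hL', Finset.mem_image]
    exact ⟨l0, hl0S, sub_self l0⟩
  have ht := tendsto_es hnn h0 (fun l => a (l + l0))
  have ht0 : Tendsto (fun y : ℝ => es L' (fun l => a (l + l0)) (y * I)) atTop (𝓝 0) := by
    have : (fun y : ℝ => es L' (fun l => a (l + l0)) (y * I)) = fun _ => 0 := by
      funext y
      exact hes' _
    rw [this]
    exact tendsto_const_nhds
  have := tendsto_nhds_unique ht ht0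
  simp only [zero_add] at this
  exact hal0 this

end SalemLen
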