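import Pool.Agent.Lib.MP_9599cf_ntA.ExpLin
import Pool.Agent.Lib.MP_9599cf_ntA.ExpSum

/-! # Exponential sums without zeros are monomials -/

set_option autoImplicit false

namespace SalemLen

open Complex Filter Topology

private theorem ExpZero_norm_le (L : Finset ℝ) (a : ℝ → ℂ) (w : ℂ) :
    ‖es L a w‖ ≤ Real.exp (((∑ l ∈ L, ‖a l‖) + ∑ l ∈ L, |l|) * (1 + ‖w‖)) := by
  set A : ℝ := ∑ l ∈ L, ‖a l‖ with hA
  set M : ℝ := ∑ l ∈ L, |l| with hM
  have hA0 : 0 ≤ A := Finset.sum_nonneg fun l _ => norm_nonneg _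
  have hM0 : 0 ≤ M := Finset.sum_nonneg fun l _ => abs_nonneg _
  have h1 : ‖es L a w‖ ≤ A * Real.exp (M * ‖w‖) := by
    unfold es
    refine (norm_sum_le _ _).trans ?_
    rw [hA, Finset.sum_mul]
    refine Finset.sum_le_sum fun l hl => ?_
    rw [norm_mul]
    refine mul_le_mul_of_nonneg_left ?_ (norm_nonneg _)
    rw [Complex.norm_exp]
    refine Real.exp_le_exp.2 ?_
    refine (Complex.re_le_norm _).trans ?_
    rw [norm_mul, norm_mul, Complex.norm_I, one_mul, Complex.norm_real, Real.norm_eq_abs]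
    refine mul_le_mul_of_nonneg_right ?_ (norm_nonneg _)
    exact Finset.single_le_sum (f := fun l : ℝ => |l|) (fun i _ => abs_nonneg i) hl
  have h2 : A ≤ Real.exp A := by
    have := Real.add_one_le_exp A
    linarith
  calc ‖es L a w‖ ≤ A * Real.exp (M * ‖w‖) := h1
    _ ≤ Real.exp A * Real.exp (M * ‖w‖) :=
        mul_le_mul_of_nonneg_right h2 (Real.exp_pos _).le
    _ = Real.exp (A + M * ‖w‖) := (Real.exp_add _ _).symm
    _ ≤ Real.exp ((A + M) * (1 + ‖w‖)) := by
        refine Real.exp_le_exp.2 ?_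
        have hw := norm_nonneg w
        nlinarith [mul_nonneg hA0 hw]

private theorem ExpZero_hasDerivAt (L : Finset ℝ) (a : ℝ → ℂ) (w : ℂ) :
    HasDerivAt (es L a) (∑ l ∈ L, a l * (exp (I * l * w) * (I * l))) w := by
  have h1 : es L a = fun w => ∑ l ∈ L, a l * exp (I * l * w) := rfl
  rw [h1]
  refine HasDerivAt.fun_sum fun l _ => ?_
  refine HasDerivAt.const_mul _ ?_
  refine HasDerivAt.cexp ?_
  have h2 := (hasDerivAt_id w).const_mul (I * (l : ℂ))
  simpa using h2

/-- PROOF. `‖es L a w‖ ≤ (∑ ‖a l‖) * exp (max L * ‖w‖)`, so by `exists_deriv_eq` there is `b` with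
`deriv (es L a) w = b * es L a w` for all `w`, that is `∑ (I l - b) a l exp (I l w) = 0` for all `w`. By
`es_eq_zero` (with the coefficients `(I * l - b) * a l`), `(I * l - b) * a l = 0` for all `l ∈ L`. For
`l = 0`: `- b * a 0 = 0`, so `b = 0`; then `I * l * a l = 0`, so `a l = 0` for `l ≠ 0`. -/
theorem es_coeff_zero {L : Finset ℝ} (h0 : (0 : ℝ) ∈ L) {a : ℝ → ℂ} (ha : a 0 ≠ 0)
    (hne : ∀ w, es L a w ≠ 0) : ∀ l ∈ L, l ≠ 0 → a l = 0 := by
  obtain ⟨b, hb⟩ := exists_deriv_eq (differentiable_es L a) hne (ExpZero_norm_le L a)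
  have h1 : ∀ w, es L (fun l => (I * l - b) * a l) w = 0 := by
    intro w
    have h2 := hb w
    rw [(ExpZero_hasDerivAt L a w).deriv] at h2
    have h3 : es L (fun l => (I * l - b) * a l) w =
        (∑ l ∈ L, a l * (exp (I * l * w) * (I * l))) - b * es L a w := by
      unfold es
      rw [Finset.mul_sum, ← Finset.sum_sub_distrib]
      refine Finset.sum_congr rfl fun l _ => ?_
      ring
    rw [h3, h2, sub_self]
  have h4 := es_eq_zero _ h1
  have hb0 : b = 0 := by
    have h5 := h4 0 h0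
    simp only [ofReal_zero, mul_zero, zero_sub] at h5
    rcases mul_eq_zero.1 h5 with h6 | h6
    · exact neg_eq_zero.1 h6
    · exact absurd h6 ha
  intro l hl hl0
  have h5 := h4 l hl
  simp only [hb0, sub_zero] at h5
  rcases mul_eq_zero.1 h5 with h6 | h6
  · rcases mul_eq_zero.1 h6 with h7 | h7
    · exact absurd h7 I_ne_zero
    · exact absurd (ofReal_eq_zero.1 h7) hl0
  · exact h6

end SalemLen
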