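import Mathlib

/-! # The slope -/

set_option autoImplicit false

namespace SalemLen

private theorem Newton_log_le {a b l T : ℝ} (ha : 0 < a) (hb : 0 < b) (hl : 0 < l) :
    a * Real.exp (-l * T) ≤ b ↔ (1 / l) * Real.log (a / b) ≤ T := by
  have e1 : (1 / l) * Real.log (a / b) ≤ T ↔ Real.log (a / b) ≤ l * T := by
    rw [one_div, inv_mul_le_iff₀ hl]
  rw [e1, Real.log_le_iff_le_exp (div_pos ha hb), div_le_iff₀ hb]
  have e2 : Real.exp (-l * T) = (Real.exp (l * T))⁻¹ := by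
    rw [← Real.exp_neg, neg_mul]
  rw [e2, ← div_eq_mul_inv, div_le_iff₀ (Real.exp_pos _), mul_comm b]

private theorem Newton_log_eq {a b l : ℝ} (ha : 0 < a) (hb : 0 < b) (hl : 0 < l) :
    a * Real.exp (-l * ((1 / l) * Real.log (a / b))) = b := by
  have e1 : -l * ((1 / l) * Real.log (a / b)) = -Real.log (a / b) := by
    field_simp
  rw [e1, Real.exp_neg, Real.exp_log (div_pos ha hb)]
  field_simp

/-- PROOF. Let `L' = {l ∈ L | 0 < l ∧ g l ≠ 0}`, which contains `1`, and let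
`T = max (l ∈ L') (1 / l) * log (‖g l‖ / ‖g 0‖)` (`Finset.exists_max_image`), attained at `l' ∈ L'`. With `l = 1`:
`T ≥ log (‖g 1‖ / ‖g 0‖)`. For `l ∈ L'`: `log (‖g l‖ / ‖g 0‖) ≤ l * T`, so `‖g l‖ * exp (- l T) ≤ ‖g 0‖`, with
equality for `l'`. For `l = 0` the inequality is an equality, for `g l = 0` it is trivial. -/
theorem exists_slope {L : Finset ℝ} (hL : ∀ l ∈ L, 0 ≤ l) (h1 : (1 : ℝ) ∈ L) {g : ℝ → ℂ}
    (h0 : g 0 ≠ 0) (h2 : g 1 ≠ 0) :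
    ∃ T : ℝ, Real.log (‖g 1‖ / ‖g 0‖) ≤ T ∧ (∀ l ∈ L, ‖g l‖ * Real.exp (-l * T) ≤ ‖g 0‖) ∧
      ∃ l' ∈ L, 0 < l' ∧ ‖g l'‖ * Real.exp (-l' * T) = ‖g 0‖ := by
  classical
  have hb : 0 < ‖g 0‖ := norm_pos_iff.2 h0
  have m1 : (1 : ℝ) ∈ L.filter (fun l => 0 < l ∧ g l ≠ 0) :=
    Finset.mem_filter.2 ⟨h1, one_pos, h2⟩
  obtain ⟨l', hl', hmax⟩ := Finset.exists_max_image (L.filter (fun l => 0 < l ∧ g l ≠ 0))
    (fun l => (1 / l) * Real.log (‖g l‖ / ‖g 0‖)) ⟨1, m1⟩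
  obtain ⟨hl1, hl2, hl3⟩ := Finset.mem_filter.1 hl'
  refine ⟨(1 / l') * Real.log (‖g l'‖ / ‖g 0‖), ?_, ?_, l', hl1, hl2, ?_⟩
  · have := hmax 1 m1
    simpa using this
  · intro l hl
    rcases (hL l hl).lt_or_eq with h3 | h3
    · by_cases h4 : g l = 0
      · rw [h4, norm_zero, zero_mul]; exact hb.le
      · exact (Newton_log_le (norm_pos_iff.2 h4) hb h3).2
          (hmax l (Finset.mem_filter.2 ⟨hl, h3, h4⟩))
    · rw [← h3]
      simp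
  · exact Newton_log_eq (norm_pos_iff.2 hl3) hb hl2

end SalemLen
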