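import Pool.Agent.Lib.MP_9599cf_ntA.Hurwitz
import Pool.Agent.Lib.MP_9599cf_ntA.ExpSum
import Pool.Agent.Lib.MP_9599cf_ntA.ExpZero
import Pool.Agent.Lib.MP_9599cf_ntA.Newton

/-! # Exponential sums without zeros in the upper half plane -/

set_option autoImplicit false

namespace SalemLen

open Complex Filter Topology

/-- PROOF. Choose an ultrafilter `U ≤ atTop` (`Filter.hyperfilter ℕ`). For each `m` take `T m`, `l' m` from
`exists_slope` (`g m 1 ≠ 0` by `h1`). `T m → ∞`. Let `a m l = g m l * exp (- l * T m) / g m 0`, so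
`‖a m l‖ ≤ 1` for `l ∈ L`, `a m 0 = 1`, `‖a m (l' m)‖ = 1`, and
`es L (a m) w = es L (g m) (w + T m * I) / g m 0` (as `exp (I l (w + T I)) = exp (I l w) exp (- l T)`), which is
not zero when `w.im > - T m`. Along `U`: `l' m` is constant `= l'` (finitely many values), and for each `l ∈ L`
`a m l` converges to some `b l` (compact unit disc; `b l = 0` for `l ∉ L` or anything), `b 0 = 1`, `‖b l'‖ = 1`.
`es L b` is entire, not identically zero (`tendsto_es`: it tends to `b 0 = 1` on the imaginary axis), and by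
`hurwitz` (with `R = 1`; `hconv`: finite sum of products of convergent sequences, continuity of `exp`; `hnz`:
`T m > 1 + ‖w0‖` for almost all `m`) `es L b w0 ≠ 0` for all `w0`. By `es_coeff_zero`, `b l' = 0`, a
contradiction. -/
theorem not_small {L : Finset ℝ} (hL : ∀ l ∈ L, 0 ≤ l) (h0 : (0 : ℝ) ∈ L) (h1 : (1 : ℝ) ∈ L)
    (g : ℕ → ℝ → ℂ) (hg0 : ∀ m, g m 0 ≠ 0) (hlim : Tendsto (fun m => g m 0) atTop (𝓝 0))
    {c : ℝ} (hc : 0 < c) (hg1 : ∀ m, c ≤ ‖g m 1‖)
    (hne : ∀ m, ∀ w : ℂ, 0 < w.im → es L (g m) w ≠ 0) : False := by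
  classical
  obtain ⟨U, hU⟩ : ∃ U : Ultrafilter ℕ, (U : Filter ℕ) ≤ atTop :=
    ⟨hyperfilter ℕ, Nat.hyperfilter_le_atTop⟩
  have h2 : ∀ m, g m 1 ≠ 0 := by
    intro m h
    have h3 := hg1 m
    rw [h, norm_zero] at h3
    linarith
  choose T hT1 hT2 l' hl' hlpos hl'eq using fun m => exists_slope hL h1 (hg0 m) (h2 m)
  have hnpos : ∀ m, 0 < ‖g m 0‖ := fun m => norm_pos_iff.2 (hg0 m)
  -- `T m → ∞`
  have hTlim : Tendsto T atTop atTop := by
    have e1 : Tendsto (fun m => ‖g m 0‖) atTop (𝓝[>] 0) := by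
      rw [tendsto_nhdsWithin_iff]
      refine ⟨?_, Eventually.of_forall fun m => hnpos m⟩
      have := hlim.norm
      rwa [norm_zero] at this
    have e2 : Tendsto (fun m => c * (‖g m 0‖)⁻¹) atTop atTop :=
      Tendsto.const_mul_atTop hc (tendsto_inv_nhdsGT_zero.comp e1)
    have e3 := Real.tendsto_log_atTop.comp e2
    refine tendsto_atTop_mono (fun m => ?_) e3
    refine le_trans ?_ (hT1 m)
    change Real.log (c * (‖g m 0‖)⁻¹) ≤ _
    apply Real.log_le_log
    · have := inv_pos.2 (hnpos m)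
      positivity
    · rw [div_eq_mul_inv]
      exact mul_le_mul_of_nonneg_right (hg1 m) (inv_nonneg.2 (hnpos m).le)
  -- the normalized coefficients
  obtain ⟨a, ha⟩ : ∃ a : ℕ → ℝ → ℂ, ∀ m l, a m l = g m l * exp (((-l * T m : ℝ)) : ℂ) / g m 0 :=
    ⟨_, fun _ _ => rfl⟩
  have hnorm : ∀ m l, ‖a m l‖ = ‖g m l‖ * Real.exp (-l * T m) / ‖g m 0‖ := by
    intro m l
    rw [ha, norm_div, norm_mul, ← Complex.ofReal_exp, Complex.norm_real, Real.norm_eq_abs,
      abs_of_pos (Real.exp_pos _)]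
  have hle : ∀ m, ∀ l ∈ L, ‖a m l‖ ≤ 1 := by
    intro m l hl
    rw [hnorm, div_le_one (hnpos m)]
    exact hT2 m l hl
  have ha0 : ∀ m, a m 0 = 1 := by
    intro m
    rw [ha, neg_zero, zero_mul, Complex.ofReal_zero, Complex.exp_zero, mul_one, div_self (hg0 m)]
  have ha1 : ∀ m, ‖a m (l' m)‖ = 1 := by
    intro m
    rw [hnorm, hl'eq, div_self (hnpos m).ne']
  -- the index
  obtain ⟨l0, hl0, hev⟩ : ∃ l0 ∈ L, ∀ᶠ m in (U : Filter ℕ), l' m = l0 := by
    have h3 : (⋃ l ∈ (L : Set ℝ), {m | l' m = l}) ∈ U := by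
      have h4 : (⋃ l ∈ (L : Set ℝ), {m | l' m = l}) = Set.univ := by
        ext m
        simp only [Set.mem_iUnion, Set.mem_univ, iff_true]
        exact ⟨l' m, hl' m, rfl⟩
      rw [h4]
      exact univ_mem
    rw [Ultrafilter.finite_biUnion_mem_iff L.finite_toSet] at h3
    obtain ⟨l, hl, h5⟩ := h3
    exact ⟨l, hl, h5⟩
  have hl0pos : 0 < l0 := by
    obtain ⟨m, hm⟩ := hev.exists
    rw [← hm]
    exact hlpos m
  -- the limits
  have hb : ∀ l, ∃ x : ℂ, l ∈ L → Tendsto (fun m => a m l) (U : Filter ℕ) (𝓝 x) := by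
    intro l
    by_cases hl : l ∈ L
    · obtain ⟨x, _, hx⟩ := (isCompact_closedBall (0 : ℂ) 1).ultrafilter_le_nhds
        (U.map (fun m => a m l)) (by
          rw [le_principal_iff]
          refine Eventually.of_forall (f := (U : Filter ℕ)) (p := fun m => a m l ∈ Metric.closedBall (0 : ℂ) 1) fun m => ?_
          rw [mem_closedBall_zero_iff]
          exact hle m l hl)
      exact ⟨x, fun _ => hx⟩
    · exact ⟨0, fun h => absurd h hl⟩
  choose b hb using hb
  have hb0 : b 0 = 1 := by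
    have h3 := hb 0 h0
    have h4 : Tendsto (fun m => a m 0) (U : Filter ℕ) (𝓝 1) := by
      simp only [ha0]
      exact tendsto_const_nhds
    exact tendsto_nhds_unique h3 h4
  have hb1 : ‖b l0‖ = 1 := by
    have h3 := (hb l0 hl0).norm
    have h4 : Tendsto (fun m => ‖a m l0‖) (U : Filter ℕ) (𝓝 1) := by
      refine Tendsto.congr' ?_ (tendsto_const_nhds (x := (1 : ℝ)))
      filter_upwards [hev] with m hm
      rw [← hm, ha1]
    exact tendsto_nhds_unique h3 h4
  have hnz : ∃ w, es L b w ≠ 0 := by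
    have h3 := tendsto_es hL h0 b
    rw [hb0] at h3
    obtain ⟨y, hy⟩ := (h3.eventually_ne one_ne_zero).exists
    exact ⟨_, hy⟩
  have hall : ∀ w0, es L b w0 ≠ 0 := by
    intro w0
    refine hurwitz U (differentiable_es L b) hnz (Fm := fun m => es L (a m))
      (fun m => differentiable_es L (a m)) (w0 := w0) (R := 1) one_pos ?_ ?_
    · intro w w' _ hw
      unfold es
      refine tendsto_finsetSum L fun l hl => (hb l hl).mul ?_
      exact (Complex.continuous_exp.tendsto _).comp (hw.const_mul (I * l))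
    · have h3 : ∀ᶠ m in (U : Filter ℕ), 1 + ‖w0‖ < T m :=
        (hTlim.mono_left hU).eventually (eventually_gt_atTop _)
      filter_upwards [h3] with m hm w hw
      have h4 : es L (a m) w = es L (g m) (w + T m * I) / g m 0 := by
        unfold es
        rw [Finset.sum_div]
        refine Finset.sum_congr rfl fun l _ => ?_
        have h5 : I * l * (w + T m * I) = (((-l * T m : ℝ)) : ℂ) + I * l * w := by
          push_cast
          linear_combination (l : ℂ) * T m * I_mul_I
        rw [ha, h5, Complex.exp_add]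
        ring
      change es L (a m) w ≠ 0
      rw [h4]
      refine div_ne_zero (hne m _ ?_) (hg0 m)
      have h6 : (w + T m * I).im = w.im + T m := by simp
      rw [h6]
      have h7 : ‖w‖ ≤ 1 + ‖w0‖ := by
        rw [Metric.mem_closedBall, dist_eq_norm] at hw
        calc ‖w‖ = ‖(w - w0) + w0‖ := by rw [sub_add_cancel]
          _ ≤ ‖w - w0‖ + ‖w0‖ := norm_add_le _ _
          _ ≤ 1 + ‖w0‖ := by linarith
      have h8 := (abs_le.1 (Complex.abs_im_le_norm w)).1
      linarith
  have h9 := es_coeff_zero h0 (by rw [hb0]; exact one_ne_zero) hall l0 hl0 hl0pos.ne'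
  rw [h9, norm_zero] at hb1
  exact zero_ne_one hb1

end SalemLen
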