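import Pool.Agent.Lib.MP_9599cf_ntA.CoreEps
import Pool.Agent.Lib.MP_9599cf_ntA.Small

/-! # All blocks vanish -/

set_option autoImplicit false

namespace SalemLen

open Polynomial Filter Topology

/-- If the polynomials `∑ r < s, X ^ e n r * A r` have no zeros in an annulus inside the unit circle, and if
`A 0` vanishes at a point `ω` of the unit circle, then all `A r` vanish at `ω`. -/
theorem core (U : Ultrafilter ℕ) (s : ℕ) (A : ℕ → ℤ[X]) (e : ℕ → ℕ → ℕ)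
    (he : ∀ n, e n 0 = 0) (hA0 : (A 0).coeff 0 ≠ 0)
    (hgap : ∀ r, r + 1 < s → Tendsto (fun n => (e n (r + 1) : ℤ) - e n r) (U : Filter ℕ) atTop)
    {ρ : ℝ} (hρ : ρ < 1)
    (hnz : ∀ᶠ n in (U : Filter ℕ), ∀ z : ℂ, ρ < ‖z‖ → ‖z‖ < 1 →
      (cx (∑ r ∈ Finset.range s, X ^ e n r * A r)).eval z ≠ 0)
    {ω : ℂ} (hω : ‖ω‖ = 1) (h0 : (cx (A 0)).eval ω = 0) :
    ∀ r, r < s → (cx (A r)).eval ω = 0 := by
  classical
  by_contra hcon
  push Not at hcon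
  obtain ⟨⟨hjs, hωj⟩, hmin⟩ := And.intro (Nat.find_spec hcon) (fun m hm => Nat.find_min hcon (m := m) hm)
  set j := Nat.find hcon with hjdef
  have hωr : ∀ r, r < j → (cx (A r)).eval ω = 0 := by
    intro r hr
    by_contra h
    exact hmin r hr ⟨hr.trans hjs, h⟩
  have hj : 0 < j := by
    rcases Nat.eq_zero_or_pos j with h | h
    · rw [h] at hωj
      exact absurd h0 hωj
    · exact h
  obtain ⟨S, lam, hS, h0S, hjS, hl0, hlj, h1, h3, h2⟩ := exists_ratio U s e he hgap hj hjs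
  obtain ⟨C, hC⟩ := core_eps U s A e he hA0 hgap hj hjs hS h0S hjS hl0 hlj h1 h3 h2 hρ hnz hω hωr hωj
  have hC' : ∀ m : ℕ, ∃ g : ℝ → ℂ, g 0 ≠ 0 ∧ ‖g 0‖ ≤ C * (1 / ((m : ℝ) + 1)) ∧
      ‖(cx (A j)).eval ω‖ / 4 ≤ ‖g 1‖ ∧ ∀ w : ℂ, 0 < w.im → es (S.image lam) g w ≠ 0 :=
    fun m => hC _ (by positivity)
  choose g hg0 hg1 hg2 hg3 using hC'
  have hlim : Tendsto (fun m => g m 0) atTop (𝓝 0) := by
    refine squeeze_zero_norm hg1 ?_
    have h4 : Tendsto (fun m : ℕ => C * (1 / ((m : ℝ) + 1))) atTop (𝓝 (C * 0)) :=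
      tendsto_one_div_add_atTop_nhds_zero_nat.const_mul C
    rwa [mul_zero] at h4
  have hpos : 0 < ‖(cx (A j)).eval ω‖ / 4 := div_pos (norm_pos_iff.mpr hωj) (by norm_num)
  refine not_small (L := S.image lam) ?_ ?_ ?_ g hg0 hlim hpos hg2 hg3
  · intro l hl
    obtain ⟨r, hr, rfl⟩ := Finset.mem_image.mp hl
    exact (h1 r hr).1
  · exact Finset.mem_image.mpr ⟨0, h0S, hl0⟩
  · exact Finset.mem_image.mpr ⟨j, hjS, hlj⟩

end SalemLen
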