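import Pool.Agent.Lib.MP_9599cf_ntL.Defs

/-! # Polynomials near a zero on the unit circle -/

set_option autoImplicit false

namespace SalemLen

open Polynomial

/-- PROOF. `cx p = (X - C ω) * q`; `‖q.eval z‖` is bounded on the unit circle (compact, continuous; or by
the sum of the absolute values of the coefficients). -/
theorem exists_lip {p : ℤ[X]} {ω : ℂ} (h : (cx p).eval ω = 0) :
    ∃ C : ℝ, 0 ≤ C ∧ ∀ z : ℂ, ‖z‖ = 1 → ‖(cx p).eval z‖ ≤ C * ‖z - ω‖ := by
  obtain ⟨q, hq⟩ := Polynomial.dvd_iff_isRoot.2 h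
  have hcont : ContinuousOn (fun z : ℂ => ‖q.eval z‖) (Metric.sphere (0 : ℂ) 1) :=
    (q.continuous.norm).continuousOn
  obtain ⟨C, hC⟩ := (isCompact_sphere (0 : ℂ) 1).exists_bound_of_continuousOn hcont
  refine ⟨max C 0, le_max_right _ _, ?_⟩
  intro z hz
  have h1 := hC z (by rw [mem_sphere_zero_iff_norm]; exact hz)
  rw [norm_norm] at h1
  rw [hq, eval_mul, norm_mul, eval_sub, eval_X, eval_C, mul_comm]
  exact mul_le_mul_of_nonneg_right (le_trans h1 (le_max_left _ _)) (norm_nonneg _)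

/-- PROOF. A bounded sequence converges along an ultrafilter (`isCompact_sphere`,
`IsCompact.ultrafilter_le_nhds'` for `U.map z`). -/
theorem exists_tendsto_sphere (U : Ultrafilter ℕ) (z : ℕ → ℂ) (h : ∀ n, ‖z n‖ = 1) :
    ∃ z0 : ℂ, ‖z0‖ = 1 ∧ Filter.Tendsto z (U : Filter ℕ) (nhds z0) := by
  obtain ⟨z0, h0, h1⟩ := (isCompact_sphere (0 : ℂ) 1).ultrafilter_le_nhds' (U.map z) (by
    rw [Ultrafilter.mem_map]
    refine Filter.univ_mem' fun n => ?_
    change z n ∈ Metric.sphere (0 : ℂ) 1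
    rw [mem_sphere_zero_iff_norm]
    exact h n)
  refine ⟨z0, by rwa [mem_sphere_zero_iff_norm] at h0, ?_⟩
  rw [Ultrafilter.coe_map] at h1
  exact h1

end SalemLen
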