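import Pool.Agent.Lib.MP_9599cf_ntL.Defs

/-! # Oscillating integrals -/

set_option autoImplicit false

namespace SalemLen

open Polynomial Filter Topology

private theorem osc_bound (k : ℤ) (hk : k ≠ 0) (a b : ℝ) :
    ‖∫ θ in a..b, Complex.exp ((k : ℂ) * (θ : ℂ) * Complex.I)‖ ≤ 2 / |(k : ℝ)| := by
  have hc : (k : ℂ) * Complex.I ≠ 0 := mul_ne_zero (Int.cast_ne_zero.mpr hk) Complex.I_ne_zero
  have h1 : (∫ θ in a..b, Complex.exp ((k : ℂ) * (θ : ℂ) * Complex.I)) =
      ∫ θ in a..b, Complex.exp (((k : ℂ) * Complex.I) * (θ : ℂ)) := by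
    refine intervalIntegral.integral_congr fun θ _ => ?_
    change Complex.exp ((k : ℂ) * (θ : ℂ) * Complex.I) = Complex.exp (((k : ℂ) * Complex.I) * (θ : ℂ))
    rw [mul_right_comm]
  have h2 : ∀ x : ℝ, ‖Complex.exp ((k : ℂ) * Complex.I * (x : ℂ))‖ = 1 := by
    intro x
    have h : (k : ℂ) * Complex.I * (x : ℂ) = (((k : ℝ) * x : ℝ) : ℂ) * Complex.I := by
      push_cast
      ring
    rw [h, Complex.norm_exp_ofReal_mul_I]
  have h3 : ‖(k : ℂ)‖ = |(k : ℝ)| := Complex.norm_intCast k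
  have h4 : ‖Complex.exp ((k : ℂ) * Complex.I * (b : ℂ)) - Complex.exp ((k : ℂ) * Complex.I * (a : ℂ))‖
      ≤ 2 := by
    refine (norm_sub_le _ _).trans ?_
    rw [h2, h2]
    norm_num
  rw [h1, integral_exp_mul_complex hc, norm_div, norm_mul, Complex.norm_I, mul_one, h3]
  exact div_le_div_of_nonneg_right h4 (abs_nonneg _)

private theorem osc_tendsto {U : Filter ℕ} {c : ℕ → ℤ} (hc : Tendsto (fun n => |c n|) U atTop)
    (a b : ℝ) :
    Tendsto (fun n => ∫ θ in a..b, Complex.exp ((c n : ℂ) * (θ : ℂ) * Complex.I)) U (𝓝 0) := by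
  have h1 : Tendsto (fun n => 2 / |(c n : ℝ)|) U (𝓝 0) := by
    have h2 : Tendsto (fun n => |(c n : ℝ)|) U atTop := by
      have h3 := (tendsto_intCast_atTop_atTop (R := ℝ)).comp hc
      refine h3.congr fun n => ?_
      simp
    exact tendsto_const_nhds.div_atTop h2
  refine squeeze_zero_norm' ?_ h1
  filter_upwards [hc.eventually_gt_atTop 0] with n hn
  exact osc_bound _ (abs_pos.mp hn) a b

private theorem osc_eval (P : ℤ[X]) (w : ℂ) :
    (cx P).eval w = ∑ i ∈ P.support, (P.coeff i : ℂ) * w ^ i := by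
  rw [cx, Polynomial.eval_map, Polynomial.eval₂_eq_sum, Polynomial.sum]
  rfl

private theorem osc_cont (P : ℤ[X]) (m e : ℕ) : Continuous fun θ : ℝ =>
    (Complex.exp ((θ : ℂ) * Complex.I) ^ m * (cx P).eval (Complex.exp ((θ : ℂ) * Complex.I))) *
      Complex.exp (-((e : ℂ) * (θ : ℂ) * Complex.I)) := by
  have h1 : Continuous fun θ : ℝ => Complex.exp ((θ : ℂ) * Complex.I) := by fun_prop
  have h2 : Continuous fun θ : ℝ => (cx P).eval (Complex.exp ((θ : ℂ) * Complex.I)) :=
    (cx P).continuous.comp h1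
  have h3 : Continuous fun θ : ℝ => Complex.exp (-((e : ℂ) * (θ : ℂ) * Complex.I)) := by fun_prop
  exact ((h1.pow m).mul h2).mul h3

private theorem osc_point (P : ℤ[X]) (m e : ℕ) (θ : ℝ) :
    (Complex.exp ((θ : ℂ) * Complex.I) ^ m * (cx P).eval (Complex.exp ((θ : ℂ) * Complex.I))) *
      Complex.exp (-((e : ℂ) * (θ : ℂ) * Complex.I)) =
    ∑ i ∈ P.support, (P.coeff i : ℂ) *
      Complex.exp ((((m : ℤ) - (e : ℤ) + (i : ℤ) : ℤ) : ℂ) * (θ : ℂ) * Complex.I) := by
  rw [osc_eval, Finset.mul_sum, Finset.sum_mul]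
  refine Finset.sum_congr rfl fun i _ => ?_
  rw [← Complex.exp_nat_mul, ← Complex.exp_nat_mul]
  have h : ∀ x y z c : ℂ, x * (c * y) * z = c * (x * y * z) := fun x y z c => by ring
  rw [h, ← Complex.exp_add, ← Complex.exp_add]
  congr 2
  push_cast
  ring

/-- PROOF. For an integer `k ≠ 0`, `‖∫ θ in a..b, exp (I k θ)‖ ≤ 2 / |k|` (`integral_exp_mul_complex`). Expand
`A r` in monomials: the integrand is the sum over `r ∈ S`, `i ∈ (A r).support` of
`(A r).coeff i * exp (I * (e n r - e n j + i) * θ)`. For `r ≠ j` the frequency tends to infinity in absolute value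
(`hosc`, `i` fixed), so the integral tends to zero; for `r = j` the sum is `(cx (A j)).eval (exp (I θ))`. -/
theorem tendsto_osc (U : Ultrafilter ℕ) (S : Finset ℕ) (A : ℕ → ℤ[X]) (e : ℕ → ℕ → ℕ) {j : ℕ}
    (hj : j ∈ S)
    (hosc : ∀ r ∈ S, r ≠ j → Tendsto (fun n => |(e n r : ℤ) - e n j|) (U : Filter ℕ) atTop)
    (a b : ℝ) :
    Tendsto (fun n => ∫ θ in a..b,
      (∑ r ∈ S, Complex.exp (θ * Complex.I) ^ e n r * (cx (A r)).eval (Complex.exp (θ * Complex.I))) *
        Complex.exp (-(e n j * θ * Complex.I))) (U : Filter ℕ)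
      (𝓝 (∫ θ in a..b, (cx (A j)).eval (Complex.exp (θ * Complex.I)))) := by
  have key : ∀ n, (∫ θ in a..b,
      (∑ r ∈ S, Complex.exp (θ * Complex.I) ^ e n r * (cx (A r)).eval (Complex.exp (θ * Complex.I))) *
        Complex.exp (-(e n j * θ * Complex.I))) = ∑ r ∈ S, ∫ θ in a..b,
      (Complex.exp ((θ : ℂ) * Complex.I) ^ e n r * (cx (A r)).eval (Complex.exp ((θ : ℂ) * Complex.I))) *
        Complex.exp (-((e n j : ℂ) * (θ : ℂ) * Complex.I)) := by
    intro n
    rw [← intervalIntegral.integral_finset_sum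
      (fun r _ => (osc_cont (A r) (e n r) (e n j)).intervalIntegrable a b)]
    refine intervalIntegral.integral_congr fun θ _ => ?_
    simp only [Finset.sum_mul]
  have hlim : (∫ θ in a..b, (cx (A j)).eval (Complex.exp (θ * Complex.I))) =
      ∑ r ∈ S, if r = j then (∫ θ in a..b, (cx (A j)).eval (Complex.exp (θ * Complex.I))) else 0 := by
    rw [Finset.sum_ite_eq' S j, if_pos hj]
  rw [hlim]
  refine Tendsto.congr (fun n => (key n).symm) ?_
  refine tendsto_finset_sum S fun r hr => ?_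
  by_cases hrj : r = j
  · subst hrj
    rw [if_pos rfl]
    refine tendsto_const_nhds.congr fun n => ?_
    refine intervalIntegral.integral_congr fun θ _ => ?_
    change (cx (A r)).eval (Complex.exp ((θ : ℂ) * Complex.I)) =
      (Complex.exp ((θ : ℂ) * Complex.I) ^ e n r * (cx (A r)).eval (Complex.exp ((θ : ℂ) * Complex.I))) *
        Complex.exp (-((e n r : ℂ) * (θ : ℂ) * Complex.I))
    rw [← Complex.exp_nat_mul]
    have h : ∀ x y z : ℂ, x * y * z = y * (x * z) := fun x y z => by ring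
    rw [h, ← Complex.exp_add]
    have h2 : (e n r : ℂ) * ((θ : ℂ) * Complex.I) + -((e n r : ℂ) * (θ : ℂ) * Complex.I) = 0 := by ring
    rw [h2, Complex.exp_zero, mul_one]
  · rw [if_neg hrj]
    have h1 : ∀ n, (∫ θ in a..b,
        (Complex.exp ((θ : ℂ) * Complex.I) ^ e n r * (cx (A r)).eval (Complex.exp ((θ : ℂ) * Complex.I))) *
          Complex.exp (-((e n j : ℂ) * (θ : ℂ) * Complex.I))) =
        ∑ i ∈ (A r).support, ((A r).coeff i : ℂ) * ∫ θ in a..b,
          Complex.exp ((((e n r : ℤ) - (e n j : ℤ) + (i : ℤ) : ℤ) : ℂ) * (θ : ℂ) * Complex.I) := by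
      intro n
      have h2 : (∫ θ in a..b,
        (Complex.exp ((θ : ℂ) * Complex.I) ^ e n r * (cx (A r)).eval (Complex.exp ((θ : ℂ) * Complex.I))) *
          Complex.exp (-((e n j : ℂ) * (θ : ℂ) * Complex.I))) =
        ∫ θ in a..b, ∑ i ∈ (A r).support, ((A r).coeff i : ℂ) *
          Complex.exp ((((e n r : ℤ) - (e n j : ℤ) + (i : ℤ) : ℤ) : ℂ) * (θ : ℂ) * Complex.I) :=
        intervalIntegral.integral_congr fun θ _ => osc_point (A r) (e n r) (e n j) θ
      rw [h2, intervalIntegral.integral_finset_sum]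
      · refine Finset.sum_congr rfl fun i _ => ?_
        rw [intervalIntegral.integral_const_mul]
      · intro i _
        refine Continuous.intervalIntegrable ?_ a b
        fun_prop
    refine Tendsto.congr (fun n => (h1 n).symm) ?_
    have h0 : (0 : ℂ) = ∑ i ∈ (A r).support, ((A r).coeff i : ℂ) * 0 := by simp
    rw [h0]
    refine tendsto_finset_sum _ fun i _ => ?_
    refine Tendsto.const_mul _ ?_
    refine osc_tendsto ?_ a b
    have h3 := hosc r hr hrj
    have h4 : Tendsto (fun n => |(e n r : ℤ) - e n j| + -(i : ℤ)) (U : Filter ℕ) atTop :=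
      tendsto_atTop_add_const_right _ _ h3
    refine tendsto_atTop_mono (fun n => ?_) h4
    have h5 := abs_add_le ((e n r : ℤ) - (e n j : ℤ) + (i : ℤ)) (-(i : ℤ))
    rw [add_neg_cancel_right, abs_neg, abs_of_nonneg (Int.natCast_nonneg i)] at h5
    linarith

end SalemLen
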