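import Pool.Agent.Lib.MP_9599cf_ntA.Meas
import Pool.Agent.Lib.MP_9599cf_ntA.Osc

/-! # Choice of a point of the unit circle -/

set_option autoImplicit false

namespace SalemLen

open Polynomial Filter Topology

private theorem Pick_eval (S : Finset ℕ) (A : ℕ → ℤ[X]) (g : ℕ → ℕ) (z : ℂ) :
    (cx (∑ r ∈ S, X ^ g r * A r)).eval z = ∑ r ∈ S, z ^ g r * (cx (A r)).eval z := by
  rw [cx, Polynomial.map_sum, eval_finsetSum]
  refine Finset.sum_congr rfl fun r _ => ?_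
  rw [Polynomial.map_mul, Polynomial.map_pow, map_X, eval_mul, eval_pow, eval_X, cx]

private theorem Pick_coeff (S : Finset ℕ) (A : ℕ → ℤ[X]) (g : ℕ → ℕ) (h0 : 0 ∈ S) (hg0 : g 0 = 0)
    (hg : ∀ r ∈ S, r ≠ 0 → 0 < g r) : (∑ r ∈ S, X ^ g r * A r).coeff 0 = (A 0).coeff 0 := by
  rw [finsetSum_coeff, Finset.sum_eq_single_of_mem 0 h0]
  · rw [hg0, pow_zero, one_mul]
  · intro r hr hr0
    have := hg r hr hr0
    rw [coeff_X_pow_mul', if_neg (by omega)]

private theorem Pick_bound (A : ℕ → ℤ[X]) : ∃ L : ℕ → ℝ, (∀ r, 0 ≤ L r) ∧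
    ∀ r (z : ℂ), ‖z‖ = 1 → ‖(cx (A r)).eval z‖ ≤ L r := by
  have h : ∀ r, ∃ L : ℝ, 0 ≤ L ∧ ∀ z : ℂ, ‖z‖ = 1 → ‖(cx (A r)).eval z‖ ≤ L := by
    intro r
    obtain ⟨L, hL⟩ := (isCompact_sphere (0 : ℂ) 1).exists_bound_of_continuousOn
      (cx (A r)).continuous.continuousOn
    refine ⟨L, (norm_nonneg _).trans (hL 1 (by simp)), fun z hz => hL z (by simpa using hz)⟩
  choose L h1 h2 using h
  exact ⟨L, h1, h2⟩

private theorem Pick_sum_le (S : Finset ℕ) (A : ℕ → ℤ[X]) (g : ℕ → ℕ) {L : ℕ → ℝ}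
    (hL : ∀ r (z : ℂ), ‖z‖ = 1 → ‖(cx (A r)).eval z‖ ≤ L r) {z : ℂ} (hz : ‖z‖ = 1) :
    ‖∑ r ∈ S, z ^ g r * (cx (A r)).eval z‖ ≤ ∑ r ∈ S, L r := by
  refine (norm_sum_le _ _).trans (Finset.sum_le_sum fun r _ => ?_)
  rw [norm_mul, norm_pow, hz, one_pow, one_mul]
  exact hL r z hz

private theorem Pick_int {a b c K v : ℝ} (hab : a ≤ b) (hc : 0 ≤ c) (hK : 0 ≤ K) (hv : 0 ≤ v)
    {f : ℝ → ℂ} (hf : Continuous f) (hfK : ∀ θ, ‖f θ‖ ≤ K) {E : Set ℝ} (hE : MeasurableSet E)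
    (hEv : MeasureTheory.volume E ≤ ENNReal.ofReal v)
    (h : ∀ θ ∈ Set.Icc a b, ‖f θ‖ < c ∨ θ ∈ E) :
    ∫ θ in a..b, ‖f θ‖ ≤ (b - a) * c + K * v := by
  have hind : IntervalIntegrable (E.indicator fun _ => (1 : ℝ)) MeasureTheory.volume a b :=
    (intervalIntegrable_iff_integrableOn_Ioc_of_le hab).2
      ((MeasureTheory.integrable_const (1 : ℝ)).indicator hE)
  have hcst : IntervalIntegrable (fun _ : ℝ => c) MeasureTheory.volume a b :=
    intervalIntegrable_const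
  have h1 : ∫ θ in a..b, ‖f θ‖ ≤
      ∫ θ in a..b, (c + K * E.indicator (fun _ => (1 : ℝ)) θ) := by
    refine intervalIntegral.integral_mono_on hab (hf.norm.intervalIntegrable _ _)
      (hcst.add (hind.const_mul K)) ?_
    intro θ hθ
    by_cases hθE : θ ∈ E
    · rw [Set.indicator_of_mem hθE, mul_one]
      linarith [hfK θ]
    · rw [Set.indicator_of_notMem hθE, mul_zero, add_zero]
      rcases h θ hθ with h | h
      · exact h.le
      · exact absurd h hθE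
  have h2 : ∫ θ in a..b, (c + K * E.indicator (fun _ => (1 : ℝ)) θ) =
      (b - a) * c + K * ∫ θ in a..b, E.indicator (fun _ => (1 : ℝ)) θ := by
    rw [intervalIntegral.integral_add hcst (hind.const_mul K), intervalIntegral.integral_const,
      intervalIntegral.integral_const_mul, smul_eq_mul]
  have h3 : ∫ θ in a..b, E.indicator (fun _ => (1 : ℝ)) θ ≤ v := by
    rw [intervalIntegral.integral_of_le hab, MeasureTheory.integral_indicator_const (1 : ℝ) hE,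
      smul_eq_mul, mul_one]
    refine ENNReal.toReal_le_of_le_ofReal hv (le_trans ?_ hEv)
    exact MeasureTheory.Measure.le_iff'.1 MeasureTheory.Measure.restrict_le_self E
  have h4 := mul_le_mul_of_nonneg_left h3 hK
  linarith

private theorem Pick_norm (θ : ℝ) : ‖Complex.exp (θ * Complex.I)‖ = 1 :=
  Complex.norm_exp_ofReal_mul_I θ

private theorem Pick_cont (S : Finset ℕ) (A : ℕ → ℤ[X]) (g : ℕ → ℕ) :
    Continuous fun θ : ℝ => ∑ r ∈ S, Complex.exp (θ * Complex.I) ^ g r *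
      (cx (A r)).eval (Complex.exp (θ * Complex.I)) := by
  have hW : Continuous fun θ : ℝ => Complex.exp (θ * Complex.I) := by fun_prop
  refine continuous_finsetSum _ fun r _ => ?_
  exact (hW.pow _).mul ((cx (A r)).continuous.comp hW)

/-- PROOF. Write `ω = exp (I θ0)`, `α = ‖(cx (A j)).eval ω‖ > 0`. Choose `0 < δ ≤ min ε 1` with
`‖(cx (A j)).eval (exp (I θ)) - (cx (A j)).eval ω‖ ≤ α / 4` for `|θ - θ0| ≤ δ`. Let `K ≥ 1` be a bound for
`∑ r ∈ S0 ∪ S1, len (A r)`, so the sums `p n (z) = ∑ r ∈ S0, z ^ e n r * A r (z)` (an integer polynomial evaluated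
at `z`, with nonzero constant term for almost all `n` by `h00`, `hpos`) and `q n (z) = ∑ r ∈ S1, ...` are bounded
by `K` on the unit circle. Let `J = [θ0 - δ, θ0 + δ]`. By `tendsto_osc` on `J`, for almost all `n`
`∫ J ‖q n‖ ≥ ‖∫ J q n * exp (- I e n j θ)‖ ≥ (‖∫ J A j‖ - small) ≥ 2 δ * α / 2` (as
`‖∫ J A j‖ ≥ 2 δ α (3 / 4)`). Choose `0 < η < 1` with
`K * (2 π log K / log (1 / η)) < 2 δ α / 4`. If all `θ ∈ J` had `‖q n‖ < α / 4` or `‖p n‖ < η`, then
`∫ J ‖q n‖ ≤ 2 δ * α / 4 + K * vol {θ ∈ J : ‖p n‖ < η} < 2 δ α / 2` by `volume_small` with `a = θ0 - π`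
(`J ⊆ [θ0 - π, θ0 + π]`), a contradiction. So there is `θ ∈ J` with both; `z = exp (I θ)` has
`‖z - ω‖ ≤ |θ - θ0| ≤ ε`. -/
theorem exists_point (U : Ultrafilter ℕ) (S0 S1 : Finset ℕ) (A : ℕ → ℤ[X]) (e : ℕ → ℕ → ℕ)
    {j : ℕ} (hj : j ∈ S1) (h0 : 0 ∈ S0) (he : ∀ n, e n 0 = 0) (h00 : (A 0).coeff 0 ≠ 0)
    (hpos : ∀ r ∈ S0, r ≠ 0 → ∀ᶠ n in (U : Filter ℕ), 0 < e n r)
    (hosc : ∀ r ∈ S1, r ≠ j → Tendsto (fun n => |(e n r : ℤ) - e n j|) (U : Filter ℕ) atTop)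
    {ω : ℂ} (hω : ‖ω‖ = 1) (hA : (cx (A j)).eval ω ≠ 0) {ε : ℝ} (hε : 0 < ε) :
    ∃ η : ℝ, 0 < η ∧ ∀ᶠ n in (U : Filter ℕ), ∃ z : ℂ, ‖z‖ = 1 ∧ ‖z - ω‖ ≤ ε ∧
      η ≤ ‖∑ r ∈ S0, z ^ e n r * (cx (A r)).eval z‖ ∧
      ‖(cx (A j)).eval ω‖ / 4 ≤ ‖∑ r ∈ S1, z ^ e n r * (cx (A r)).eval z‖ := by
  obtain ⟨L, hL0, hL⟩ := Pick_bound A
  have hLS : ∀ S : Finset ℕ, 0 ≤ ∑ r ∈ S, L r := fun S => Finset.sum_nonneg fun r _ => hL0 r
  obtain ⟨K, hKdef⟩ : ∃ K : ℝ, K = 1 + ∑ r ∈ S0, L r + ∑ r ∈ S1, L r := ⟨_, rfl⟩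
  have hK1 : 1 ≤ K := by linarith [hLS S0, hLS S1]
  have hKS0 : ∑ r ∈ S0, L r ≤ K := by linarith [hLS S0, hLS S1]
  have hKS1 : ∑ r ∈ S1, L r ≤ K := by linarith [hLS S0, hLS S1]
  obtain ⟨θ0, hθ0⟩ : ∃ θ0 : ℝ, Complex.exp (θ0 * Complex.I) = ω := by
    refine ⟨Complex.arg ω, ?_⟩
    have h1 := Complex.norm_mul_exp_arg_mul_I ω
    rwa [hω, Complex.ofReal_one, one_mul] at h1
  obtain ⟨α, hα⟩ : ∃ α : ℝ, α = ‖(cx (A j)).eval ω‖ := ⟨_, rfl⟩
  have hα0 : 0 < α := by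
    rw [hα]
    exact norm_pos_iff.2 hA
  have hW : Continuous fun θ : ℝ => Complex.exp (θ * Complex.I) := by fun_prop
  have hF : Continuous fun θ : ℝ => (cx (A j)).eval (Complex.exp (θ * Complex.I)) :=
    (cx (A j)).continuous.comp hW
  obtain ⟨δ, hδ0, hδ1, hδW, hδF⟩ : ∃ δ : ℝ, 0 < δ ∧ δ ≤ 1 ∧
      (∀ θ : ℝ, |θ - θ0| ≤ δ → ‖Complex.exp (θ * Complex.I) - ω‖ ≤ ε) ∧
      ∀ θ : ℝ, |θ - θ0| ≤ δ →
        ‖(cx (A j)).eval (Complex.exp (θ * Complex.I)) - (cx (A j)).eval ω‖ ≤ α / 4 := by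
    have hc1 : ContinuousAt (fun θ : ℝ => Complex.exp (θ * Complex.I)) θ0 := hW.continuousAt
    have hc2 : ContinuousAt (fun θ : ℝ => (cx (A j)).eval (Complex.exp (θ * Complex.I))) θ0 :=
      hF.continuousAt
    obtain ⟨d1, hd1, h1⟩ := Metric.continuousAt_iff.1 hc1 ε hε
    obtain ⟨d2, hd2, h2⟩ := Metric.continuousAt_iff.1 hc2 (α / 4) (by positivity)
    refine ⟨min 1 (min (d1 / 2) (d2 / 2)), by positivity, min_le_left _ _, fun θ hθ => ?_,
      fun θ hθ => ?_⟩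
    · have h3 : dist θ θ0 < d1 := by
        rw [Real.dist_eq]
        have := hθ.trans ((min_le_right _ _).trans (min_le_left _ _))
        linarith
      have h4 := h1 h3
      rw [dist_eq_norm, hθ0] at h4
      exact h4.le
    · have h3 : dist θ θ0 < d2 := by
        rw [Real.dist_eq]
        have := hθ.trans ((min_le_right _ _).trans (min_le_right _ _))
        linarith
      have h4 := h2 h3
      rw [dist_eq_norm, hθ0] at h4
      exact h4.le
  obtain ⟨Λ, hΛ⟩ : ∃ Λ : ℝ, Λ = K * (2 * Real.pi * Real.log K) := ⟨_, rfl⟩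
  have hlogK : 0 ≤ Real.log K := Real.log_nonneg hK1
  have hΛ0 : 0 ≤ Λ := by
    rw [hΛ]
    have := Real.pi_pos
    positivity
  have hδα : 0 < δ * α := by positivity
  obtain ⟨t, ht⟩ : ∃ t : ℝ, t = 2 * Λ / (δ * α) + 1 := ⟨_, rfl⟩
  have ht1 : 1 ≤ t := by
    rw [ht]
    have : 0 ≤ 2 * Λ / (δ * α) := by positivity
    linarith
  have ht0 : 0 < t := by linarith
  have hlogη : Real.log (1 / Real.exp (-t)) = t := by
    rw [one_div, ← Real.exp_neg, neg_neg, Real.log_exp]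
  have hη1 : Real.exp (-t) < 1 := by
    rw [Real.exp_lt_one_iff]
    linarith
  have hsmall : K * (2 * Real.pi * Real.log K / Real.log (1 / Real.exp (-t))) < δ * α / 2 := by
    rw [hlogη, ← mul_div_assoc, ← hΛ, div_lt_iff₀ ht0, ht]
    have : δ * α / 2 * (2 * Λ / (δ * α) + 1) = Λ + δ * α / 2 := by
      field_simp
    rw [this]
    linarith
  refine ⟨Real.exp (-t), Real.exp_pos _, ?_⟩
  -- the main term
  have hI : δ * α < ‖∫ θ in (θ0 - δ)..(θ0 + δ),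
      (cx (A j)).eval (Complex.exp (θ * Complex.I))‖ := by
    have h1 : ‖(∫ θ in (θ0 - δ)..(θ0 + δ), (cx (A j)).eval (Complex.exp (θ * Complex.I))) -
        ∫ _θ in (θ0 - δ)..(θ0 + δ), (cx (A j)).eval ω‖ ≤ α / 4 * |θ0 + δ - (θ0 - δ)| := by
      rw [← intervalIntegral.integral_sub (hF.intervalIntegrable _ _) intervalIntegrable_const]
      refine intervalIntegral.norm_integral_le_of_norm_le_const fun θ hθ => hδF θ ?_
      rw [Set.uIoc_of_le (by linarith)] at hθ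
      rw [abs_le]
      constructor <;> linarith [hθ.1, hθ.2]
    rw [intervalIntegral.integral_const] at h1
    have h2 : θ0 + δ - (θ0 - δ) = 2 * δ := by ring
    rw [h2, abs_of_pos (by linarith : 0 < 2 * δ)] at h1
    have h3 : ‖(2 * δ) • (cx (A j)).eval ω‖ = 2 * δ * α := by
      rw [norm_smul, Real.norm_eq_abs, abs_of_pos (by linarith : 0 < 2 * δ), hα]
    have h4 := norm_sub_norm_le ((2 * δ) • (cx (A j)).eval ω)
      (∫ θ in (θ0 - δ)..(θ0 + δ), (cx (A j)).eval (Complex.exp (θ * Complex.I)))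
    rw [norm_sub_rev, h3] at h4
    nlinarith
  have hT := (tendsto_osc U S1 A e hj hosc (θ0 - δ) (θ0 + δ)).norm
  have hev := (tendsto_order.1 hT).1 _ hI
  have hpos' : ∀ᶠ n in (U : Filter ℕ), ∀ r ∈ S0, r ≠ 0 → 0 < e n r := by
    rw [Filter.eventually_all_finset]
    intro r hr
    by_cases hr0 : r = 0
    · exact Eventually.of_forall fun n h => absurd hr0 h
    · exact (hpos r hr hr0).mono fun n hn _ => hn
  filter_upwards [hev, hpos'] with n hn hp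
  by_contra hcon
  push Not at hcon
  set P : ℤ[X] := ∑ r ∈ S0, X ^ e n r * A r with hP
  have hP0 : P.coeff 0 ≠ 0 := by
    rw [hP, Pick_coeff S0 A (e n) h0 (he n) hp]
    exact h00
  have hPK : ∀ z : ℂ, ‖z‖ = 1 → ‖(cx P).eval z‖ ≤ K := by
    intro z hz
    rw [hP, Pick_eval]
    exact (Pick_sum_le S0 A (e n) hL hz).trans hKS0
  have hvol := volume_small hP0 hK1 hPK (Real.exp_pos (-t)) hη1 (θ0 - Real.pi)
  have hEm : MeasurableSet {θ : ℝ | θ ∈ Set.Icc (θ0 - Real.pi) (θ0 - Real.pi + 2 * Real.pi) ∧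
      ‖(cx P).eval (Complex.exp (θ * Complex.I))‖ < Real.exp (-t)} := by
    have h1 : Continuous fun θ : ℝ => ‖(cx P).eval (Complex.exp (θ * Complex.I))‖ :=
      ((cx P).continuous.comp hW).norm
    exact measurableSet_Icc.inter (measurableSet_lt h1.measurable measurable_const)
  have hv0 : 0 ≤ 2 * Real.pi * Real.log K / Real.log (1 / Real.exp (-t)) := by
    rw [hlogη]
    have := Real.pi_pos
    positivity
  have hint := Pick_int (a := θ0 - δ) (b := θ0 + δ) (c := α / 4) (by linarith) (by positivity)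
    (by linarith : 0 ≤ K) hv0 (Pick_cont S1 A (e n))
    (fun θ => (Pick_sum_le S1 A (e n) hL (Pick_norm θ)).trans hKS1) hEm hvol (by
      intro θ hθ
      by_cases hη : Real.exp (-t) ≤ ‖(cx P).eval (Complex.exp (θ * Complex.I))‖
      · left
        have habs : |θ - θ0| ≤ δ := by
          rw [abs_le]
          constructor <;> linarith [hθ.1, hθ.2]
        rw [hα]
        refine hcon _ (Pick_norm θ) (hδW θ habs) ?_
        rw [hP, Pick_eval] at hη
        exact hη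
      · right
        have hpi := Real.pi_gt_three
        refine ⟨⟨?_, ?_⟩, not_le.1 hη⟩
        · linarith [hθ.1]
        · linarith [hθ.2])
  have hle : ‖∫ θ in (θ0 - δ)..(θ0 + δ),
      (∑ r ∈ S1, Complex.exp (θ * Complex.I) ^ e n r *
        (cx (A r)).eval (Complex.exp (θ * Complex.I))) *
        Complex.exp (-(e n j * θ * Complex.I))‖ ≤ ∫ θ in (θ0 - δ)..(θ0 + δ),
      ‖∑ r ∈ S1, Complex.exp (θ * Complex.I) ^ e n r *
        (cx (A r)).eval (Complex.exp (θ * Complex.I))‖ := by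
    refine (intervalIntegral.norm_integral_le_integral_norm (by linarith)).trans (le_of_eq ?_)
    refine intervalIntegral.integral_congr fun θ _ => ?_
    have h1 : -((e n j : ℂ) * θ * Complex.I) = ((-(e n j * θ) : ℝ) : ℂ) * Complex.I := by
      push_cast
      ring
    show ‖_ * _‖ = ‖_‖
    rw [norm_mul, h1, Complex.norm_exp_ofReal_mul_I, mul_one]
  have h5 : θ0 + δ - (θ0 - δ) = 2 * δ := by ring
  rw [h5] at hint
  have h6 := hn.trans_le (hle.trans hint)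
  linarith

end SalemLen
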