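import Pool.Agent.Lib.MP_9599cf_ntA.Gap

/-! # The ratios of the exponents -/

set_option autoImplicit false

namespace SalemLen

open Filter Topology

private theorem ratio_e_atTop (U : Ultrafilter ℕ) (s : ℕ) (e : ℕ → ℕ → ℕ)
    (hgap : ∀ r, r + 1 < s → Tendsto (fun n => (e n (r + 1) : ℤ) - e n r) (U : Filter ℕ) atTop) :
    ∀ r, 0 < r → r < s → ∀ M : ℕ, ∀ᶠ n in (U : Filter ℕ), M ≤ e n r := by
  intro r hr hrs M
  obtain ⟨q, rfl⟩ : ∃ q, r = q + 1 := ⟨r - 1, by omega⟩
  filter_upwards [(hgap q hrs).eventually (eventually_ge_atTop (M : ℤ))] with n hn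
  omega

private theorem ratio_mono (U : Ultrafilter ℕ) (s : ℕ) (e : ℕ → ℕ → ℕ)
    (hgap : ∀ r, r + 1 < s → Tendsto (fun n => (e n (r + 1) : ℤ) - e n r) (U : Filter ℕ) atTop)
    (j : ℕ) : ∀ d, j + d < s → ∀ᶠ n in (U : Filter ℕ), e n j ≤ e n (j + d) := by
  intro d
  induction d with
  | zero => intro _; exact Filter.Eventually.of_forall fun n => le_rfl
  | succ d ih =>
    intro h
    filter_upwards [ih (by omega),
      (hgap (j + d) (by omega)).eventually (eventually_ge_atTop (0 : ℤ))] with n h1 h2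
    have h3 : j + (d + 1) = j + d + 1 := by omega
    rw [h3]
    omega

/-- PROOF. For `r < s` let `f r n = e n r / e n j`. The ultrafilter `U.map (f r)`: either it is bounded (for some
`M`, `f r n ≤ M` for almost all `n`), then it converges (`isCompact_Icc.ultrafilter_le_nhds` or
`IsCompact.ultrafilter_le_nhds'`) to some `lam r ≥ 0`; or for every `M` almost all `n` have `f r n > M`, i.e. `f r`
tends to `atTop`. `S` is the set of the `r < s` of the first kind. `lam 0 = 0` as `f 0 = 0`; `lam j = 1` as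
`f j n = 1` when `e n j > 0`, which holds for almost all `n` since `e n j → ∞` (sum of the gaps, `j > 0`). If
`r > j` then `e n r ≥ e n j` for almost all `n`, so `lam r ≥ 1`; `lam j = 1`: so `lam r = 0` implies `r < j`. -/
theorem exists_ratio (U : Ultrafilter ℕ) (s : ℕ) (e : ℕ → ℕ → ℕ) (he : ∀ n, e n 0 = 0)
    (hgap : ∀ r, r + 1 < s → Tendsto (fun n => (e n (r + 1) : ℤ) - e n r) (U : Filter ℕ) atTop)
    {j : ℕ} (hj : 0 < j) (hjs : j < s) :
    ∃ (S : Finset ℕ) (lam : ℕ → ℝ), S ⊆ Finset.range s ∧ 0 ∈ S ∧ j ∈ S ∧ lam 0 = 0 ∧ lam j = 1 ∧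
      (∀ r ∈ S, 0 ≤ lam r ∧
        Tendsto (fun n => (e n r : ℝ) / e n j) (U : Filter ℕ) (𝓝 (lam r))) ∧
      (∀ r ∈ S, lam r = 0 → r < j) ∧
      (∀ r ∈ Finset.range s, r ∉ S →
        Tendsto (fun n => (e n r : ℝ) / e n j) (U : Filter ℕ) atTop) := by
  classical
  let f : ℕ → ℕ → ℝ := fun r n => (e n r : ℝ) / e n j
  have hf0 : ∀ r n, 0 ≤ f r n := fun r n => by positivity
  -- the bounded ones
  let Q : ℕ → Prop := fun r => ∃ M : ℝ, ∀ᶠ n in (U : Filter ℕ), f r n ≤ M
  have hconv : ∀ r, Q r → ∃ l : ℝ, 0 ≤ l ∧ Tendsto (f r) (U : Filter ℕ) (𝓝 l) := by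
    rintro r ⟨M, hM⟩
    have h1 : ((U.map (f r) : Ultrafilter ℝ) : Filter ℝ) ≤ 𝓟 (Set.Icc 0 M) := by
      rw [Filter.le_principal_iff, Ultrafilter.coe_map, Filter.mem_map]
      filter_upwards [hM] with n hn
      exact ⟨hf0 r n, hn⟩
    obtain ⟨l, hl, h2⟩ := isCompact_Icc.ultrafilter_le_nhds _ h1
    exact ⟨l, hl.1, by rwa [Ultrafilter.coe_map] at h2⟩
  have htop : ∀ r, ¬ Q r → Tendsto (f r) (U : Filter ℕ) atTop := by
    intro r hr
    rw [tendsto_atTop]
    intro M
    have h1 : ¬ ∀ᶠ n in (U : Filter ℕ), f r n ≤ M := fun h => hr ⟨M, h⟩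
    have h2 : ∀ᶠ n in (U : Filter ℕ), ¬ f r n ≤ M := Ultrafilter.eventually_not.2 h1
    filter_upwards [h2] with n hn
    exact (not_le.1 hn).le
  choose! lam hlam using hconv
  have hpos : ∀ᶠ n in (U : Filter ℕ), 1 ≤ e n j := ratio_e_atTop U s e hgap j hj hjs 1
  have hj1 : Tendsto (f j) (U : Filter ℕ) (𝓝 1) := by
    refine (tendsto_const_nhds (x := (1 : ℝ))).congr' ?_
    filter_upwards [hpos] with n hn
    have : (e n j : ℝ) ≠ 0 := by
      have : 0 < e n j := hn
      positivity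
    exact (div_self this).symm
  have h01 : Tendsto (f 0) (U : Filter ℕ) (𝓝 0) := by
    refine (tendsto_const_nhds (x := (0 : ℝ))).congr fun n => ?_
    change (0 : ℝ) = (e n 0 : ℝ) / e n j
    rw [he n, Nat.cast_zero, zero_div]
  have hQ0 : Q 0 := ⟨0, Filter.Eventually.of_forall fun n => by
    change (e n 0 : ℝ) / e n j ≤ 0
    rw [he n, Nat.cast_zero, zero_div]⟩
  have hQj : Q j := ⟨1, by
    filter_upwards [hpos] with n hn
    have : (e n j : ℝ) ≠ 0 := by
      have : 0 < e n j := hn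
      positivity
    exact (div_self this).le⟩
  have hl0 : lam 0 = 0 := tendsto_nhds_unique (hlam 0 hQ0).2 h01
  have hlj : lam j = 1 := tendsto_nhds_unique (hlam j hQj).2 hj1
  refine ⟨(Finset.range s).filter Q, lam, Finset.filter_subset _ _, ?_, ?_, hl0, hlj, ?_, ?_, ?_⟩
  · exact Finset.mem_filter.2 ⟨Finset.mem_range.2 (by omega), hQ0⟩
  · exact Finset.mem_filter.2 ⟨Finset.mem_range.2 hjs, hQj⟩
  · intro r hr
    exact hlam r (Finset.mem_filter.1 hr).2
  · intro r hr h0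
    by_contra hrj
    have hrs : r < s := Finset.mem_range.1 (Finset.mem_filter.1 hr).1
    have h1 : ∀ᶠ n in (U : Filter ℕ), (1 : ℝ) ≤ f r n := by
      have h2 := ratio_mono U s e hgap j (r - j) (by omega)
      have h3 : j + (r - j) = r := by omega
      rw [h3] at h2
      filter_upwards [h2, hpos] with n hn h4
      have h5 : (0 : ℝ) < e n j := by exact_mod_cast h4
      change (1 : ℝ) ≤ (e n r : ℝ) / e n j
      rw [le_div_iff₀ h5, one_mul]
      exact_mod_cast hn
    have h6 : (1 : ℝ) ≤ lam r :=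
      ge_of_tendsto (hlam r (Finset.mem_filter.1 hr).2).2 h1
    rw [h0] at h6
    linarith
  · intro r hr hrS
    refine htop r fun h => hrS (Finset.mem_filter.2 ⟨hr, h⟩)

end SalemLen
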