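import Pool.Agent.Lib.MP_9599cf_ntA.Zoom
import Pool.Agent.Lib.MP_9599cf_ntA.Pick
import Pool.Agent.Lib.MP_9599cf_ntA.ExpSum
import Pool.Agent.Lib.MP_9599cf_ntA.Ratio
import Pool.Agent.Lib.MP_9599cf_ntA.Lip

/-! # The limit function for a small arc -/

set_option autoImplicit false

namespace SalemLen

open Polynomial Filter Topology

/-- PROOF. Let `S0`, `S1` be the `r ∈ S` with `lam r = 0`, `lam r = 1`. `C = ∑ r ∈ S0, C r` with `C r` from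
`exists_lip` (`r < j` by `h3`, `hωr`). Given `ε`, take `η` from `exists_point` (for `hosc`: `gap_tendsto` for
`r < j` and `r > j`, absolute value; `hpos`: `gap_tendsto` from `0`), and `z n` on the unit circle for almost all
`n`, changed to `ω` for the other `n`. Let `z0 = lim z n`, `y r = lim z n ^ e n r` along `U`
(`exists_tendsto_sphere`). Put `g l = ∑ r ∈ S with lam r = l, (cx (A r)).eval z0 * y r`. As a limit of
`∑ r ∈ S0, z n ^ e n r * (cx (A r)).eval (z n)`, `‖g 0‖ ≥ η > 0` and `‖g 0‖ ≤ C * ε`; similarly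
`‖g 1‖ ≥ ‖(cx (A j)).eval ω‖ / 4`. Finally `es (S.image lam) g w = ∑ r ∈ S, (cx (A r)).eval z0 * y r *
exp (I * lam r * w)` (`Finset.sum_fiberwise_of_maps_to` after expanding), which is not zero by `zoom`
(`hj`: `gap_tendsto` from `0`, cast to the reals). -/
theorem core_eps (U : Ultrafilter ℕ) (s : ℕ) (A : ℕ → ℤ[X]) (e : ℕ → ℕ → ℕ)
    (he : ∀ n, e n 0 = 0) (hA0 : (A 0).coeff 0 ≠ 0)
    (hgap : ∀ r, r + 1 < s → Tendsto (fun n => (e n (r + 1) : ℤ) - e n r) (U : Filter ℕ) atTop)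
    {j : ℕ} (hj : 0 < j) (hjs : j < s) {S : Finset ℕ} {lam : ℕ → ℝ} (hS : S ⊆ Finset.range s)
    (h0S : 0 ∈ S) (hjS : j ∈ S) (hl0 : lam 0 = 0) (hlj : lam j = 1)
    (h1 : ∀ r ∈ S, 0 ≤ lam r ∧
        Tendsto (fun n => (e n r : ℝ) / e n j) (U : Filter ℕ) (𝓝 (lam r)))
    (h3 : ∀ r ∈ S, lam r = 0 → r < j)
    (h2 : ∀ r ∈ Finset.range s, r ∉ S →
        Tendsto (fun n => (e n r : ℝ) / e n j) (U : Filter ℕ) atTop)
    {ρ : ℝ} (hρ : ρ < 1)
    (hnz : ∀ᶠ n in (U : Filter ℕ), ∀ z : ℂ, ρ < ‖z‖ → ‖z‖ < 1 →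
      (cx (∑ r ∈ Finset.range s, X ^ e n r * A r)).eval z ≠ 0)
    {ω : ℂ} (hω : ‖ω‖ = 1) (hωr : ∀ r, r < j → (cx (A r)).eval ω = 0)
    (hωj : (cx (A j)).eval ω ≠ 0) :
    ∃ C : ℝ, ∀ ε : ℝ, 0 < ε → ∃ g : ℝ → ℂ, g 0 ≠ 0 ∧ ‖g 0‖ ≤ C * ε ∧
      ‖(cx (A j)).eval ω‖ / 4 ≤ ‖g 1‖ ∧ ∀ w : ℂ, 0 < w.im → es (S.image lam) g w ≠ 0 := by
  classical
  set S0 : Finset ℕ := S.filter (fun r => lam r = 0) with hS0
  set S1 : Finset ℕ := S.filter (fun r => lam r = 1) with hS1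
  have hlip : ∀ r, ∃ C : ℝ, 0 ≤ C ∧ (r ∈ S0 → ∀ z : ℂ, ‖z‖ = 1 →
      ‖(cx (A r)).eval z‖ ≤ C * ‖z - ω‖) := by
    intro r
    by_cases hr : r ∈ S0
    · obtain ⟨hrS, hr0⟩ := Finset.mem_filter.1 hr
      obtain ⟨C, hC, h⟩ := exists_lip (hωr r (h3 r hrS hr0))
      exact ⟨C, hC, fun _ => h⟩
    · exact ⟨0, le_rfl, fun h => absurd h hr⟩
  choose Cf hCf0 hCf using hlip
  refine ⟨∑ r ∈ S0, Cf r, fun ε hε => ?_⟩
  -- the exponents
  have hpos' : ∀ r, r ≠ 0 → r < s → Tendsto (fun n => (e n r : ℤ)) (U : Filter ℕ) atTop := by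
    intro r hr hrs
    have h := gap_tendsto U s e hgap (r := 0) (r' := r) (Nat.pos_of_ne_zero hr) hrs
    have e1 : (fun n => (e n r : ℤ) - e n 0) = fun n => (e n r : ℤ) := by
      funext n
      rw [he n, Nat.cast_zero, sub_zero]
    rwa [e1] at h
  have hpos : ∀ r ∈ S0, r ≠ 0 → ∀ᶠ n in (U : Filter ℕ), 0 < e n r := by
    intro r hr hr0
    have hrs : r < s := Finset.mem_range.1 (hS (Finset.mem_filter.1 hr).1)
    filter_upwards [(hpos' r hr0 hrs).eventually_gt_atTop 0] with n hn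
    exact_mod_cast hn
  have hosc : ∀ r ∈ S1, r ≠ j →
      Tendsto (fun n => |(e n r : ℤ) - e n j|) (U : Filter ℕ) atTop := by
    intro r hr hrj
    have hrs : r < s := Finset.mem_range.1 (hS (Finset.mem_filter.1 hr).1)
    rcases lt_or_gt_of_ne hrj with h | h
    · have h4 := tendsto_abs_atTop_atTop.comp (gap_tendsto U s e hgap h hjs)
      have e1 : (fun n => |(e n r : ℤ) - e n j|) =
          (fun x : ℤ => |x|) ∘ fun n => (e n j : ℤ) - e n r := by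
        funext n
        exact abs_sub_comm _ _
      rw [e1]
      exact h4
    · exact tendsto_abs_atTop_atTop.comp (gap_tendsto U s e hgap h hrs)
  have hj1 : j ∈ S1 := Finset.mem_filter.2 ⟨hjS, hlj⟩
  have h00 : 0 ∈ S0 := Finset.mem_filter.2 ⟨h0S, hl0⟩
  obtain ⟨η, hη, hev⟩ := exists_point U S0 S1 A e hj1 h00 he hA0 hpos hosc hω hωj hε
  -- the points
  have hzex : ∀ n, ∃ z : ℂ, ‖z‖ = 1 ∧ ((∃ z' : ℂ, ‖z'‖ = 1 ∧ ‖z' - ω‖ ≤ ε ∧
      η ≤ ‖∑ r ∈ S0, z' ^ e n r * (cx (A r)).eval z'‖ ∧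
      ‖(cx (A j)).eval ω‖ / 4 ≤ ‖∑ r ∈ S1, z' ^ e n r * (cx (A r)).eval z'‖) →
      (‖z - ω‖ ≤ ε ∧ η ≤ ‖∑ r ∈ S0, z ^ e n r * (cx (A r)).eval z‖ ∧
      ‖(cx (A j)).eval ω‖ / 4 ≤ ‖∑ r ∈ S1, z ^ e n r * (cx (A r)).eval z‖)) := by
    intro n
    by_cases h : ∃ z' : ℂ, ‖z'‖ = 1 ∧ ‖z' - ω‖ ≤ ε ∧
      η ≤ ‖∑ r ∈ S0, z' ^ e n r * (cx (A r)).eval z'‖ ∧
      ‖(cx (A j)).eval ω‖ / 4 ≤ ‖∑ r ∈ S1, z' ^ e n r * (cx (A r)).eval z'‖
    · obtain ⟨z', h1, h2⟩ := h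
      exact ⟨z', h1, fun _ => h2⟩
    · exact ⟨ω, hω, fun h' => absurd h' h⟩
  choose z hz hzP using hzex
  have hzev : ∀ᶠ n in (U : Filter ℕ), ‖z n - ω‖ ≤ ε ∧
      η ≤ ‖∑ r ∈ S0, z n ^ e n r * (cx (A r)).eval (z n)‖ ∧
      ‖(cx (A j)).eval ω‖ / 4 ≤ ‖∑ r ∈ S1, z n ^ e n r * (cx (A r)).eval (z n)‖ := by
    filter_upwards [hev] with n hn
    exact hzP n hn
  obtain ⟨z0, -, hz0⟩ := exists_tendsto_sphere U z hz
  have hyex : ∀ r, ∃ y : ℂ, Tendsto (fun n => z n ^ e n r) (U : Filter ℕ) (𝓝 y) := by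
    intro r
    obtain ⟨y, -, hy⟩ := exists_tendsto_sphere U (fun n => z n ^ e n r) (fun n => by
      rw [norm_pow, hz n, one_pow])
    exact ⟨y, hy⟩
  choose y hy using hyex
  have hlim : ∀ T : Finset ℕ, Tendsto (fun n => ∑ r ∈ T, z n ^ e n r * (cx (A r)).eval (z n))
      (U : Filter ℕ) (𝓝 (∑ r ∈ T, (cx (A r)).eval z0 * y r)) := by
    intro T
    apply tendsto_finsetSum
    intro r _
    have h4 : Tendsto (fun n => (cx (A r)).eval (z n)) (U : Filter ℕ)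
        (𝓝 ((cx (A r)).eval z0)) := ((cx (A r)).continuous.tendsto z0).comp hz0
    rw [mul_comm]
    exact (hy r).mul h4
  set g : ℝ → ℂ := fun l => ∑ r ∈ S with lam r = l, (cx (A r)).eval z0 * y r with hg
  have hg0 : g 0 = ∑ r ∈ S0, (cx (A r)).eval z0 * y r := rfl
  have hg1 : g 1 = ∑ r ∈ S1, (cx (A r)).eval z0 * y r := rfl
  have b0 : η ≤ ‖g 0‖ := by
    rw [hg0]
    exact ge_of_tendsto (hlim S0).norm (hzev.mono fun n hn => hn.2.1)
  have hgne : g 0 ≠ 0 := norm_pos_iff.1 (lt_of_lt_of_le hη b0)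
  refine ⟨g, hgne, ?_, ?_, ?_⟩
  · rw [hg0]
    refine le_of_tendsto (hlim S0).norm (hzev.mono fun n hn => ?_)
    refine (norm_sum_le _ _).trans ?_
    rw [Finset.sum_mul]
    apply Finset.sum_le_sum
    intro r hr
    rw [norm_mul, norm_pow, hz n, one_pow, one_mul]
    exact (hCf r hr (z n) (hz n)).trans (mul_le_mul_of_nonneg_left hn.1 (hCf0 r))
  · rw [hg1]
    exact ge_of_tendsto (hlim S1).norm (hzev.mono fun n hn => hn.2.2)
  · intro w hw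
    have hjR : Tendsto (fun n => (e n j : ℝ)) (U : Filter ℕ) atTop := by
      have h4 := (tendsto_intCast_atTop_atTop (R := ℝ)).comp (hpos' j hj.ne' hjs)
      refine h4.congr fun n => ?_
      simp
    have h5 := zoom U s A e hjR hS h1 h2 hρ hnz z hz hz0 y (fun r _ => hy r) hgne w hw
    have h6 : es (S.image lam) g w =
        ∑ r ∈ S, (cx (A r)).eval z0 * y r * Complex.exp (Complex.I * lam r * w) := by
      rw [es, ← Finset.sum_fiberwise_of_maps_to (g := lam) (t := S.image lam)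
        (fun r hr => Finset.mem_image_of_mem lam hr)]
      apply Finset.sum_congr rfl
      intro l _
      simp only [hg]
      rw [Finset.sum_mul]
      apply Finset.sum_congr rfl
      intro r hr
      rw [(Finset.mem_filter.1 hr).2]
    rw [h6]
    exact h5

end SalemLen
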