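import Mathlib

/-! # Entire functions of exponential type without zeros -/

set_option autoImplicit false

namespace SalemLen

open Complex

/-- PROOF. `F' / F` is entire, so it has a primitive `φ` (`Differentiable.isExactOn_univ` or
`DifferentiableOn.isExactOn_ball`), `F * exp (-φ)` has derivative zero, so `F = F 0 * exp (φ - φ 0)`. Let
`ψ = φ - φ 0`, `ψ 0 = 0`, `Re ψ w = log ‖F w‖ - log ‖F 0‖ ≤ C' * (1 + ‖w‖)`. By `Complex.borelCaratheodory_zero`
on the ball of radius `2 R`, `‖ψ w‖ ≤ C'' * (1 + R)` for `‖w‖ ≤ R`. By Cauchy's estimate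
(`Complex.norm_deriv_le_of_forall_mem_sphere_norm_le`) `deriv ψ` is bounded, so it is constant (Liouville:
`Differentiable.apply_eq_apply_of_bounded`). So `F' / F` is a constant `b`. -/
theorem exists_deriv_eq {F : ℂ → ℂ} (hF : Differentiable ℂ F) (hne : ∀ w, F w ≠ 0) {C : ℝ}
    (hC : ∀ w, ‖F w‖ ≤ Real.exp (C * (1 + ‖w‖))) : ∃ b : ℂ, ∀ w, deriv F w = b * F w := by
  have hdF : Differentiable ℂ (deriv F) := fun w => (hF.analyticAt w).deriv.differentiableAt
  have hG : Differentiable ℂ (fun w => deriv F w / F w) := fun w => (hdF w).div (hF w) (hne w)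
  obtain ⟨φ, hφ0, hφ⟩ := hG.isExactOn_univ.with_val_at 0 0
  have hφ' : ∀ w, HasDerivAt φ (deriv F w / F w) w := fun w => hφ w (Set.mem_univ w)
  have hφd : Differentiable ℂ φ := fun w => (hφ' w).differentiableAt
  -- `F = F 0 * exp φ`
  have hH : ∀ w, HasDerivAt (fun w => F w * Complex.exp (-φ w)) 0 w := by
    intro w
    have h1 := (hF w).hasDerivAt.mul ((hφ' w).neg.cexp)
    have e : deriv F w * Complex.exp (-φ w) + F w * (Complex.exp (-φ w) * -(deriv F w / F w)) = 0 := by
      have := hne w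
      field_simp
      ring
    rw [← e]
    exact h1
  have hconst : ∀ w, F w * Complex.exp (-φ w) = F 0 := by
    intro w
    have h1 := is_const_of_deriv_eq_zero (𝕜 := ℂ) (f := fun w => F w * Complex.exp (-φ w))
      (fun w => (hH w).differentiableAt) (fun w => (hH w).deriv) w 0
    simp only [hφ0, neg_zero, Complex.exp_zero, mul_one] at h1
    exact h1
  have hFe : ∀ w, F w = F 0 * Complex.exp (φ w) := by
    intro w
    rw [← hconst w, mul_assoc, ← Complex.exp_add, neg_add_cancel, Complex.exp_zero, mul_one]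
  set M : ℝ := |C| + |Real.log ‖F 0‖| + 1 with hM
  have hMpos : 0 < M := by positivity
  have hF0 : 0 < ‖F 0‖ := norm_pos_iff.2 (hne 0)
  have hre : ∀ w, (φ w).re ≤ M * (1 + ‖w‖) := by
    intro w
    have h1 : ‖F w‖ = ‖F 0‖ * Real.exp (φ w).re := by
      conv_lhs => rw [hFe w]
      rw [norm_mul, Complex.norm_exp]
    have h2 := hC w
    rw [h1] at h2
    have h3 : Real.log (‖F 0‖ * Real.exp (φ w).re) ≤ C * (1 + ‖w‖) := by
      rw [Real.log_le_iff_le_exp (mul_pos hF0 (Real.exp_pos _))]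
      exact h2
    rw [Real.log_mul hF0.ne' (Real.exp_pos _).ne', Real.log_exp] at h3
    have h4 : C * (1 + ‖w‖) ≤ |C| * (1 + ‖w‖) :=
      mul_le_mul_of_nonneg_right (le_abs_self C) (by positivity)
    have h5 : -|Real.log ‖F 0‖| ≤ Real.log ‖F 0‖ := neg_abs_le _
    have h6 : 0 ≤ |Real.log ‖F 0‖| * ‖w‖ := by positivity
    have h7 : 0 ≤ ‖w‖ := norm_nonneg w
    rw [hM]
    nlinarith
  have hbd : ∀ w, ‖φ w‖ ≤ 4 * M * (1 + ‖w‖) := by
    intro w
    have hw0 : 0 ≤ ‖w‖ := norm_nonneg w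
    have hR : (0 : ℝ) < 2 * ‖w‖ + 1 := by positivity
    have h1 := Complex.borelCaratheodory_zero (f := φ) (M := M * (1 + (2 * ‖w‖ + 1)))
      (R := 2 * ‖w‖ + 1) (z := w) (by positivity) hφd.differentiableOn
      (fun z hz => by
        have hz' : ‖z‖ < 2 * ‖w‖ + 1 := mem_ball_zero_iff.1 hz
        exact (hre z).trans (mul_le_mul_of_nonneg_left (by linarith) hMpos.le))
      hR (by rw [mem_ball_zero_iff]; linarith) hφ0
    refine h1.trans ?_
    rw [div_le_iff₀ (by linarith)]
    nlinarith [mul_nonneg hMpos.le hw0]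
  have hderiv : ∀ w, ‖deriv F w / F w‖ ≤ 8 * M := by
    intro w
    have hw0 : 0 ≤ ‖w‖ := norm_nonneg w
    have hR : (0 : ℝ) < 1 + ‖w‖ := by positivity
    have h1 := Complex.norm_deriv_le_of_forall_mem_sphere_norm_le (f := φ) (c := w)
      (C := 8 * M * (1 + ‖w‖)) hR hφd.diffContOnCl (fun z hz => by
        have hz' : ‖z‖ ≤ 1 + 2 * ‖w‖ := by
          have h2 : ‖z - w‖ = 1 + ‖w‖ := by
            rw [← dist_eq_norm]
            exact hz
          have h3 : ‖z‖ ≤ ‖z - w‖ + ‖w‖ := by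
            simpa using norm_add_le (z - w) w
          linarith
        refine (hbd z).trans ?_
        nlinarith)
    rw [(hφ' w).deriv] at h1
    refine h1.trans ?_
    rw [mul_div_assoc, div_self hR.ne', mul_one]
  have hb : Bornology.IsBounded (Set.range (fun w => deriv F w / F w)) := by
    rw [isBounded_iff_forall_norm_le]
    refine ⟨8 * M, ?_⟩
    rintro _ ⟨w, rfl⟩
    exact hderiv w
  refine ⟨deriv F 0 / F 0, fun w => ?_⟩
  have h1 := hG.apply_eq_apply_of_bounded hb w 0
  rw [← h1, div_mul_cancel₀ _ (hne w)]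

end SalemLen
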