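import Pool.Agent.Lib.MP_9599cf_ntL.LenCard
import Pool.Agent.Lib.MP_9599cf_ntL.Height

/-! # Bound of the length -/

set_option autoImplicit false

namespace SalemLen

open Polynomial

/-- The Mahler measure of a polynomial with a dominant root. -/
private theorem LenB_mahler {P : ℤ[X]} (hP : P.Monic) {t : ℝ} (ht : 1 < t) (hd : Dom P t) :
    (cx P).mahlerMeasure = t := by
  obtain ⟨Q, hQ, hz⟩ := hd
  have hm : (cx P).Monic := hP.map _
  have hQm : Q.Monic := by
    rw [hQ] at hm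
    exact (monic_X_sub_C (t : ℂ)).of_mul_monic_left hm
  have hQ0 : Q ≠ 0 := hQm.ne_zero
  have h1 : Q.mahlerMeasure = 1 := by
    rw [mahlerMeasure_eq_leadingCoeff_mul_prod_roots, hQm.leadingCoeff, norm_one, one_mul]
    refine Multiset.prod_eq_one ?_
    intro x hx
    obtain ⟨a, ha, rfl⟩ := Multiset.mem_map.1 hx
    exact max_eq_left (hz a ((mem_roots hQ0).1 ha))
  rw [hQ, mahlerMeasure_mul, mahlerMeasure_X_sub_C, h1, mul_one, Complex.norm_real,
    Real.norm_of_nonneg (by linarith)]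
  exact max_eq_right ht.le

/-- PROOF. As `len_le_of_card` (`LenCard.lean`): the Mahler measure of `cx P` is `t ≤ T`, so by `norm_coeff_le`
each coefficient is at most `2 ^ k * T` in absolute value, and there are at most `k` of them. Take
`B ≥ k * 2 ^ k * |T|`. -/
theorem exists_len_bound (k : ℕ) (T : ℝ) : ∃ B : ℕ, ∀ (P : ℤ[X]) (t : ℝ), P.Monic → 1 < t →
    t ≤ T → Dom P t → P.support.card ≤ k → len P ≤ B := by
  refine ⟨k * ⌈(2 : ℝ) ^ k * T⌉₊, fun P t hP ht htT hd hk => ?_⟩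
  have hM := LenB_mahler hP ht hd
  have hs : (cx P).support = P.support := by
    unfold cx
    exact support_map_of_injective P (RingHom.injective_int (Int.castRingHom ℂ))
  have hc : ∀ i, (P.coeff i).natAbs ≤ ⌈(2 : ℝ) ^ k * T⌉₊ := by
    intro i
    have h1 := norm_coeff_le (cx P) i
    rw [hs, hM] at h1
    have h2 : ‖(cx P).coeff i‖ = ((P.coeff i).natAbs : ℝ) := by
      unfold cx
      rw [coeff_map, eq_intCast, Complex.norm_intCast, Nat.cast_natAbs, Int.cast_abs]
    rw [h2] at h1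
    have h3 : (2 : ℝ) ^ P.support.card ≤ 2 ^ k := pow_le_pow_right₀ (by norm_num) hk
    have h4 : ((P.coeff i).natAbs : ℝ) ≤ ((⌈(2 : ℝ) ^ k * T⌉₊ : ℕ) : ℝ) := by
      refine le_trans ?_ (Nat.le_ceil _)
      refine h1.trans ?_
      exact mul_le_mul h3 htT (by linarith) (by positivity)
    exact_mod_cast h4
  calc len P = ∑ i ∈ P.support, (P.coeff i).natAbs := rfl
    _ ≤ P.support.card • ⌈(2 : ℝ) ^ k * T⌉₊ := Finset.sum_le_card_nsmul _ _ _ fun i _ => hc i
    _ = P.support.card * ⌈(2 : ℝ) ^ k * T⌉₊ := by rw [smul_eq_mul]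
    _ ≤ k * ⌈(2 : ℝ) ^ k * T⌉₊ := Nat.mul_le_mul_right _ hk

end SalemLen
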