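import Pool.Agent.Lib.MP_9599cf_ntL.Defs

/-! # Auxiliary statements -/

set_option autoImplicit false

namespace SalemLen

open Polynomial Filter Topology

/-- PROOF. `accPt_iff_frequently`: in each ball around `β` of radius `1 / (n + 1)` there is a point of the set
different from `β`; `choose`. -/
theorem exists_seq {s : Set ℝ} {β : ℝ} (h : AccPt β (𝓟 s)) :
    ∃ t : ℕ → ℝ, (∀ n, t n ∈ s) ∧ (∀ n, t n ≠ β) ∧ ∀ n, |t n - β| < 1 / ((n : ℝ) + 1) := by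
  rw [accPt_iff_frequently] at h
  have h1 : ∀ n : ℕ, ∃ y : ℝ, y ∈ s ∧ y ≠ β ∧ |y - β| < 1 / ((n : ℝ) + 1) := by
    intro n
    have hr : (0 : ℝ) < 1 / ((n : ℝ) + 1) := by positivity
    obtain ⟨y, ⟨hy1, hy2⟩, hy3⟩ := (h.and_eventually (Metric.ball_mem_nhds β hr)).exists
    refine ⟨y, hy2, hy1, ?_⟩
    rw [← Real.dist_eq]
    exact hy3
  choose t ht1 ht2 ht3 using h1
  exact ⟨t, ht1, ht2, ht3⟩

/-- PROOF. `ρ = (β⁻¹ + 1) / 2 < 1`. A zero `z`, `ρ < ‖z‖ < 1`, of `cx (Q n) = (1 - C (t n) * X) * Q' n` is not a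
zero of `Q' n` (`hQ1`), so `z = (t n)⁻¹`; but `(t n)⁻¹ → β⁻¹ < ρ` along `U`. -/
theorem annulus (U : Ultrafilter ℕ) (Q : ℕ → ℤ[X]) {t : ℕ → ℝ} {β : ℝ} (hβ : 1 < β)
    (ht : Tendsto t (U : Filter ℕ) (𝓝 β)) (Q' : ℕ → ℂ[X])
    (hQ : ∀ n, cx (Q n) = (1 - C (t n : ℂ) * X) * Q' n)
    (hQ1 : ∀ n, ∀ z : ℂ, (Q' n).eval z = 0 → 1 ≤ ‖z‖) :
    ∃ ρ : ℝ, ρ < 1 ∧ ∀ᶠ n in (U : Filter ℕ), ∀ z : ℂ, ρ < ‖z‖ → ‖z‖ < 1 →
      (cx (Q n)).eval z ≠ 0 := by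
  have hβ0 : β ≠ 0 := by linarith
  have hβ1 : β⁻¹ < 1 := inv_lt_one_of_one_lt₀ hβ
  refine ⟨(β⁻¹ + 1) / 2, by linarith, ?_⟩
  have h1 : Tendsto (fun n => (t n)⁻¹) (U : Filter ℕ) (𝓝 β⁻¹) := ht.inv₀ hβ0
  have h2 : ∀ᶠ n in (U : Filter ℕ), (t n)⁻¹ < (β⁻¹ + 1) / 2 :=
    h1.eventually_lt_const (by linarith)
  have h3 : ∀ᶠ n in (U : Filter ℕ), 1 < t n := ht.eventually_const_lt hβ
  filter_upwards [h2, h3] with n hn2 hn3 z hz1 hz2 hz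
  rw [hQ n, eval_mul, mul_eq_zero] at hz
  rcases hz with hz | hz
  · have h4 : (t n : ℂ) * z = 1 := by
      simp only [eval_sub, eval_one, eval_mul, eval_C, eval_X] at hz
      linear_combination -hz
    have h5 := congrArg norm h4
    rw [norm_mul, norm_one, Complex.norm_real, Real.norm_eq_abs, abs_of_pos (by linarith)] at h5
    have h6 : ‖z‖ = (t n)⁻¹ := eq_inv_of_mul_eq_one_right h5
    linarith
  · have := hQ1 n z hz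
    linarith

end SalemLen
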