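import Pool.Agent.Lib.MP_9599cf_ntL.Fin
import Pool.Agent.Lib.MP_9599cf_ntA.Ratio

/-! # Auxiliary statements -/

set_option autoImplicit false

namespace SalemLen

open Polynomial Filter Topology

/-- PROOF. The terms `X ^ e n r * A r` with `0 < r < s` have no coefficient of index `i` when `e n r > i`, which
holds for almost all `n` (`gap_tendsto` from `0`, `e n 0 = 0`; finite intersection); the term `r = 0` is `A 0`. -/
theorem coeff_blocks (U : Ultrafilter ℕ) (s : ℕ) (hs : 0 < s) (A : ℕ → ℤ[X]) (e : ℕ → ℕ → ℕ)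
    (he : ∀ n, e n 0 = 0)
    (hgap : ∀ r, r + 1 < s → Tendsto (fun n => (e n (r + 1) : ℤ) - e n r) (U : Filter ℕ) atTop)
    (i : ℕ) : ∀ᶠ n in (U : Filter ℕ),
      (∑ r ∈ Finset.range s, X ^ e n r * A r : ℤ[X]).coeff i = (A 0).coeff i := by
  have h1 : ∀ r ∈ Finset.range s, r ≠ 0 → ∀ᶠ n in (U : Filter ℕ), i < e n r := by
    intro r hr hr0
    have h := gap_tendsto U s e hgap (Nat.pos_of_ne_zero hr0) (Finset.mem_range.1 hr)
    filter_upwards [h.eventually_gt_atTop (i : ℤ)] with n hn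
    have h0 := he n
    rw [h0] at hn
    push_cast at hn
    omega
  have h2 : ∀ᶠ n in (U : Filter ℕ), ∀ r ∈ Finset.range s, r ≠ 0 → i < e n r := by
    rw [Filter.eventually_all_finset]
    intro r hr
    by_cases hr0 : r = 0
    · exact Filter.Eventually.of_forall fun n h => (h hr0).elim
    · filter_upwards [h1 r hr hr0] with n hn _ using hn
  filter_upwards [h2] with n hn
  rw [Polynomial.finsetSum_coeff, Finset.sum_eq_single 0]
  · rw [he n, pow_zero, one_mul]
  · intro r hr hr0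
    have h3 := hn r hr hr0
    rw [Polynomial.coeff_X_pow_mul', if_neg (by omega)]
  · intro h
    exact (h (Finset.mem_range.2 hs)).elim

/-- PROOF. If the degrees were `< D` for almost all `n` (ultrafilter), the numbers `t n` would be in the finite
set `finite_dom B D` for almost all `n`, so `t n` would be constant for almost all `n`, equal to its limit `β`, a
contradiction to `hne`. -/
theorem degree_tendsto {B : ℕ} (U : Ultrafilter ℕ) (P : ℕ → ℤ[X]) (hP : ∀ n, (P n).Monic)
    (hl : ∀ n, len (P n) ≤ B) {t : ℕ → ℝ} (hd : ∀ n, Dom (P n) (t n)) {β : ℝ}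
    (hne : ∀ n, t n ≠ β) (ht : Tendsto t (U : Filter ℕ) (𝓝 β)) (D : ℕ) :
    ∀ᶠ n in (U : Filter ℕ), D ≤ (P n).natDegree := by
  by_contra h
  have h1 : ∀ᶠ n in (U : Filter ℕ), ¬ D ≤ (P n).natDegree := Ultrafilter.eventually_not.2 h
  have hfin := (finite_dom B D).subset (Set.sdiff_subset (t := {β}))
  have hmem : ∀ᶠ n in (U : Filter ℕ), t n ∈
      {t : ℝ | ∃ P : ℤ[X], P.Monic ∧ len P ≤ B ∧ P.natDegree ≤ D ∧ Dom P t} \ {β} := by
    filter_upwards [h1] with n hn
    exact ⟨⟨P n, hP n, hl n, (not_le.1 hn).le, hd n⟩, hne n⟩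
  have hβ := hfin.isClosed.mem_of_tendsto ht hmem
  exact hβ.2 rfl

end SalemLen
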