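import Pool.Agent.Lib.MP_9599cf_ntA.Core
import Pool.Agent.Lib.MP_9599cf_ntA.Alg
import Pool.Agent.Lib.MP_9599cf_ntA.LenB
import Pool.Agent.Lib.MP_9599cf_ntA.Misc
import Pool.Agent.Lib.MP_9599cf_ntA.Misc2
import Pool.Agent.Lib.MP_9599cf_ntA.Blocks
import Pool.Agent.Lib.MP_9599cf_ntL.Main1
import Pool.Agent.Lib.MP_9599cf_ntL.StripC
import Pool.Agent.Lib.MP_9599cf_ntL.Recip
import Pool.Agent.Lib.MP_9599cf_ntL.Lim2
import Pool.Agent.Lib.MP_9599cf_ntL.Lim3
import Pool.Agent.Lib.MP_9599cf_ntL.Rev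
import Pool.Agent.Lib.MP_9599cf_ntL.LenL
import Pool.Agent.Lib.MP_9599cf_ntL.TwoCard
import Pool.Agent.Lib.MP_9599cf_ntL.CardSal

/-! # Accumulation points -/

set_option autoImplicit false

namespace SalemLen

open Polynomial Filter Topology

/-- Accumulation points of the set `TT B k` are in `SS B k`. -/
theorem mem_SS_of_accPt {B : ℕ∞} {k : ℕ} {β : ℝ} (h : AccPt β (𝓟 (TT B k))) : β ∈ SS B k := by
  obtain ⟨t, ht, hne, htb⟩ := exists_seq h
  have h1 : ∀ n : ℕ, ∃ P : ℤ[X], P.Monic ∧ (len P : ℕ∞) ≤ B ∧ P.support.card ≤ k ∧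
      Dom P (t n) ∧ P.coeff 0 ≠ 0 := by
    intro n
    obtain ⟨hs, P, hP, hl, hk, hd⟩ := ht n
    obtain ⟨P', g1, g2, g3, g4, g5⟩ := exists_coeff_zero_card hP hs.2.1 hd
    exact ⟨P', g1, by rw [g2]; exact hl, by rw [g3]; exact hk, g4, g5⟩
  choose P hP hlB hk hd h0 using h1
  have hs : ∀ n, IsSalem (t n) := fun n => (ht n).1
  obtain ⟨M, hM⟩ := exists_len_bound k (β + 1)
  have hl : ∀ n, len (P n) ≤ M := by
    intro n
    refine hM (P n) (t n) (hP n) (hs n).2.1 ?_ (hd n) (hk n)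
    have h2 := (abs_lt.1 (htb n)).2
    have h3 : 1 / ((n : ℝ) + 1) ≤ 1 := by
      rw [div_le_one (by positivity)]
      linarith [(Nat.cast_nonneg n : (0 : ℝ) ≤ n)]
    linarith
  obtain ⟨U, hU⟩ : ∃ U : Ultrafilter ℕ, (U : Filter ℕ) ≤ Filter.atTop :=
    ⟨Filter.hyperfilter ℕ, by rw [← Nat.cofinite_eq_atTop]; exact Filter.hyperfilter_le_cofinite⟩
  have htend : Filter.Tendsto t (U : Filter ℕ) (nhds β) := by
    rw [tendsto_iff_norm_sub_tendsto_zero]
    refine squeeze_zero (fun n => norm_nonneg _) (fun n => ?_)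
      (tendsto_one_div_add_atTop_nhds_zero_nat.mono_left hU)
    rw [Real.norm_eq_abs]
    exact (htb n).le
  -- `β` is greater than one
  have hc : 1 < β := by
    obtain ⟨δ, hδ, hiso⟩ := isolated M
    have h2 : 1 + δ ≤ β := by
      refine ge_of_tendsto htend (Filter.Eventually.of_forall fun n => ?_)
      exact hiso (t n) ⟨hs n, P n, hP n, hl n, hd n⟩
    linarith
  have hdegP : ∀ D : ℕ, ∀ᶠ n in (U : Filter ℕ), D ≤ (P n).natDegree :=
    fun D => degree_tendsto U P hP hl hd hne htend D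
  have hrevP : ∀ n, (P n).reverse = P n ∨ (P n).reverse = -P n := fun n =>
    (hs n).reverse_eq (hP n) (h0 n) (hd n)
  have hrevQ : ∀ n, ((P n).reverse).reverse = (P n).reverse ∨
      ((P n).reverse).reverse = -(P n).reverse := by
    intro n
    rcases hrevP n with h | h
    · left
      simp only [h]
    · right
      simp only [h, Polynomial.reverse_neg, neg_neg]
  have hdegQ : ∀ D : ℕ, ∀ᶠ n in (U : Filter ℕ), D ≤ ((P n).reverse).natDegree := by
    intro D
    filter_upwards [hdegP D] with n h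
    rcases hrevP n with g | g
    · rw [g]
      exact h
    · rw [g, Polynomial.natDegree_neg]
      exact h
  have hlQ : ∀ n, len (P n).reverse ≤ M := fun n => by rw [len_reverse]; exact hl n
  have hrev := fun n => rev_of_dom (hP n) (h0 n) (hs n).2.1 (hd n)
  choose Q' hQ1 hQ2 hQ3 using hrev
  have h0Q : ∀ n, ((P n).reverse).coeff 0 ≠ 0 := by
    intro n
    rw [Polynomial.coeff_zero_reverse, (hP n).leadingCoeff]
    exact one_ne_zero
  obtain ⟨s, A, e, hs0, he, hA, hgap, hblk⟩ := exists_blocks U (fun n => (P n).reverse) hlQ h0Q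
  have hG : ∀ i, ∀ᶠ n in (U : Filter ℕ), ((P n).reverse).coeff i = (A 0).coeff i := by
    intro i
    filter_upwards [hblk, coeff_blocks U s hs0 A e he hgap i] with n g1 g2
    rw [g1]
    exact g2
  have h2len : ((2 * len (A 0) : ℕ) : ℕ∞) ≤ B := by
    induction B using ENat.recTopCoe with
    | top => exact le_top
    | coe b =>
      rw [Nat.cast_le]
      refine two_len_le U (fun n => (P n).reverse) (fun n => ?_) hrevQ hdegQ hG
      rw [len_reverse]
      exact Nat.cast_le.1 (hlB n)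
  have h2card : 2 * (A 0).support.card ≤ k := by
    refine two_card_le U (fun n => (P n).reverse) (fun n => ?_) hrevQ hdegQ hG
    rw [card_reverse]
    exact hk n
  obtain ⟨H, hH1, hH2, hH3⟩ := limit_zeros (B := M) U (fun n => (P n).reverse)
    hlQ hG t hc htend Q' hQ1 hQ2 hQ3
  obtain ⟨hg1, hg2, hg3, hg4⟩ := dom_of_rev hc hH1 hH2 hH3
  rcases pisot_or_salem hg1 hc hg3 with hpis | hsal
  · exact ⟨hpis, (A 0).reverse, hg1, by rw [hg4]; exact h2len, by rw [card_reverse]; exact h2card,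
      hg3⟩
  · exfalso
    -- the conjugate on the unit circle
    obtain ⟨ω, hω1, hω2⟩ := hsal.2.2.2
    have hω3 : (cx (minpoly ℤ β)).eval ω = 0 := by
      have h2 : minpoly ℚ β = (minpoly ℤ β).map (algebraMap ℤ ℚ) :=
        minpoly.isIntegrallyClosed_eq_field_fractions' ℚ hsal.1
      rw [h2, aeval_map_algebraMap, aeval_def] at hω1
      rw [cx, eval_map]
      exact hω1
    have hβ0 : (β : ℂ) ≠ 0 := by
      rw [Ne, Complex.ofReal_eq_zero]
      linarith
    have hroot : (cx (minpoly ℤ β)).eval (β : ℂ) = 0 := by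
      have h2 := minpoly.aeval ℤ β
      have h3 : Polynomial.aeval (β : ℂ) (minpoly ℤ β) = 0 := by
        rw [show (β : ℂ) = algebraMap ℝ ℂ β from rfl, Polynomial.aeval_algebraMap_apply, h2, map_zero]
      rw [cx, eval_map]
      exact h3
    have hdvd0 : minpoly ℤ β ∣ A 0 := by
      refine dvd_of_root hsal.1 (hsal.inv_root hroot) ?_
      rw [hH1, eval_mul, eval_sub, eval_one, eval_mul, eval_C, eval_X, mul_inv_cancel₀ hβ0, sub_self,
        zero_mul]
    have hmul : ∀ {F : ℤ[X]} {z : ℂ}, minpoly ℤ β ∣ F → (cx (minpoly ℤ β)).eval z = 0 →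
        (cx F).eval z = 0 := by
      rintro F z ⟨D, rfl⟩ hz
      rw [cx, Polynomial.map_mul, eval_mul]
      change (cx (minpoly ℤ β)).eval z * _ = 0
      rw [hz, zero_mul]
    obtain ⟨ρ, hρ, hann⟩ := annulus U (fun n => (P n).reverse) hc htend Q' hQ1 hQ3
    have hann' : ∀ᶠ n in (U : Filter ℕ), ∀ z : ℂ, ρ < ‖z‖ → ‖z‖ < 1 →
        (cx (∑ r ∈ Finset.range s, X ^ e n r * A r)).eval z ≠ 0 := by
      filter_upwards [hblk, hann] with n g1 g2 z hz1 hz2
      rw [← g1]
      exact g2 z hz1 hz2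
    have hall := core U s A e he (hA 0 hs0) hgap hρ hann' hω2 (hmul hdvd0 hω3)
    obtain ⟨n, hn⟩ := hblk.exists
    have hQω : (cx (P n).reverse).eval ω = 0 := by
      have h2 : (P n).reverse = ∑ r ∈ Finset.range s, X ^ e n r * A r := hn
      rw [h2, cx, Polynomial.map_sum, eval_finsetSum]
      refine Finset.sum_eq_zero fun r hr => ?_
      rw [Polynomial.map_mul, eval_mul]
      change _ * (cx (A r)).eval ω = 0
      rw [hall r (Finset.mem_range.1 hr), mul_zero]
    have hPβ : (cx (P n)).eval (β : ℂ) = 0 := by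
      refine hmul ?_ hroot
      have h2 : minpoly ℤ β ∣ (P n).reverse := dvd_of_root hsal.1 hω3 hQω
      rcases hrevP n with g | g
      · rwa [g] at h2
      · rw [g] at h2
        exact (dvd_neg).1 h2
    exact hne n ((hd n).eq_of_root hc hPβ).symm

end SalemLen
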