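import Mathlib

/-! # Gaps -/

set_option autoImplicit false

namespace SalemLen

open Filter Topology

/-- PROOF. Induction on `r'`; a telescoping sum of the gaps (`Tendsto.atTop_add` ...). -/
theorem gap_tendsto (U : Ultrafilter ℕ) (s : ℕ) (e : ℕ → ℕ → ℕ)
    (hgap : ∀ r, r + 1 < s → Tendsto (fun n => (e n (r + 1) : ℤ) - e n r) (U : Filter ℕ) atTop)
    {r r' : ℕ} (h : r < r') (h' : r' < s) :
    Tendsto (fun n => (e n r' : ℤ) - e n r) (U : Filter ℕ) atTop := by
  have key : ∀ d : ℕ, r + 1 + d < s →
      Tendsto (fun n => (e n (r + 1 + d) : ℤ) - e n r) (U : Filter ℕ) atTop := by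
    intro d
    induction d with
    | zero => exact fun hd => hgap r hd
    | succ d ih =>
      intro hd
      have h1 := hgap (r + 1 + d) (by omega)
      have h2 := h1.atTop_add_atTop (ih (by omega))
      refine h2.congr fun n => ?_
      change ((e n (r + 1 + d + 1) : ℤ) - e n (r + 1 + d)) + ((e n (r + 1 + d) : ℤ) - e n r) =
        (e n (r + 1 + d + 1) : ℤ) - e n r
      ring
  have h3 := key (r' - (r + 1)) (by omega)
  rwa [show r + 1 + (r' - (r + 1)) = r' by omega] at h3

end SalemLen
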