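import Mathlib

/-! # A form of the theorem of Hurwitz -/

set_option autoImplicit false

namespace SalemLen

open Filter Topology

/-- PROOF. Suppose `F w0 = 0`. `F` is entire and not identically zero, so `w0` is an isolated zero
(`AnalyticAt.eventually_eq_zero_or_eventually_ne_zero`, and the identity theorem
`AnalyticOnNhd.eqOn_of_preconnected_of_eventuallyEq`): there is `0 < r < R` with `F w ≠ 0` for
`0 < ‖w - w0‖ ≤ r`. Let `μ > 0` be the minimum of `‖F‖` on the sphere `‖w - w0‖ = r` (compact).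
Uniform convergence on `closedBall w0 r`: for almost all `n`, `‖Fm n w - F w‖ < μ / 3` for all `w` in
`closedBall w0 r`; indeed otherwise there are for almost all `n` points `w n` in the ball with
`‖Fm n (w n) - F (w n)‖ ≥ μ / 3`; by compactness `w` tends along the ultrafilter to a point `w'` of the ball, and
`hconv` with continuity of `F` gives a contradiction. Choose such an `n` for which also `Fm n ≠ 0` on
`closedBall w0 R`. Then `1 / Fm n` is holomorphic on a neighbourhood of `closedBall w0 r`, it is `≤ 3 / (2 μ)` in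
absolute value on the sphere (`‖Fm n‖ ≥ μ - μ / 3`), so also at `w0` (maximum principle,
`Complex.norm_le_of_forall_mem_frontier_norm_le`); but `‖Fm n w0‖ < μ / 3`, a contradiction. -/
theorem hurwitz (U : Ultrafilter ℕ) {F : ℂ → ℂ} (hF : Differentiable ℂ F) (hne : ∃ w, F w ≠ 0)
    {Fm : ℕ → ℂ → ℂ} (hFm : ∀ n, Differentiable ℂ (Fm n)) {w0 : ℂ} {R : ℝ} (hR : 0 < R)
    (hconv : ∀ (w : ℕ → ℂ) (w' : ℂ), w' ∈ Metric.closedBall w0 R →
      Tendsto w (U : Filter ℕ) (𝓝 w') →
      Tendsto (fun n => Fm n (w n)) (U : Filter ℕ) (𝓝 (F w')))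
    (hnz : ∀ᶠ n in (U : Filter ℕ), ∀ w ∈ Metric.closedBall w0 R, Fm n w ≠ 0) : F w0 ≠ 0 := by
  intro h0
  have hFan : AnalyticOnNhd ℂ F Set.univ := hF.differentiableOn.analyticOnNhd isOpen_univ
  have h1 : ∀ᶠ w in 𝓝[≠] w0, F w ≠ 0 := by
    rcases (hFan w0 trivial).eventually_eq_zero_or_eventually_ne_zero with h | h
    · exfalso
      obtain ⟨w, hw⟩ := hne
      exact hw (hFan.eqOn_zero_of_preconnected_of_eventuallyEq_zero isPreconnected_univ
        (Set.mem_univ w0) h (Set.mem_univ w))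
    · exact h
  obtain ⟨r, hr0, hrR, hr⟩ : ∃ r : ℝ, 0 < r ∧ r < R ∧
      ∀ w ∈ Metric.closedBall w0 r, w ≠ w0 → F w ≠ 0 := by
    rw [eventually_nhdsWithin_iff, Metric.eventually_nhds_iff] at h1
    obtain ⟨ε, hε, h⟩ := h1
    have hm : 0 < min ε R := lt_min hε hR
    refine ⟨min ε R / 2, by positivity, ?_, ?_⟩
    · have := min_le_right ε R
      linarith
    · intro w hw hne
      refine h ?_ hne
      rw [Metric.mem_closedBall] at hw
      have := min_le_left ε R
      linarith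
  have hsph : (Metric.sphere w0 r).Nonempty := NormedSpace.sphere_nonempty.2 hr0.le
  obtain ⟨z0, hz0, hmin⟩ := (isCompact_sphere w0 r).exists_isMinOn hsph
    hF.continuous.norm.continuousOn
  obtain ⟨μ, hμd⟩ : ∃ μ : ℝ, μ = ‖F z0‖ := ⟨_, rfl⟩
  have hμ : 0 < μ := by
    rw [hμd]
    refine norm_pos_iff.2 (hr z0 (Metric.sphere_subset_closedBall hz0) ?_)
    intro h
    rw [h, Metric.mem_sphere, dist_self] at hz0
    exact hr0.ne hz0
  have hmin' : ∀ z ∈ Metric.sphere w0 r, μ ≤ ‖F z‖ := fun z hz => by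
    rw [hμd]
    exact hmin hz
  have hU : ∀ᶠ n in (U : Filter ℕ), ∀ w ∈ Metric.closedBall w0 r, ‖Fm n w - F w‖ < μ / 3 := by
    by_contra hcon
    rw [← Ultrafilter.eventually_not] at hcon
    have hch : ∀ n, ∃ w ∈ Metric.closedBall w0 r,
        (¬ ∀ w ∈ Metric.closedBall w0 r, ‖Fm n w - F w‖ < μ / 3) → μ / 3 ≤ ‖Fm n w - F w‖ := by
      intro n
      by_cases h : ∀ w ∈ Metric.closedBall w0 r, ‖Fm n w - F w‖ < μ / 3
      · exact ⟨w0, Metric.mem_closedBall_self hr0.le, fun h' => absurd h h'⟩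
      · push Not at h
        obtain ⟨w, hw, h2⟩ := h
        exact ⟨w, hw, fun _ => h2⟩
    choose w hw hw2 using hch
    obtain ⟨w', hw', hlim⟩ := (isCompact_closedBall w0 r).ultrafilter_le_nhds (U.map w) (by
      rw [Ultrafilter.coe_map, Filter.le_principal_iff, Filter.mem_map]
      exact Filter.univ_mem' hw)
    have hlim' : Tendsto w (U : Filter ℕ) (𝓝 w') := hlim
    have h2 := hconv w w' (Metric.closedBall_subset_closedBall hrR.le hw') hlim'
    have h3 : Tendsto (fun n => F (w n)) (U : Filter ℕ) (𝓝 (F w')) :=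
      (hF.continuous.tendsto w').comp hlim'
    have h4 := (h2.sub h3).norm
    rw [sub_self, norm_zero] at h4
    have h5 : ∀ᶠ n in (U : Filter ℕ), ‖Fm n (w n) - F (w n)‖ < μ / 3 :=
      h4.eventually (gt_mem_nhds (by positivity))
    obtain ⟨n, hn1, hn2⟩ := (h5.and hcon).exists
    have := hw2 n hn2
    linarith
  obtain ⟨n, hn1, hn2⟩ := (hU.and hnz).exists
  have hsub : ∀ z ∈ Metric.closedBall w0 r, Fm n z ≠ 0 := fun z hz =>
    hn2 z (Metric.closedBall_subset_closedBall hrR.le hz)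
  have hcl : closure (Metric.ball w0 r) = Metric.closedBall w0 r := closure_ball w0 hr0.ne'
  have hdiff : DiffContOnCl ℂ (fun z => (Fm n z)⁻¹) (Metric.ball w0 r) := by
    apply DifferentiableOn.diffContOnCl
    rw [hcl]
    exact fun z hz => ((hFm n) z).differentiableWithinAt.fun_inv (hsub z hz)
  have hbd : ∀ z ∈ frontier (Metric.ball w0 r), ‖(fun z => (Fm n z)⁻¹) z‖ ≤ 3 / (2 * μ) := by
    intro z hz
    rw [frontier_ball w0 hr0.ne'] at hz
    have h2 := hn1 z (Metric.sphere_subset_closedBall hz)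
    have h3 := hmin' z hz
    have h4 : ‖F z‖ ≤ ‖Fm n z‖ + ‖Fm n z - F z‖ := by
      have := norm_sub_le (Fm n z) (Fm n z - F z)
      rwa [sub_sub_cancel] at this
    have h5 : 2 * μ / 3 ≤ ‖Fm n z‖ := by linarith
    have h6 : 0 < 2 * μ / 3 := by positivity
    show ‖(Fm n z)⁻¹‖ ≤ 3 / (2 * μ)
    rw [norm_inv, show 3 / (2 * μ) = (2 * μ / 3)⁻¹ by rw [inv_div]]
    exact inv_anti₀ h6 h5
  have hmax := Complex.norm_le_of_forall_mem_frontier_norm_le Metric.isBounded_ball hdiff hbd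
    (z := w0) (by rw [hcl]; exact Metric.mem_closedBall_self hr0.le)
  have hw0 := hn1 w0 (Metric.mem_closedBall_self hr0.le)
  rw [h0, sub_zero] at hw0
  have hpos : 0 < ‖Fm n w0‖ := norm_pos_iff.2 (hsub w0 (Metric.mem_closedBall_self hr0.le))
  have h6 : 0 < μ / 3 := by positivity
  have h7 : (μ / 3)⁻¹ < ‖Fm n w0‖⁻¹ := inv_strictAnti₀ hpos hw0
  have h8 : ‖Fm n w0‖⁻¹ ≤ 3 / (2 * μ) := by
    have h9 : ‖(Fm n w0)⁻¹‖ ≤ 3 / (2 * μ) := hmax
    rwa [norm_inv] at h9
  have h9 : 3 / (2 * μ) ≤ (μ / 3)⁻¹ := by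
    rw [inv_div]
    exact div_le_div_of_nonneg_left (by norm_num) hμ (by linarith)
  linarith

end SalemLen
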