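import Pool.Agent.Lib.MP_9599cf_ntL.Defs

/-! # The set where an integer polynomial is small -/

set_option autoImplicit false

namespace SalemLen

open Polynomial MeasureTheory

theorem Meas_null {p : ℂ[X]} (hp : p ≠ 0) :
    volume {θ : ℝ | p.eval (Complex.exp (θ * Complex.I)) = 0} = 0 := by
  have h1 : {θ : ℝ | p.eval (Complex.exp (θ * Complex.I)) = 0} ⊆
      ⋃ z ∈ p.rootSet ℂ, {θ : ℝ | Complex.exp (θ * Complex.I) = z} := by
    intro θ hθ
    rw [Set.mem_iUnion₂]
    refine ⟨Complex.exp (θ * Complex.I), ?_, rfl⟩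
    rw [Polynomial.mem_rootSet]
    exact ⟨hp, by simpa using hθ⟩
  have h2 : ∀ z : ℂ, {θ : ℝ | Complex.exp (θ * Complex.I) = z}.Countable := by
    intro z
    by_cases hne : ∃ θ₀ : ℝ, Complex.exp (θ₀ * Complex.I) = z
    · obtain ⟨θ₀, h0⟩ := hne
      refine (Set.countable_range (fun n : ℤ => θ₀ + n * (2 * Real.pi))).mono ?_
      intro θ hθ
      have h3 : Complex.exp (θ * Complex.I) = Complex.exp (θ₀ * Complex.I) := by
        rw [h0]; exact hθ
      obtain ⟨n, hn⟩ := Complex.exp_eq_exp_iff_exists_int.1 h3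
      refine ⟨n, ?_⟩
      have h4 : (θ : ℂ) * Complex.I = ((θ₀ + n * (2 * Real.pi) : ℝ) : ℂ) * Complex.I := by
        rw [hn]; push_cast; ring
      have h5 := mul_right_cancel₀ Complex.I_ne_zero h4
      exact (Complex.ofReal_injective h5).symm
    · push Not at hne
      have : {θ : ℝ | Complex.exp (θ * Complex.I) = z} = ∅ := by
        ext θ; simp [hne θ]
      rw [this]; exact Set.countable_empty
  refine Set.Countable.measure_zero (Set.Countable.mono h1 ?_) _
  exact (Polynomial.rootSet_finite p ℂ).countable.biUnion fun z _ => h2 z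

/-- PROOF. Jensen: `∫ θ in a..a + 2 π, log ‖p (exp (I θ))‖ = 2 π * logMahlerMeasure p ≥ 2 π * log ‖p (0)‖ ≥ 0`
(`Polynomial.logMahlerMeasure_def`, circle average; for `p.coeff 0 ≠ 0` the Mahler measure is at least `1`:
Mathlib has the Mahler measure of an integer polynomial `≥ 1`; `Mah2.lean` and `MeasureTheory` periodicity
`Function.Periodic.intervalIntegral_add_eq`). The integrand is at most `log K` everywhere, and it is
`< log η < 0` on the set `E` where `‖p‖ < η` (up to the finitely many zeros, a null set, since `Real.log 0 = 0`).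
So `0 ≤ vol E * log η + 2 π * log K`. -/
theorem volume_small {p : ℤ[X]} (h0 : p.coeff 0 ≠ 0) {K : ℝ} (hK : 1 ≤ K)
    (hp : ∀ z : ℂ, ‖z‖ = 1 → ‖(cx p).eval z‖ ≤ K) {η : ℝ} (hη : 0 < η) (hη1 : η < 1) (a : ℝ) :
    volume {θ : ℝ | θ ∈ Set.Icc a (a + 2 * Real.pi) ∧
      ‖(cx p).eval (Complex.exp (θ * Complex.I))‖ < η} ≤
      ENNReal.ofReal (2 * Real.pi * Real.log K / Real.log (1 / η)) := by
  have hpi : 0 < 2 * Real.pi := by positivity
  have hp0 : p ≠ 0 := by rintro rfl; simp at h0
  have hcx : cx p ≠ 0 := by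
    rw [cx, Ne, Polynomial.map_eq_zero_iff (Int.castRingHom ℂ).injective_int]
    exact hp0
  set f : ℝ → ℝ := fun θ => Real.log ‖(cx p).eval (Complex.exp (θ * Complex.I))‖ with hf
  have hcm : ∀ θ : ℝ, circleMap 0 1 θ = Complex.exp (θ * Complex.I) := fun θ => by
    simp [circleMap]
  have hff : (fun θ => Real.log ‖(cx p).eval (circleMap 0 1 θ)‖) = f := by
    funext θ
    rw [hf, hcm]
  have hper : Function.Periodic f (2 * Real.pi) := by
    intro θ
    simp only [hf]
    rw [show ((θ + 2 * Real.pi : ℝ) : ℂ) * Complex.I = θ * Complex.I + 2 * Real.pi * Complex.I by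
      push_cast; ring, Complex.exp_periodic]
  have hint0 : IntervalIntegrable f volume 0 (2 * Real.pi) := by
    have := Polynomial.intervalIntegrable_mahlerMeasure (cx p)
    rwa [hff] at this
  have hint : IntervalIntegrable f volume a (a + 2 * Real.pi) :=
    hper.intervalIntegrable hpi.ne' (t := 0) (by rwa [zero_add]) a (a + 2 * Real.pi)
  have hI0 : 0 ≤ ∫ θ in (0 : ℝ)..(2 * Real.pi), f θ := by
    have h1 : 1 ≤ (cx p).mahlerMeasure := Polynomial.one_le_mahlerMeasure_of_ne_zero hp0
    have h2 : 0 ≤ (cx p).logMahlerMeasure := by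
      rw [Polynomial.logMahlerMeasure_eq_log_MahlerMeasure]
      exact Real.log_nonneg h1
    rw [Polynomial.logMahlerMeasure_def, Real.circleAverage_def, hff, smul_eq_mul] at h2
    exact nonneg_of_mul_nonneg_right h2 (by positivity)
  have hI : 0 ≤ ∫ θ in a..(a + 2 * Real.pi), f θ := by
    rw [hper.intervalIntegral_add_eq a 0, zero_add]
    exact hI0
  set S : Set ℝ := {θ : ℝ | θ ∈ Set.Icc a (a + 2 * Real.pi) ∧
      ‖(cx p).eval (Complex.exp (θ * Complex.I))‖ < η} with hS
  have hSm : MeasurableSet S := by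
    apply MeasurableSet.inter measurableSet_Icc
    have hc : Continuous fun θ : ℝ => ‖(cx p).eval (Complex.exp (θ * Complex.I))‖ := by
      fun_prop
    exact (isOpen_lt hc continuous_const).measurableSet
  have hSsub : S ⊆ Set.Icc a (a + 2 * Real.pi) := fun θ h => h.1
  have hSfin : volume S ≠ ⊤ :=
    ((measure_mono hSsub).trans_lt (by rw [Real.volume_Icc]; exact ENNReal.ofReal_lt_top)).ne
  have hlogη : Real.log η < 0 := Real.log_neg hη hη1
  have hlogK : 0 ≤ Real.log K := Real.log_nonneg hK
  -- the bound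
  have hle : ∀ᵐ θ ∂(volume.restrict (Set.Icc a (a + 2 * Real.pi))),
      f θ ≤ S.indicator (fun _ => Real.log η) θ + Real.log K := by
    have hz : ∀ᵐ θ : ℝ ∂volume, ¬ (cx p).eval (Complex.exp ((θ : ℂ) * Complex.I)) = 0 := by
      rw [ae_iff]
      simpa using Meas_null hcx
    filter_upwards [ae_restrict_of_ae hz, ae_restrict_mem measurableSet_Icc] with θ hθ hθI
    have hpos : 0 < ‖(cx p).eval (Complex.exp (θ * Complex.I))‖ := norm_pos_iff.2 hθ
    by_cases hθS : θ ∈ S
    · rw [Set.indicator_of_mem hθS]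
      have : f θ ≤ Real.log η := Real.log_le_log hpos hθS.2.le
      linarith
    · rw [Set.indicator_of_notMem hθS, zero_add]
      exact Real.log_le_log hpos (hp _ (Complex.norm_exp_ofReal_mul_I θ))
  have hintg : IntegrableOn (fun θ => S.indicator (fun _ => Real.log η) θ + Real.log K)
      (Set.Icc a (a + 2 * Real.pi)) volume := by
    apply Integrable.add
    · apply Integrable.indicator _ hSm
      exact integrable_const _
    · exact integrable_const _
  have hle2 : ∫ θ in a..(a + 2 * Real.pi), f θ ≤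
      ∫ θ in Set.Icc a (a + 2 * Real.pi), (S.indicator (fun _ => Real.log η) θ + Real.log K) := by
    rw [intervalIntegral.integral_of_le (by linarith), ← integral_Icc_eq_integral_Ioc]
    refine integral_mono_ae ?_ hintg hle
    rw [intervalIntegrable_iff_integrableOn_Icc_of_le (by linarith)] at hint
    exact hint
  have hval : ∫ θ in Set.Icc a (a + 2 * Real.pi),
      (S.indicator (fun _ => Real.log η) θ + Real.log K) =
      (volume S).toReal * Real.log η + 2 * Real.pi * Real.log K := by
    rw [integral_add]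
    · rw [integral_indicator hSm, Measure.restrict_restrict hSm,
        Set.inter_eq_self_of_subset_left hSsub]
      simp only [setIntegral_const, Measure.real, Real.volume_Icc, smul_eq_mul,
        add_sub_cancel_left]
      rw [ENNReal.toReal_ofReal hpi.le]
    · apply Integrable.indicator _ hSm
      exact integrable_const _
    · exact integrable_const _
  have hfin : (volume S).toReal ≤ 2 * Real.pi * Real.log K / Real.log (1 / η) := by
    have h1 : 0 < Real.log (1 / η) := by
      rw [one_div, Real.log_inv]; linarith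
    rw [le_div_iff₀ h1, one_div, Real.log_inv]
    rw [hval] at hle2
    nlinarith
  rw [← ENNReal.ofReal_toReal hSfin]
  exact ENNReal.ofReal_le_ofReal hfin

end SalemLen
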