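import Pool.Agent.Lib.MP_9599cf_ntL.TTDef

/-! # Pisot numbers of bounded length: definitions -/

set_option autoImplicit false

namespace SalemLen

open Polynomial

/-- Pisot numbers: real algebraic integers `t > 1` whose other conjugates are in the open unit disc. -/
def IsPisot (t : ℝ) : Prop :=
  IsIntegral ℤ t ∧ 1 < t ∧
    ∀ z : ℂ, Polynomial.aeval z (minpoly ℚ t) = 0 → z ≠ (t : ℂ) → ‖z‖ < 1

/-- The Pisot numbers `t` which are a root of a monic integer polynomial with at most `k / 2` monomials and of
length at most `B / 2`, all of whose other complex roots are in the closed unit disc. -/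
def SS (B : ℕ∞) (k : ℕ) : Set ℝ :=
  {t | IsPisot t ∧ ∃ P : ℤ[X], P.Monic ∧ ((2 * len P : ℕ) : ℕ∞) ≤ B ∧ 2 * P.support.card ≤ k ∧
    Dom P t}

end SalemLen
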