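import Pool.Agent.Lib.MP_9599cf_ntA.QDef
import Pool.Agent.Lib.MP_9599cf_ntL.LenL

/-! # The polynomials `qd a n`: degree, length, number of monomials -/

set_option autoImplicit false

namespace SalemLen

open Polynomial

private theorem QBasic_deg (a : ℕ) : (X ^ 2 - C (a : ℤ) * X + 1 : ℤ[X]).natDegree ≤ 2 := by
  compute_degree

private theorem QBasic_coeff (a i : ℕ) : (X ^ 2 - C (a : ℤ) * X + 1 : ℤ[X]).coeff i =
    if i = 2 then 1 else if i = 1 then -(a : ℤ) else if i = 0 then 1 else 0 := by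
  rw [coeff_add, coeff_sub, coeff_X_pow, coeff_C_mul, coeff_X, coeff_one]
  by_cases h2 : i = 2
  · subst h2; simp
  · by_cases h1 : i = 1
    · subst h1; simp
    · by_cases h0 : i = 0
      · subst h0; simp
      · have h1' : ¬ (1 = i) := fun h => h1 h.symm
        simp [h0, h1, h1', h2]

private theorem QBasic_qcoeff (a n i : ℕ) : (qd a n).coeff i =
    (if 2 * n ≤ i then (X ^ 2 - C (a : ℤ) * X + 1 : ℤ[X]).coeff (i - 2 * n) else 0) +
      (if i = n + 1 then 1 else 0) + (X ^ 2 - C (a : ℤ) * X + 1 : ℤ[X]).coeff i := by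
  rw [qd, coeff_add, coeff_add, coeff_X_pow_mul', coeff_X_pow]

private theorem QBasic_len (a : ℕ) : len (X ^ 2 - C (a : ℤ) * X + 1 : ℤ[X]) ≤ a + 2 := by
  rw [len_eq_range _ (n := 3) (by have := QBasic_deg a; omega)]
  simp only [Finset.sum_range_succ, Finset.sum_range_zero, QBasic_coeff]
  norm_num
  omega

/-- PROOF. `X ^ (2 n) * (X ^ 2 - a X + 1)` is monic of degree `2 n + 2`, the other summands have degree at most
`max (n + 1) 2 < 2 n + 2` for `n ≥ 1` (`Polynomial.Monic.add_of_left`, `monicity`). -/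
theorem qd_monic (a : ℕ) {n : ℕ} (hn : 1 ≤ n) : (qd a n).Monic ∧ (qd a n).natDegree = 2 * n + 2 := by
  have hd : (qd a n).natDegree ≤ 2 * n + 2 := by
    rw [natDegree_le_iff_coeff_eq_zero]
    intro i hi
    rw [QBasic_qcoeff, QBasic_coeff, QBasic_coeff]
    rw [if_pos (by omega), if_neg (by omega), if_neg (by omega), if_neg (by omega),
      if_neg (by omega), if_neg (by omega), if_neg (by omega), if_neg (by omega)]
    norm_num
  have hc : (qd a n).coeff (2 * n + 2) = 1 := by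
    rw [QBasic_qcoeff, QBasic_coeff, QBasic_coeff]
    rw [if_pos (by omega), if_pos (by omega), if_neg (by omega), if_neg (by omega),
      if_neg (by omega), if_neg (by omega)]
    norm_num
  have hm := monic_of_natDegree_le_of_coeff_eq_one _ hd hc
  refine ⟨hm, le_antisymm hd (le_natDegree_of_ne_zero ?_)⟩
  rw [hc]
  exact one_ne_zero

/-- PROOF. The constant coefficient is `1` (`n ≥ 1`). -/
theorem qd_coeff_zero (a : ℕ) {n : ℕ} (hn : 1 ≤ n) : (qd a n).coeff 0 = 1 := by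
  rw [QBasic_qcoeff, QBasic_coeff a 0, if_neg (by omega : ¬ 2 * n ≤ 0), if_neg (by omega : ¬ 0 = n + 1)]
  norm_num

/-- PROOF. Subadditivity of the length (`len_add_le`, `len_X_pow_mul`), and the length of `X ^ 2 - a X + 1` is at
most `a + 2`. -/
theorem qd_len (a n : ℕ) : len (qd a n) ≤ 2 * a + 5 := by
  have h1 : len (X ^ (n + 1) : ℤ[X]) ≤ 1 := by
    have h2 := len_X_pow_mul (1 : ℤ[X]) (n + 1)
    rw [mul_one] at h2
    rw [h2, len_eq_range _ (n := 1) (by rw [natDegree_one]; exact one_pos)]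
    simp
  have h3 := len_add_le (X ^ (2 * n) * (X ^ 2 - C (a : ℤ) * X + 1) + X ^ (n + 1))
    (X ^ 2 - C (a : ℤ) * X + 1 : ℤ[X])
  have h4 := len_add_le (X ^ (2 * n) * (X ^ 2 - C (a : ℤ) * X + 1)) (X ^ (n + 1) : ℤ[X])
  have h5 := len_X_pow_mul (X ^ 2 - C (a : ℤ) * X + 1 : ℤ[X]) (2 * n)
  have h6 := QBasic_len a
  rw [qd]
  omega

/-- PROOF. The support is contained in `{2 n + 2, 2 n + 1, 2 n, n + 1, 2, 1, 0}`. -/
theorem qd_card (a n : ℕ) : (qd a n).support.card ≤ 7 := by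
  have h : (qd a n).support ⊆ [2 * n + 2, 2 * n + 1, 2 * n, n + 1, 2, 1, 0].toFinset := by
    intro i hi
    rw [mem_support_iff, QBasic_qcoeff, QBasic_coeff, QBasic_coeff] at hi
    simp only [List.toFinset_cons, List.toFinset_nil, Finset.mem_insert, Finset.notMem_empty,
      or_false]
    by_contra hcon
    refine hi ?_
    have e : (if 2 * n ≤ i then (if i - 2 * n = 2 then (1 : ℤ) else if i - 2 * n = 1 then -(a : ℤ)
        else if i - 2 * n = 0 then 1 else 0) else 0) = 0 := by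
      by_cases hn : 2 * n ≤ i
      · rw [if_pos hn, if_neg (by omega), if_neg (by omega), if_neg (by omega)]
      · rw [if_neg hn]
    rw [e, if_neg (by omega), if_neg (by omega), if_neg (by omega), if_neg (by omega)]
    norm_num
  exact (Finset.card_le_card h).trans (List.toFinset_card_le _)

/-- PROOF. `z ^ (2 n + 2) * qd (z⁻¹) = qd z`. -/
theorem qd_inv (a n : ℕ) {z : ℂ} (hz : z ≠ 0) (h : (cx (qd a n)).eval z = 0) :
    (cx (qd a n)).eval z⁻¹ = 0 := by
  rw [qd_eval] at h ⊢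
  have h1 : z ^ (2 * n + 2) * (z⁻¹ ^ (2 * n) * (z⁻¹ ^ 2 - a * z⁻¹ + 1) + z⁻¹ ^ (n + 1) +
      (z⁻¹ ^ 2 - a * z⁻¹ + 1)) = 0 := by
    rw [← h]
    have e1 : z ^ (2 * n + 2) = z ^ (2 * n) * z ^ 2 := pow_add _ _ _
    have e2 : z ^ (2 * n) * z⁻¹ ^ (2 * n) = 1 := by
      rw [← mul_pow, mul_inv_cancel₀ hz, one_pow]
    have e3 : z * z⁻¹ = 1 := mul_inv_cancel₀ hz
    have e4 : z ^ (2 * n + 2) * z⁻¹ ^ (n + 1) = z ^ (n + 1) := by
      have e5 : 2 * n + 2 = (n + 1) + (n + 1) := by ring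
      rw [e5, pow_add, mul_assoc, ← mul_pow, e3, one_pow, mul_one]
    have e6 : z ^ 2 * (z⁻¹ ^ 2 - a * z⁻¹ + 1) = z ^ 2 - a * z + 1 := by
      have e7 : z ^ 2 * z⁻¹ ^ 2 = 1 := by rw [← mul_pow, e3, one_pow]
      have e8 : z ^ 2 * z⁻¹ = z := by rw [pow_two, mul_assoc, e3, mul_one]
      linear_combination e7 - (a : ℂ) * e8
    rw [mul_add, mul_add, e4]
    have e9 : z ^ (2 * n + 2) * (z⁻¹ ^ (2 * n) * (z⁻¹ ^ 2 - a * z⁻¹ + 1)) = z ^ 2 - a * z + 1 := by
      rw [e1, ← e6]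
      linear_combination (z ^ 2 * (z⁻¹ ^ 2 - a * z⁻¹ + 1)) * e2
    have e10 : z ^ (2 * n + 2) * (z⁻¹ ^ 2 - a * z⁻¹ + 1) = z ^ (2 * n) * (z ^ 2 - a * z + 1) := by
      rw [e1, mul_assoc, e6]
    rw [e9, e10]
    ring
  exact (mul_eq_zero.1 h1).resolve_left (pow_ne_zero _ hz)

end SalemLen
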