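import Pool.Agent.Lib.MP_9599cf_ntL.Defs

/-! # Salem numbers near reciprocal quadratic units: the polynomials -/

set_option autoImplicit false

namespace SalemLen

open Polynomial

/-- The polynomials `X ^ (2 n) (X ^ 2 - a X + 1) + X ^ (n + 1) + (X ^ 2 - a X + 1)`. -/
noncomputable def qd (a n : ℕ) : ℤ[X] :=
  X ^ (2 * n) * (X ^ 2 - C (a : ℤ) * X + 1) + X ^ (n + 1) + (X ^ 2 - C (a : ℤ) * X + 1)

theorem qd_eval (a n : ℕ) (z : ℂ) : (cx (qd a n)).eval z =
    z ^ (2 * n) * (z ^ 2 - a * z + 1) + z ^ (n + 1) + (z ^ 2 - a * z + 1) := by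
  simp [cx, qd]

end SalemLen
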