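import Pool.Agent.Lib.MP_9599cf_ntL.Defs
import Pool.Agent.Lib.MP_9599cf_ntA.Hurwitz

/-! # Zooming at a point of the unit circle -/

set_option autoImplicit false

namespace SalemLen

open Polynomial Filter Topology

private theorem Zoom_eval (s : ℕ) (A : ℕ → ℤ[X]) (e : ℕ → ℕ) (x : ℂ) :
    (cx (∑ r ∈ Finset.range s, X ^ e r * A r)).eval x =
      ∑ r ∈ Finset.range s, x ^ e r * (cx (A r)).eval x := by
  rw [cx, Polynomial.map_sum, Polynomial.eval_finsetSum]
  refine Finset.sum_congr rfl fun r _ => ?_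
  rw [Polynomial.map_mul, Polynomial.map_pow, Polynomial.map_X, eval_mul, eval_pow, eval_X]
  rfl

private theorem Zoom_pow (z w : ℂ) (d : ℝ) (e : ℕ) :
    (z * Complex.exp (Complex.I * w / (d : ℂ))) ^ e =
      z ^ e * Complex.exp (Complex.I * w * (((e : ℝ) / d : ℝ) : ℂ)) := by
  rw [mul_pow, ← Complex.exp_nat_mul]
  congr 2
  push_cast
  ring

private theorem Zoom_re (w : ℂ) (x : ℝ) : (Complex.I * w * (x : ℂ)).re = -(w.im * x) := by
  rw [Complex.re_mul_ofReal, Complex.I_mul_re]
  ring

private theorem Zoom_re' (w : ℂ) (x : ℝ) : (Complex.I * w / (x : ℂ)).re = -(w.im / x) := by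
  rw [Complex.div_ofReal_re, Complex.I_mul_re]
  ring

/-- The limit function does not vanish identically. -/
private theorem Zoom_ne {S : Finset ℕ} {lam : ℕ → ℝ} (hl : ∀ r ∈ S, 0 ≤ lam r) (a : ℕ → ℂ)
    (hne : ∑ r ∈ S with lam r = 0, a r ≠ 0) :
    ∃ w : ℂ, ∑ r ∈ S, a r * Complex.exp (Complex.I * lam r * w) ≠ 0 := by
  have h1 : Tendsto (fun t : ℝ => ∑ r ∈ S, a r * Complex.exp (Complex.I * lam r * (t * Complex.I)))
      atTop (𝓝 (∑ r ∈ S, if lam r = 0 then a r else 0)) := by
    refine tendsto_finsetSum S fun r hr => ?_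
    by_cases h0 : lam r = 0
    · simp only [h0, if_true]
      simp
    · simp only [h0, if_false]
      have hpos : 0 < lam r := lt_of_le_of_ne (hl r hr) (Ne.symm h0)
      rw [tendsto_zero_iff_norm_tendsto_zero]
      have h2 : ∀ t : ℝ, ‖a r * Complex.exp (Complex.I * lam r * (t * Complex.I))‖ =
          ‖a r‖ * Real.exp (-(lam r * t)) := by
        intro t
        rw [norm_mul, Complex.norm_exp]
        congr 2
        have h3 : Complex.I * lam r * (t * Complex.I) = ((-(lam r * t) : ℝ) : ℂ) := by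
          push_cast
          linear_combination (lam r : ℂ) * t * Complex.I_sq
        rw [h3, Complex.ofReal_re]
      simp only [h2]
      have h3 : Tendsto (fun t : ℝ => Real.exp (-(lam r * t))) atTop (𝓝 0) :=
        Real.tendsto_exp_neg_atTop_nhds_zero.comp (tendsto_id.const_mul_atTop hpos)
      simpa using h3.const_mul ‖a r‖
  rw [← Finset.sum_filter] at h1
  obtain ⟨t, ht⟩ := (h1.eventually_ne hne).exists
  exact ⟨_, ht⟩

/-- PROOF. Let `d n = e n j → ∞`, `Q n = ∑ r < s, X ^ e n r * A r`, and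
`Fm n w = (cx (Q n)).eval (z n * exp (I * w / d n))
  = ∑ r < s, z n ^ e n r * exp (I * w * (e n r / d n)) * (cx (A r)).eval (z n * exp (I * w / d n))`
(for `d n > 0`), `F w = ∑ r ∈ S, (cx (A r)).eval z0 * y r * exp (I * lam r * w)`; entire functions. `F` is not
identically zero: for `w = y * I`, `y → ∞` it tends to `∑ r ∈ S with lam r = 0, ... ≠ 0`. Let `0 < w.im`,
`w0 = w`, `R = w.im / 2`. Apply `hurwitz`. `hconv`: let `w n → w'` along `U`, `w'` in the closed ball, so
`w'.im > 0`. `exp (I * w n / d n) → 1`, `z n * exp .. → z0`, so the last factors converge. For `r ∈ S` the first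
factor tends to `y r` and the second to `exp (I * lam r * w')`. For `r < s`, `r ∉ S` the first factor has absolute
value `1` and the second `exp (- (w n).im * (e n r / d n)) → 0`, since `(w n).im → w'.im > 0` and the ratio tends
to infinity. `hnz`: for `w` in the closed ball `‖z n * exp (I * w / d n)‖ = exp (- w.im / d n)` is `< 1` and
`> ρ` for almost all `n` (`w.im ≤ 2 w0.im`), use `hnz`. -/
theorem zoom (U : Ultrafilter ℕ) (s : ℕ) (A : ℕ → ℤ[X]) (e : ℕ → ℕ → ℕ) {j : ℕ}
    (hj : Tendsto (fun n => (e n j : ℝ)) (U : Filter ℕ) atTop) {S : Finset ℕ} {lam : ℕ → ℝ}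
    (hS : S ⊆ Finset.range s)
    (h1 : ∀ r ∈ S, 0 ≤ lam r ∧
        Tendsto (fun n => (e n r : ℝ) / e n j) (U : Filter ℕ) (𝓝 (lam r)))
    (h2 : ∀ r ∈ Finset.range s, r ∉ S →
        Tendsto (fun n => (e n r : ℝ) / e n j) (U : Filter ℕ) atTop)
    {ρ : ℝ} (hρ : ρ < 1)
    (hnz : ∀ᶠ n in (U : Filter ℕ), ∀ z : ℂ, ρ < ‖z‖ → ‖z‖ < 1 →
      (cx (∑ r ∈ Finset.range s, X ^ e n r * A r)).eval z ≠ 0)
    (z : ℕ → ℂ) (hz : ∀ n, ‖z n‖ = 1) {z0 : ℂ} (hz0 : Tendsto z (U : Filter ℕ) (𝓝 z0))
    (y : ℕ → ℂ) (hy : ∀ r ∈ S, Tendsto (fun n => z n ^ e n r) (U : Filter ℕ) (𝓝 (y r)))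
    (hne : ∑ r ∈ S with lam r = 0, (cx (A r)).eval z0 * y r ≠ 0) :
    ∀ w : ℂ, 0 < w.im →
      ∑ r ∈ S, (cx (A r)).eval z0 * y r * Complex.exp (Complex.I * lam r * w) ≠ 0 := by
  intro w0 hw0
  have hR : 0 < w0.im / 2 := by linarith
  have him : ∀ w ∈ Metric.closedBall w0 (w0.im / 2), w0.im / 2 ≤ w.im ∧ w.im ≤ 2 * w0.im := by
    intro w hw
    rw [Metric.mem_closedBall, dist_eq_norm] at hw
    have h3 : |(w - w0).im| ≤ w0.im / 2 := (Complex.abs_im_le_norm _).trans hw
    rw [Complex.sub_im, abs_le] at h3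
    constructor <;> linarith [h3.1, h3.2]
  refine hurwitz U (F := fun w => ∑ r ∈ S, (cx (A r)).eval z0 * y r *
      Complex.exp (Complex.I * lam r * w)) ?_ (Zoom_ne (fun r hr => (h1 r hr).1) _ hne)
    (Fm := fun n w => (cx (∑ r ∈ Finset.range s, X ^ e n r * A r)).eval
      (z n * Complex.exp (Complex.I * w / ((e n j : ℝ) : ℂ)))) ?_ hR ?_ ?_
  · fun_prop
  · intro n
    have h3 : Differentiable ℂ fun w : ℂ =>
        z n * Complex.exp (Complex.I * w / ((e n j : ℝ) : ℂ)) := by fun_prop
    exact (Polynomial.differentiable _).comp h3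
  · intro w w' hw' hw
    have hw'0 : 0 < w'.im := lt_of_lt_of_le hR (him w' hw').1
    have hinv : Tendsto (fun n => (((e n j : ℝ)⁻¹ : ℝ) : ℂ)) (U : Filter ℕ) (𝓝 0) := by
      have h3 := (Complex.continuous_ofReal.tendsto 0).comp (tendsto_inv_atTop_zero.comp hj)
      rw [Complex.ofReal_zero] at h3
      exact h3
    have hE : Tendsto (fun n => z n * Complex.exp (Complex.I * w n / ((e n j : ℝ) : ℂ)))
        (U : Filter ℕ) (𝓝 z0) := by
      have h3 : Tendsto (fun n => Complex.I * w n * (((e n j : ℝ)⁻¹ : ℝ) : ℂ)) (U : Filter ℕ)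
          (𝓝 (Complex.I * w' * 0)) := (tendsto_const_nhds.mul hw).mul hinv
      rw [mul_zero] at h3
      have h4 := (Complex.continuous_exp.tendsto 0).comp h3
      rw [Complex.exp_zero] at h4
      have h5 := hz0.mul h4
      rw [mul_one] at h5
      refine h5.congr fun n => ?_
      simp only [Function.comp]
      rw [Complex.ofReal_inv, div_eq_mul_inv]
    have hA : ∀ r, Tendsto (fun n => (cx (A r)).eval
        (z n * Complex.exp (Complex.I * w n / ((e n j : ℝ) : ℂ)))) (U : Filter ℕ)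
        (𝓝 ((cx (A r)).eval z0)) := fun r => ((cx (A r)).continuous.tendsto z0).comp hE
    have hterm : ∀ r ∈ Finset.range s, Tendsto (fun n =>
        (z n * Complex.exp (Complex.I * w n / ((e n j : ℝ) : ℂ))) ^ e n r *
          (cx (A r)).eval (z n * Complex.exp (Complex.I * w n / ((e n j : ℝ) : ℂ))))
        (U : Filter ℕ) (𝓝 (if r ∈ S then (cx (A r)).eval z0 * y r *
          Complex.exp (Complex.I * lam r * w') else 0)) := by
      intro r hr
      simp only [Zoom_pow]
      by_cases hrS : r ∈ S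
      · simp only [hrS, if_true]
        have h3 : Tendsto (fun n => Complex.I * w n * (((e n r : ℝ) / (e n j : ℝ) : ℝ) : ℂ))
            (U : Filter ℕ) (𝓝 (Complex.I * w' * (lam r : ℂ))) :=
          (tendsto_const_nhds.mul hw).mul ((Complex.continuous_ofReal.tendsto _).comp (h1 r hrS).2)
        have h4 := ((hy r hrS).mul ((Complex.continuous_exp.tendsto _).comp h3)).mul (hA r)
        have h5 : y r * Complex.exp (Complex.I * w' * (lam r : ℂ)) * (cx (A r)).eval z0 =
            (cx (A r)).eval z0 * y r * Complex.exp (Complex.I * lam r * w') := by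
          rw [mul_right_comm Complex.I w' (lam r : ℂ)]
          ring
        rw [h5] at h4
        exact h4
      · simp only [hrS, if_false]
        rw [tendsto_zero_iff_norm_tendsto_zero]
        have h3 : Tendsto (fun n => (w n).im * ((e n r : ℝ) / (e n j : ℝ))) (U : Filter ℕ) atTop :=
          Tendsto.pos_mul_atTop hw'0 ((Complex.continuous_im.tendsto w').comp hw) (h2 r hr hrS)
        have h4 := (Real.tendsto_exp_neg_atTop_nhds_zero.comp h3).mul (hA r).norm
        rw [zero_mul] at h4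
        refine h4.congr fun n => ?_
        rw [norm_mul, norm_mul, norm_pow, hz, one_pow, one_mul, Complex.norm_exp, Zoom_re]
        rfl
    have hsum := tendsto_finsetSum (Finset.range s) hterm
    have h3 : ∑ r ∈ Finset.range s, (if r ∈ S then (cx (A r)).eval z0 * y r *
          Complex.exp (Complex.I * lam r * w') else 0) =
        ∑ r ∈ S, (cx (A r)).eval z0 * y r * Complex.exp (Complex.I * lam r * w') := by
      rw [← Finset.sum_filter, Finset.filter_mem_eq_inter, Finset.inter_eq_right.2 hS]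
    rw [h3] at hsum
    refine hsum.congr fun n => ?_
    rw [Zoom_eval]
  · have h3 : Tendsto (fun n => Real.exp (-(2 * w0.im * (e n j : ℝ)⁻¹))) (U : Filter ℕ)
        (𝓝 1) := by
      have h4 : Tendsto (fun n => -(2 * w0.im * (e n j : ℝ)⁻¹)) (U : Filter ℕ) (𝓝 0) := by
        have h5 := (tendsto_inv_atTop_zero.comp hj).const_mul (2 * w0.im)
        simpa using h5.neg
      have h5 := (Real.continuous_exp.tendsto 0).comp h4
      rwa [Real.exp_zero] at h5
    filter_upwards [hnz, hj.eventually_gt_atTop 0, h3.eventually (lt_mem_nhds hρ)] with n hn hpos hbig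
    intro w hw
    obtain ⟨ha, hb⟩ := him w hw
    have h4 : ‖z n * Complex.exp (Complex.I * w / ((e n j : ℝ) : ℂ))‖ =
        Real.exp (-(w.im / (e n j : ℝ))) := by
      rw [norm_mul, hz, one_mul, Complex.norm_exp, Zoom_re']
    refine hn _ ?_ ?_
    · rw [h4]
      refine lt_of_lt_of_le hbig (Real.exp_le_exp.2 (neg_le_neg ?_))
      rw [div_eq_mul_inv]
      exact mul_le_mul_of_nonneg_right hb (by positivity)
    · rw [h4, Real.exp_lt_one_iff]
      have : 0 < w.im / (e n j : ℝ) := div_pos (by linarith) hpos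
      linarith

end SalemLen
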